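import Mathlib
import Pool.Agent.H595R2.PR.POL

/-!
# Arithmetic of `ℤ[X]/(f, p)` on lists of natural numbers

`f = X ^ n + c_{n-1} X ^ {n-1} + … + c_0` is given by the list `c` of its lower coefficients.  The
residue class of `∑ a_k X ^ k` is the list of the `a_k` modulo `p`.
-/

set_option autoImplicit false

namespace Pool.Agent.Helper303_RF

open Pool.Agent.NPC
open Pool.Agent.H595R2.PR (md pw strip)

/-- a natural number congruent to the integer `c` modulo `p` (for `p ≥ 1`) -/
def rep (c : ℤ) (p : ℕ) : ℕ := c.toNat + (-c).toNat * (p - 1)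

/-- the vector with the `n` entries `g 0, …, g (n - 1)`, reduced modulo `p` -/
def mk (n p : ℕ) (g : ℕ → ℕ) : List ℕ := (List.range n).map (fun k => md p (g k))

/-- sum -/
def vadd (n p : ℕ) (a b : List ℕ) : List ℕ := mk n p fun k => a.getD k 0 + b.getD k 0

/-- multiple by a number -/
def vsmul (n p m : ℕ) (a : List ℕ) : List ℕ := mk n p fun k => m * a.getD k 0

/-- multiplication by `X` -/
def xmul (c : List ℤ) (p : ℕ) (a : List ℕ) : List ℕ :=
  mk c.length p fun k => (if k = 0 then 0 else a.getD (k - 1) 0) +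
    rep (-(c.getD k 0)) p * a.getD (c.length - 1) 0

/-- the unit -/
def vone (n p : ℕ) : List ℕ := mk n p fun k => if k = 0 then 1 else 0

/-- zero -/
def vzero (n p : ℕ) : List ℕ := mk n p fun _ => 0

/-- product, by Horner's rule -/
def vmul (c : List ℤ) (p : ℕ) (a b : List ℕ) : List ℕ :=
  (List.range c.length).foldr
    (fun i acc => vadd c.length p (vsmul c.length p (a.getD i 0) b) (xmul c p acc))
    (vzero c.length p)

/-- power, by repeated squaring -/
def vpow (c : List ℤ) (p : ℕ) (a : List ℕ) (e : ℕ) : List ℕ :=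
  e.bits.foldr (fun d acc => if d then vmul c p (vmul c p acc acc) a else vmul c p acc acc)
    (vone c.length p)

/-- the value of the vector `a` at `z` -/
def ev {κ : Type} [Semiring κ] (n : ℕ) (z : κ) (a : List ℕ) : κ :=
  ∑ k ∈ Finset.range n, (a.getD k 0 : κ) * z ^ k

section ev

theorem mk_getD (n p : ℕ) (g : ℕ → ℕ) {k : ℕ} (hk : k < n) : (mk n p g).getD k 0 = md p (g k) := by
  unfold mk
  rw [List.getD_eq_getElem?_getD, List.getElem?_map, List.getElem?_range hk]
  rfl

theorem mk_length (n p : ℕ) (g : ℕ → ℕ) : (mk n p g).length = n := by simp [mk]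

variable {κ : Type} [CommRing κ] {p : ℕ} [Fact p.Prime] [CharP κ p]

theorem cast_md (x : ℕ) : ((md p x : ℕ) : κ) = (x : κ) := by
  unfold md
  have hp : p.Prime := Fact.out
  rw [max_eq_left hp.one_lt.le]
  conv_rhs => rw [← Nat.mod_add_div x p]
  push_cast
  rw [CharP.cast_eq_zero κ p]
  ring

theorem cast_rep (c : ℤ) : ((rep c p : ℕ) : κ) = (c : κ) := by
  unfold rep
  have hp : p.Prime := Fact.out
  have h1 : ((p - 1 : ℕ) : κ) = -1 := by
    rw [Nat.cast_sub hp.one_lt.le, CharP.cast_eq_zero κ p]
    simp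
  push_cast
  rw [h1]
  have h2 : (c : ℤ) = (c.toNat : ℤ) - ((-c).toNat : ℤ) := by omega
  conv_rhs => rw [h2]
  push_cast
  ring

theorem ev_mk (n : ℕ) (z : κ) (g : ℕ → ℕ) :
    ev n z (mk n p g) = ∑ k ∈ Finset.range n, (g k : κ) * z ^ k := by
  unfold ev
  refine Finset.sum_congr rfl fun k hk => ?_
  rw [mk_getD n p g (Finset.mem_range.1 hk), cast_md (p := p)]

theorem ev_vadd (n : ℕ) (z : κ) (a b : List ℕ) :
    ev n z (vadd n p a b) = ev n z a + ev n z b := by
  unfold vadd
  rw [ev_mk]
  unfold ev
  rw [← Finset.sum_add_distrib]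
  refine Finset.sum_congr rfl fun k _ => ?_
  push_cast
  ring

theorem ev_vsmul (n m : ℕ) (z : κ) (a : List ℕ) :
    ev n z (vsmul n p m a) = (m : κ) * ev n z a := by
  unfold vsmul
  rw [ev_mk]
  unfold ev
  rw [Finset.mul_sum]
  refine Finset.sum_congr rfl fun k _ => ?_
  push_cast
  ring

theorem ev_vone {n : ℕ} (hn : 0 < n) (z : κ) : ev n z (vone n p) = 1 := by
  unfold vone
  rw [ev_mk, Finset.sum_eq_single 0]
  · simp
  · intro b _ hb
    simp [hb]
  · intro h
    exact absurd (Finset.mem_range.2 hn) h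

theorem ev_vzero (n : ℕ) (z : κ) : ev n z (vzero n p) = 0 := by
  unfold vzero
  rw [ev_mk]
  simp

/-- `z` is a root of the monic polynomial with lower coefficients `c` -/
def IsRt (c : List ℤ) (z : κ) : Prop :=
  z ^ c.length + ∑ k ∈ Finset.range c.length, ((c.getD k 0 : ℤ) : κ) * z ^ k = 0

omit [Fact p.Prime] [CharP κ p] in
theorem ev_shift (n : ℕ) (z : κ) (a : ℕ → κ) :
    ∑ k ∈ Finset.range (n + 1), (if k = 0 then 0 else a (k - 1)) * z ^ k =
      z * ∑ k ∈ Finset.range n, a k * z ^ k := by
  rw [Finset.sum_range_succ', Finset.mul_sum]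
  simp only [if_true, zero_mul, add_zero, Nat.succ_ne_zero, if_false, Nat.add_sub_cancel]
  refine Finset.sum_congr rfl fun k _ => ?_
  rw [pow_succ]
  ring

theorem ev_xmul {c : List ℤ} (hc : 0 < c.length) {z : κ} (hz : IsRt c z) (a : List ℕ) :
    ev c.length z (xmul c p a) = z * ev c.length z a := by
  obtain ⟨n, hn⟩ : ∃ n, c.length = n + 1 := ⟨c.length - 1, by omega⟩
  unfold xmul
  rw [ev_mk]
  have h1 : ∀ k, (((if k = 0 then 0 else a.getD (k - 1) 0) +
      rep (-(c.getD k 0)) p * a.getD (c.length - 1) 0 : ℕ) : κ) * z ^ k =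
      (if k = 0 then 0 else (a.getD (k - 1) 0 : κ)) * z ^ k -
        (a.getD (c.length - 1) 0 : κ) * (((c.getD k 0 : ℤ) : κ) * z ^ k) := by
    intro k
    push_cast
    rw [cast_rep (p := p)]
    push_cast
    split_ifs <;> ring
  simp_rw [h1]
  rw [Finset.sum_sub_distrib, ← Finset.mul_sum]
  have h2 : ∑ k ∈ Finset.range c.length, ((c.getD k 0 : ℤ) : κ) * z ^ k = - z ^ c.length := by
    unfold IsRt at hz
    linear_combination hz
  rw [h2]
  unfold ev
  rw [hn]
  have h3 := ev_shift n z (fun k => (a.getD k 0 : κ))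
  rw [h3, Nat.add_sub_cancel]
  conv_rhs => rw [Finset.sum_range_succ]
  rw [pow_succ]
  ring

theorem ev_vmul {c : List ℤ} (hc : 0 < c.length) {z : κ} (hz : IsRt c z) (a b : List ℕ) :
    ev c.length z (vmul c p a b) = ev c.length z a * ev c.length z b := by
  unfold vmul
  have key : ∀ m s : ℕ, ev c.length z ((List.range' s m).foldr
      (fun i acc => vadd c.length p (vsmul c.length p (a.getD i 0) b) (xmul c p acc))
      (vzero c.length p)) = (∑ k ∈ Finset.range m, (a.getD (s + k) 0 : κ) * z ^ k) *
        ev c.length z b := by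
    intro m
    induction m with
    | zero => intro s; simp [ev_vzero]
    | succ m ih =>
      intro s
      rw [List.range'_succ, List.foldr_cons, ev_vadd, ev_vsmul, ev_xmul hc hz, ih (s + 1),
        Finset.sum_range_succ']
      simp only [pow_zero, mul_one, add_zero]
      have h1 : z * ((∑ k ∈ Finset.range m, (a.getD (s + 1 + k) 0 : κ) * z ^ k) *
          ev c.length z b) = (∑ k ∈ Finset.range m, (a.getD (s + (k + 1)) 0 : κ) * z ^ (k + 1)) *
            ev c.length z b := by
        rw [← mul_assoc, Finset.mul_sum]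
        congr 1
        refine Finset.sum_congr rfl fun k _ => ?_
        rw [show s + 1 + k = s + (k + 1) by ring, pow_succ]
        ring
      rw [h1]
      ring
  have := key c.length 0
  rw [← List.range_eq_range'] at this
  rw [this]
  unfold ev
  simp

theorem ev_vpow {c : List ℤ} (hc : 0 < c.length) {z : κ} (hz : IsRt c z) (a : List ℕ) (e : ℕ) :
    ev c.length z (vpow c p a e) = ev c.length z a ^ e := by
  unfold vpow
  have key : ∀ l : List Bool, ev c.length z (l.foldr (fun d acc => if d then
      vmul c p (vmul c p acc acc) a else vmul c p acc acc) (vone c.length p)) =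
      ev c.length z a ^ valB l := by
    intro l
    induction l with
    | nil => simp [ev_vone hc, valB]
    | cons d l ih =>
      rw [List.foldr_cons, valB_cons]
      cases d
      · simp only [Bool.false_eq_true, if_false]
        rw [ev_vmul hc hz, ih]
        simp only [zero_add]
        rw [← pow_add, two_mul]
      · simp only [if_true]
        rw [ev_vmul hc hz, ev_vmul hc hz, ih]
        rw [add_comm, pow_succ, ← pow_add, two_mul]
  rw [key, valB_bits]

end ev

end Pool.Agent.Helper303_RF
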