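import Mathlib
import Pool.Agent.Helper303_RF.Vec
import Pool.Agent.H595R2.PR.STR
import Pool.Agent.H595R2.PR.POW

/-!
# The algorithm for a monic polynomial

For a prime `p` the ring `A = ℤ[X]/(f, p)` contains the ring of functions on the set of the roots of
`f` in `F_p`.  All elements of `A` with small coefficients are compared, for all small `q` and all
exponents, by the method of Pohlig and Hellman for discrete logarithms, simultaneously at all the
roots; every comparison of a digit yields a function on the roots with values `0`, `1`.  Products of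
few of these functions and their complements are computed, and the roots are read off.
-/

set_option autoImplicit false

namespace Pool.Agent.Helper303_RF

open Pool.Agent.NPC
open Pool.Agent.H595R2.PR (md pw strip)

/-- `1 - y` -/
def compl (c : List ℤ) (p : ℕ) (y : List ℕ) : List ℕ :=
  vadd c.length p (vone c.length p) (vsmul c.length p (p - 1) y)

/-- `1 - y ^ (p - 1)`, the indicator function of the zeros of `y` -/
def ind (c : List ℤ) (p : ℕ) (y : List ℕ) : List ℕ := compl c p (vpow c p y (p - 1))

/-- `x ^ (q ^ j)` -/
def itq (c : List ℤ) (p q j : ℕ) (x : List ℕ) : List ℕ := (fun z => vpow c p z q)^[j] x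

/-- the indicator function of `w ^ (q ^ j) = ζ ^ d` -/
def bit (c : List ℤ) (p q j : ℕ) (ζ w : List ℕ) (d : ℕ) : List ℕ :=
  ind c p (vadd c.length p (itq c p q j w) (vsmul c.length p (p - 1) (vpow c p ζ d)))

/-- the next remainder: `w * us ^ (- d)` where the digit is `d` -/
def stepW (c : List ℤ) (p q j : ℕ) (ζ us w : List ℕ) : List ℕ :=
  (List.range q).foldl (fun acc d => vadd c.length p acc
    (vmul c p (bit c p q j ζ w d) (vmul c p w (vpow c p us (p - 1 - d))))) (vzero c.length p)

/-- the remainder after `s` digits -/
def rmd (c : List ℤ) (p q a : ℕ) (ζ u w : List ℕ) (s : ℕ) : List ℕ :=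
  (List.range s).foldl (fun w i => stepW c p q (a - 1 - i) ζ (itq c p q (min i a) u) w) w

/-- all indicator functions of the digits of the logarithm of `w` to the base `u`, for the exponent
`q ^ a` -/
def bits1 (c : List ℤ) (p q a : ℕ) (u w : List ℕ) : List (List ℕ) :=
  (List.range a).flatMap fun s => (List.range q).map fun d =>
    bit c p q (a - 1 - s) (itq c p q (a - 1) u) (rmd c p q a (itq c p q (a - 1) u) u w (min s a)) d

/-- the residues of `-H, …, H` -/
def smallC (p H : ℕ) : List ℕ := (List.range (2 * H + 1)).map fun j => md p (j + H * (p - 1))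

/-- all vectors of length `n` with entries from the list `l` -/
def cube : ℕ → List ℕ → List (List ℕ)
  | 0, _ => [[]]
  | n + 1, l => l.flatMap fun x => (cube n l).map fun t => x :: t

/-- the tests for two elements -/
def tests2 (c : List ℤ) (p n L : ℕ) (α β : List ℕ) : List (List ℕ) :=
  (List.range (L + 1)).flatMap fun q => (List.range (n + 1)).flatMap fun a =>
    bits1 c p (min q L) (min a n) (vpow c p α (strip (min q L) n (p - 1)))
      (vpow c p β (strip (min q L) n (p - 1)))

/-- all tests -/
def tests (c : List ℤ) (p n L H : ℕ) : List (List ℕ) :=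
  (cube c.length (smallC p H)).flatMap fun α => (cube c.length (smallC p H)).flatMap fun β =>
    tests2 c p n L α β

/-- the variable -/
def xv (c : List ℤ) (p : ℕ) : List ℕ := xmul c p (vone c.length p)

/-- the power with exponent `(p - 1) (p ^ 2 - 1) ⋯ (p ^ m - 1)` -/
def bigpow (c : List ℤ) (p : ℕ) : ℕ → List ℕ → List ℕ
  | 0, y => y
  | m + 1, y => vpow c p (bigpow c p m y) (p ^ (m + 1) - 1)

/-- the indicator function of the roots in `F_p` -/
def spl (c : List ℤ) (p : ℕ) : List ℕ :=
  compl c p (bigpow c p c.length (vadd c.length p (vpow c p (xv c p) p)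
    (vsmul c.length p (p - 1) (xv c p))))

/-- the tests and their complements -/
def lits (c : List ℤ) (p n L H : ℕ) : List (List ℕ) :=
  spl c p :: (tests c p n L H ++ (tests c p n L H).map (compl c p))

/-- the products of `m` literals -/
def prods (c : List ℤ) (p : ℕ) (l : List (List ℕ)) : ℕ → List (List ℕ)
  | 0 => [vone c.length p]
  | m + 1 => l.flatMap fun x => (prods c p l m).map fun t => vmul c p x t

/-- the root at which the function `t` is concentrated -/
def extr (c : List ℤ) (p : ℕ) (t : List ℕ) : List ℕ :=
  (List.range c.length).map fun i =>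
    md p ((xmul c p t).getD i 0 * pw p (t.getD i 0) (p - 2))

/-- the list of possible roots -/
def rlist (c : List ℤ) (p n L H : ℕ) : List ℕ :=
  (prods c p (lits c p n L H) c.length).flatMap (extr c p)

end Pool.Agent.Helper303_RF
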