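import Mathlib
import Pool.Agent.Helper303_RF.Vec

/-!
# The arithmetic of `ℤ[X]/(f, p)` takes polynomial time
-/

set_option autoImplicit false

namespace Pool.Agent.NPC.H303

open Pool.Agent.NPC Pool.Agent.NPC.H595POL Pool.Agent.Helper303_RF
open Pool.Agent.H595R2.PR (md pw strip)

variable {α β : Type} [TEnc α] [TEnc β]

theorem sz_mk (n p : ℕ) (g : ℕ → ℕ) : sz (mk n p g) ≤ n * (2 * sz (max p 1) + 1) + 1 := by
  have h := sz_le_length_mul (mk n p g) (2 * sz (max p 1)) (by
    intro x hx
    unfold mk at hx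
    obtain ⟨k, _, rfl⟩ := List.mem_map.1 hx
    exact sz_nat_mono_le (md_le _ _))
  rw [mk_length] at h
  exact h

theorem poly_rep (c : ℤ) {p : α → ℕ} (hp : Poly p) : Poly (fun a => rep c (p a)) :=
  Poly.add (Poly.const _) (Poly.mul (Poly.const _) (Poly.sub hp (Poly.const 1)))

theorem poly_mk (n : ℕ) {p : α → ℕ} (hp : Poly p) {g : α → ℕ → ℕ}
    (hg : Poly (fun q : α × ℕ => g q.1 q.2)) : Poly (fun a => mk n (p a) (g a)) := by
  unfold mk
  exact Poly.map (l := fun _ => List.range n) (F := fun a k => md (p a) (g a k)) (Poly.const _)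
    (poly_md (hp.comp (Poly.fst Poly.id)) hg)

theorem poly_entry {a : α → List ℕ} (ha : Poly a) {k : α → ℕ} (hk : Poly k) :
    Poly (fun x => (a x).getD (k x) 0) :=
  Poly.getD ha hk (Poly.const 0)

/-- an element of a fixed finite list of integers, represented modulo `p` -/
theorem poly_repc (c : List ℤ) {p k : α → ℕ} (hp : Poly p) (hk : Poly k) :
    Poly (fun a => rep (-(c.getD (k a) 0)) (p a)) := by
  have h : Poly (fun a => ((c.map fun z => rep (-z) 1).getD (k a) 0) +
      ((c.map fun z => (-(-z)).toNat).getD (k a) 0) * (p a - 1)) := by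
    refine Poly.add (Poly.getD (Poly.const _) hk (Poly.const 0)) (Poly.mul
      (Poly.getD (Poly.const _) hk (Poly.const 0)) (Poly.sub hp (Poly.const 1)))
  refine h.congr fun a => ?_
  unfold rep
  by_cases hk : k a < c.length
  · simp [List.getD_eq_getElem?_getD, List.getElem?_map, List.getElem?_eq_getElem hk]
  · have h1 : c.getD (k a) 0 = 0 := List.getD_eq_default _ _ (by omega)
    have h2 : ∀ g : ℤ → ℕ, (c.map g).getD (k a) 0 = 0 := fun g =>
      List.getD_eq_default _ _ (by rw [List.length_map]; omega)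
    rw [h1, h2, h2]
    simp

theorem poly_vadd (n : ℕ) {p : α → ℕ} (hp : Poly p) {a b : α → List ℕ} (ha : Poly a)
    (hb : Poly b) : Poly (fun x => vadd n (p x) (a x) (b x)) :=
  poly_mk n hp (g := fun x k => (a x).getD k 0 + (b x).getD k 0)
    (Poly.add (poly_entry (ha.comp (Poly.fst Poly.id)) (Poly.snd Poly.id))
      (poly_entry (hb.comp (Poly.fst Poly.id)) (Poly.snd Poly.id)))

theorem poly_vsmul (n : ℕ) {p m : α → ℕ} (hp : Poly p) (hm : Poly m) {a : α → List ℕ}
    (ha : Poly a) : Poly (fun x => vsmul n (p x) (m x) (a x)) :=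
  poly_mk n hp (g := fun x k => m x * (a x).getD k 0)
    (Poly.mul (hm.comp (Poly.fst Poly.id))
      (poly_entry (ha.comp (Poly.fst Poly.id)) (Poly.snd Poly.id)))

theorem poly_xmul (c : List ℤ) {p : α → ℕ} (hp : Poly p) {a : α → List ℕ}
    (ha : Poly a) : Poly (fun x => xmul c (p x) (a x)) := by
  refine poly_mk c.length hp (g := fun x k => (if k = 0 then 0 else (a x).getD (k - 1) 0) +
    rep (-(c.getD k 0)) (p x) * (a x).getD (c.length - 1) 0) ?_
  have hk : Poly (fun q : α × ℕ => q.2) := Poly.snd Poly.id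
  have ha' : Poly (fun q : α × ℕ => a q.1) := ha.comp (Poly.fst Poly.id)
  refine Poly.add (Poly.ite (Poly.decide_eq hk (Poly.const 0)) (Poly.const 0)
    (poly_entry ha' (Poly.sub hk (Poly.const 1)))) (Poly.mul
    (poly_repc c (hp.comp (Poly.fst Poly.id)) hk) (poly_entry ha' (Poly.const _)))

/-- right folds whose states are reduced vectors -/
theorem foldrV (n : ℕ) {l : α → List β} {s : α → List ℕ} {F : α → β → List ℕ → List ℕ}
    (hl : Poly l) (hs : Poly s) (hF : Poly (fun q : α × β × List ℕ => F q.1 q.2.1 q.2.2))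
    {p : α → ℕ} (hp : Poly p) (h : ∀ a b x, ∃ g, F a b x = mk n (p a) g) :
    Poly (fun a => (l a).foldr (F a) (s a)) := by
  obtain ⟨r, hr⟩ := hs.sz_le
  obtain ⟨r', hr'⟩ := (poly_mx hp).sz_le
  refine Poly.foldr hl hs hF (r + (Polynomial.C n * (Polynomial.C 2 * r' + Polynomial.C 1) +
    Polynomial.C 1)) fun a k _ => ?_
  simp only [Polynomial.eval_add, Polynomial.eval_mul, Polynomial.eval_C]
  cases (l a).drop k with
  | nil => exact (hr a).trans (Nat.le_add_right _ _)
  | cons b t =>
    rw [List.foldr_cons]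
    obtain ⟨g, hg⟩ := h a b (t.foldr (F a) (s a))
    rw [hg]
    refine (sz_mk _ _ _).trans ?_
    have h1 := hr' a
    have h2 : n * (2 * sz (max (p a) 1) + 1) ≤ n * (2 * r'.eval (sz a) + 1) :=
      Nat.mul_le_mul_left _ (by omega)
    omega

/-- left folds whose states are reduced vectors -/
theorem foldlV (n : ℕ) {l : α → List β} {s : α → List ℕ} {F : α → List ℕ → β → List ℕ}
    (hl : Poly l) (hs : Poly s) (hF : Poly (fun q : α × List ℕ × β => F q.1 q.2.1 q.2.2))
    {p : α → ℕ} (hp : Poly p) (h : ∀ a b x, ∃ g, F a x b = mk n (p a) g) :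
    Poly (fun a => (l a).foldl (F a) (s a)) := by
  have h1 := foldrV n (l := fun a => (l a).reverse) (s := s) (F := fun a b x => F a x b)
    (Poly.reverse hl) hs (hF.comp (Poly.pair (Poly.fst Poly.id) (Poly.pair
      (Poly.snd (Poly.snd Poly.id)) (Poly.fst (Poly.snd Poly.id))))) hp h
  refine h1.congr fun a => ?_
  rw [List.foldr_reverse]

/-- iterations whose states are reduced vectors -/
theorem iterV (n : ℕ) {m : α → ℕ} {s : α → List ℕ} {F : α → List ℕ → List ℕ}
    (hm : UPoly m) (hs : Poly s) (hF : Poly (fun q : α × List ℕ => F q.1 q.2))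
    {p : α → ℕ} (hp : Poly p) (h : ∀ a x, ∃ g, F a x = mk n (p a) g) :
    Poly (fun a => (F a)^[m a] (s a)) := by
  have h1 := foldlV n (l := fun a => List.replicate (m a) ()) (s := s)
    (F := fun a x _ => F a x) hm hs (hF.comp (Poly.pair (Poly.fst Poly.id)
      (Poly.fst (Poly.snd Poly.id)))) hp (fun a _ x => h a x)
  refine h1.congr fun a => ?_
  have key : ∀ (k : ℕ) (x : List ℕ), (List.replicate k ()).foldl (fun x _ => F a x) x =
      (F a)^[k] x := by
    intro k
    induction k with
    | zero => intro x; rfl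
    | succ k ih => intro x; rw [List.replicate_succ, List.foldl_cons, ih]; rfl
  exact key _ _

theorem poly_vmul (c : List ℤ) {p : α → ℕ} (hp : Poly p) {a b : α → List ℕ} (ha : Poly a)
    (hb : Poly b) : Poly (fun x => vmul c (p x) (a x) (b x)) := by
  refine foldrV c.length (l := fun _ => List.range c.length)
    (s := fun x => vzero c.length (p x))
    (F := fun x i acc => vadd c.length (p x) (vsmul c.length (p x) ((a x).getD i 0) (b x))
      (xmul c (p x) acc)) (Poly.const _)
    (poly_mk _ hp (g := fun _ _ => 0) (Poly.const 0)) ?_ hp (fun _ _ _ => ⟨_, rfl⟩)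
  have hp' : Poly (fun q : α × ℕ × List ℕ => p q.1) := hp.comp (Poly.fst Poly.id)
  exact poly_vadd _ hp' (poly_vsmul _ hp' (poly_entry (ha.comp (Poly.fst Poly.id))
    (Poly.fst (Poly.snd Poly.id))) (hb.comp (Poly.fst Poly.id)))
    (poly_xmul c hp' (Poly.snd (Poly.snd Poly.id)))

theorem vmul_mk (c : List ℤ) (p : ℕ) (a b : List ℕ) : ∃ g, vmul c p a b = mk c.length p g := by
  unfold vmul
  cases h : List.range c.length with
  | nil => exact ⟨_, rfl⟩
  | cons b t => rw [List.foldr_cons]; exact ⟨_, rfl⟩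

theorem poly_vone (n : ℕ) {p : α → ℕ} (hp : Poly p) : Poly (fun x => vone n (p x)) :=
  poly_mk n hp (g := fun _ k => if k = 0 then 1 else 0)
    (Poly.ite (Poly.decide_eq (Poly.snd Poly.id) (Poly.const 0)) (Poly.const 1) (Poly.const 0))

theorem poly_vpow (c : List ℤ) {p e : α → ℕ} (hp : Poly p) (he : Poly e) {a : α → List ℕ}
    (ha : Poly a) : Poly (fun x => vpow c (p x) (a x) (e x)) := by
  refine foldrV c.length (l := fun x => (e x).bits) (s := fun x => vone c.length (p x))
    (F := fun x d acc => if d then vmul c (p x) (vmul c (p x) acc acc) (a x) else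
      vmul c (p x) acc acc) (Poly.natBits he) (poly_vone _ hp) ?_ hp ?_
  · have hp' : Poly (fun q : α × Bool × List ℕ => p q.1) := hp.comp (Poly.fst Poly.id)
    have hc : Poly (fun q : α × Bool × List ℕ => q.2.1) := Poly.fst (Poly.snd Poly.id)
    have hx : Poly (fun q : α × Bool × List ℕ => q.2.2) := Poly.snd (Poly.snd Poly.id)
    have hsq := poly_vmul c hp' hx hx
    exact Poly.ite (p := fun q : α × Bool × List ℕ => q.2.1 = true) (Poly.decide_bool hc)
      (poly_vmul c hp' hsq (ha.comp (Poly.fst Poly.id))) hsq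
  · intro x d acc
    cases d
    · exact vmul_mk _ _ _ _
    · exact vmul_mk _ _ _ _

theorem vpow_mk (c : List ℤ) (p : ℕ) (a : List ℕ) (e : ℕ) :
    ∃ g, vpow c p a e = mk c.length p g := by
  unfold vpow
  cases h : e.bits with
  | nil => exact ⟨_, rfl⟩
  | cons d t =>
    rw [List.foldr_cons]
    cases d
    · exact vmul_mk _ _ _ _
    · exact vmul_mk _ _ _ _

end Pool.Agent.NPC.H303
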