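import Mathlib
import Pool.Agent.Helper303_RF.VecPoly
import Pool.Agent.Helper303_RF.Alg

/-!
# The algorithm takes polynomial time
-/

set_option autoImplicit false

namespace Pool.Agent.NPC.H303

open Pool.Agent.NPC Pool.Agent.NPC.H595POL Pool.Agent.Helper303_RF
open Pool.Agent.H595R2.PR (md pw strip)

variable {α : Type} [TEnc α]

theorem vadd_mk (n p : ℕ) (a b : List ℕ) : ∃ g, vadd n p a b = mk n p g := ⟨_, rfl⟩

theorem poly_compl (c : List ℤ) {p : α → ℕ} (hp : Poly p) {y : α → List ℕ} (hy : Poly y) :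
    Poly (fun x => compl c (p x) (y x)) :=
  poly_vadd _ hp (poly_vone _ hp) (poly_vsmul _ hp (Poly.sub hp (Poly.const 1)) hy)

theorem poly_ind (c : List ℤ) {p : α → ℕ} (hp : Poly p) {y : α → List ℕ} (hy : Poly y) :
    Poly (fun x => ind c (p x) (y x)) :=
  poly_compl c hp (poly_vpow c hp (Poly.sub hp (Poly.const 1)) hy)

theorem poly_itq (c : List ℤ) {p q j : α → ℕ} (hp : Poly p) (hq : Poly q) (hj : UPoly j)
    {x : α → List ℕ} (hx : Poly x) : Poly (fun a => itq c (p a) (q a) (j a) (x a)) := by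
  refine iterV c.length (m := j) (s := x) (F := fun a z => vpow c (p a) z (q a)) hj hx
    (poly_vpow c (hp.comp (Poly.fst Poly.id)) (hq.comp (Poly.fst Poly.id)) (Poly.snd Poly.id)) hp
    fun a x => vpow_mk _ _ _ _

theorem poly_bit (c : List ℤ) {p q j d : α → ℕ} (hp : Poly p) (hq : Poly q) (hj : UPoly j)
    (hd : Poly d) {ζ w : α → List ℕ} (hζ : Poly ζ) (hw : Poly w) :
    Poly (fun a => bit c (p a) (q a) (j a) (ζ a) (w a) (d a)) :=
  poly_ind c hp (poly_vadd _ hp (poly_itq c hp hq hj hw) (poly_vsmul _ hp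
    (Poly.sub hp (Poly.const 1)) (poly_vpow c hp hd hζ)))

theorem poly_stepW (c : List ℤ) {p q j : α → ℕ} (hp : Poly p) (hq : UPoly q) (hj : UPoly j)
    {ζ us w : α → List ℕ} (hζ : Poly ζ) (hus : Poly us) (hw : Poly w) :
    Poly (fun a => stepW c (p a) (q a) (j a) (ζ a) (us a) (w a)) := by
  refine foldlV c.length (l := fun a => List.range (q a))
    (s := fun a => vzero c.length (p a)) (F := fun a acc d => vadd c.length (p a) acc
      (vmul c (p a) (bit c (p a) (q a) (j a) (ζ a) (w a) d) (vmul c (p a) (w a)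
        (vpow c (p a) (us a) (p a - 1 - d))))) hq.range
    (poly_mk _ hp (g := fun _ _ => 0) (Poly.const 0)) ?_ hp (fun _ _ _ => ⟨_, rfl⟩)
  have hp' : Poly (fun x : α × List ℕ × ℕ => p x.1) := hp.comp (Poly.fst Poly.id)
  have hw' : Poly (fun x : α × List ℕ × ℕ => w x.1) := hw.comp (Poly.fst Poly.id)
  have hd : Poly (fun x : α × List ℕ × ℕ => x.2.2) := Poly.snd (Poly.snd Poly.id)
  refine poly_vadd _ hp' (Poly.fst (Poly.snd Poly.id)) (poly_vmul c hp' ?_ (poly_vmul c hp' hw'
    (poly_vpow c hp' (Poly.sub (Poly.sub hp' (Poly.const 1)) hd) (hus.comp (Poly.fst Poly.id)))))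
  exact poly_bit c hp' (hq.toPoly.comp (Poly.fst Poly.id)) (hj.comp (Poly.fst Poly.id)) hd
    (hζ.comp (Poly.fst Poly.id)) hw'

theorem stepW_mk (c : List ℤ) (p q j : ℕ) (ζ us w : List ℕ) :
    ∃ g, stepW c p q j ζ us w = mk c.length p g := by
  unfold stepW
  cases q with
  | zero => exact ⟨_, rfl⟩
  | succ q =>
    rw [List.range_succ, List.foldl_append]
    exact ⟨_, rfl⟩

theorem poly_rmd (c : List ℤ) {p q a s : α → ℕ} (hp : Poly p) (hq : UPoly q) (ha : UPoly a)
    (hs : UPoly s) {ζ u w : α → List ℕ} (hζ : Poly ζ) (hu : Poly u) (hw : Poly w) :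
    Poly (fun x => rmd c (p x) (q x) (a x) (ζ x) (u x) (w x) (s x)) := by
  refine foldlV c.length (l := fun x => List.range (s x)) (s := w)
    (F := fun x w i => stepW c (p x) (q x) (a x - 1 - i) (ζ x)
      (itq c (p x) (q x) (min i (a x)) (u x)) w) hs.range hw ?_ hp
    (fun _ _ _ => stepW_mk _ _ _ _ _ _ _)
  have hp' : Poly (fun x : α × List ℕ × ℕ => p x.1) := hp.comp (Poly.fst Poly.id)
  have hq' : UPoly (fun x : α × List ℕ × ℕ => q x.1) := hq.comp (Poly.fst Poly.id)
  have ha' : UPoly (fun x : α × List ℕ × ℕ => a x.1) := ha.comp (Poly.fst Poly.id)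
  have hi : Poly (fun x : α × List ℕ × ℕ => x.2.2) := Poly.snd (Poly.snd Poly.id)
  refine poly_stepW c hp' hq' (UPoly.of_le (Poly.sub (Poly.sub ha'.toPoly (Poly.const 1)) hi) ha'
    fun x => by omega) (hζ.comp (Poly.fst Poly.id)) ?_ (Poly.fst (Poly.snd Poly.id))
  exact poly_itq c hp' hq'.toPoly (UPoly.of_le (Poly.min hi ha'.toPoly) ha'
    fun x => min_le_right _ _) (hu.comp (Poly.fst Poly.id))

theorem poly_bits1 (c : List ℤ) {p q a : α → ℕ} (hp : Poly p) (hq : UPoly q) (ha : UPoly a)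
    {u w : α → List ℕ} (hu : Poly u) (hw : Poly w) :
    Poly (fun x => bits1 c (p x) (q x) (a x) (u x) (w x)) := by
  refine Poly.flatMap (l := fun x => List.range (a x)) (F := fun x s =>
    (List.range (q x)).map fun d => bit c (p x) (q x) (a x - 1 - s)
      (itq c (p x) (q x) (a x - 1) (u x)) (rmd c (p x) (q x) (a x)
        (itq c (p x) (q x) (a x - 1) (u x)) (u x) (w x) (min s (a x))) d) ha.range ?_
  refine Poly.map (l := fun y : α × ℕ => List.range (q y.1)) (F := fun y d =>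
    bit c (p y.1) (q y.1) (a y.1 - 1 - y.2)
      (itq c (p y.1) (q y.1) (a y.1 - 1) (u y.1)) (rmd c (p y.1) (q y.1) (a y.1)
        (itq c (p y.1) (q y.1) (a y.1 - 1) (u y.1)) (u y.1) (w y.1) (min y.2 (a y.1))) d)
    (hq.comp (Poly.fst Poly.id)).range ?_
  have hp' : Poly (fun x : (α × ℕ) × ℕ => p x.1.1) := hp.comp (Poly.fst (Poly.fst Poly.id))
  have hq' : UPoly (fun x : (α × ℕ) × ℕ => q x.1.1) := hq.comp (Poly.fst (Poly.fst Poly.id))
  have ha' : UPoly (fun x : (α × ℕ) × ℕ => a x.1.1) := ha.comp (Poly.fst (Poly.fst Poly.id))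
  have hu' : Poly (fun x : (α × ℕ) × ℕ => u x.1.1) := hu.comp (Poly.fst (Poly.fst Poly.id))
  have hw' : Poly (fun x : (α × ℕ) × ℕ => w x.1.1) := hw.comp (Poly.fst (Poly.fst Poly.id))
  have hs : Poly (fun x : (α × ℕ) × ℕ => x.1.2) := Poly.snd (Poly.fst Poly.id)
  have hd : Poly (fun x : (α × ℕ) × ℕ => x.2) := Poly.snd Poly.id
  have ha1 : UPoly (fun x : (α × ℕ) × ℕ => a x.1.1 - 1) :=
    UPoly.of_le (Poly.sub ha'.toPoly (Poly.const 1)) ha' fun x => Nat.sub_le _ _
  have hζ := poly_itq c hp' hq'.toPoly ha1 hu'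
  refine poly_bit c hp' hq'.toPoly (UPoly.of_le (Poly.sub (Poly.sub ha'.toPoly (Poly.const 1)) hs)
    ha' fun x => by omega) hd hζ ?_
  exact poly_rmd c hp' hq' ha' (UPoly.of_le (Poly.min hs ha'.toPoly) ha'
    fun x => min_le_right _ _) hζ hu' hw'

theorem poly_smallC {p H : α → ℕ} (hp : Poly p) (hH : UPoly H) :
    Poly (fun x => smallC (p x) (H x)) := by
  refine Poly.map (l := fun x => List.range (2 * H x + 1))
    (F := fun x j => md (p x) (j + H x * (p x - 1)))
    (UPoly.add (UPoly.mul (UPoly.const 2) hH) (UPoly.const 1)).range ?_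
  have hp' : Poly (fun x : α × ℕ => p x.1) := hp.comp (Poly.fst Poly.id)
  exact poly_md hp' (Poly.add (Poly.snd Poly.id) (Poly.mul (hH.toPoly.comp (Poly.fst Poly.id))
    (Poly.sub hp' (Poly.const 1))))

theorem poly_cube (n : ℕ) {l : α → List ℕ} (hl : Poly l) : Poly (fun x => cube n (l x)) := by
  induction n with
  | zero => exact Poly.const _
  | succ n ih =>
    refine Poly.flatMap (l := l) (F := fun x y => (cube n (l x)).map fun t => y :: t) hl ?_
    refine Poly.map (l := fun y : α × ℕ => cube n (l y.1)) (F := fun y t => y.2 :: t)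
      (ih.comp (Poly.fst Poly.id)) ?_
    exact Poly.cons (Poly.snd (Poly.fst Poly.id)) (Poly.snd Poly.id)

theorem poly_tests2 (c : List ℤ) {p n L : α → ℕ} (hp : Poly p) (hn : UPoly n) (hL : UPoly L)
    {u w : α → List ℕ} (hu : Poly u) (hw : Poly w) :
    Poly (fun x => tests2 c (p x) (n x) (L x) (u x) (w x)) := by
  refine Poly.flatMap (l := fun x => List.range (L x + 1)) (F := fun x q =>
    (List.range (n x + 1)).flatMap fun a => bits1 c (p x) (min q (L x)) (min a (n x))
      (vpow c (p x) (u x) (strip (min q (L x)) (n x) (p x - 1)))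
      (vpow c (p x) (w x) (strip (min q (L x)) (n x) (p x - 1))))
    (UPoly.add hL (UPoly.const 1)).range ?_
  refine Poly.flatMap (l := fun y : α × ℕ => List.range (n y.1 + 1)) (F := fun y a =>
    bits1 c (p y.1) (min y.2 (L y.1)) (min a (n y.1))
      (vpow c (p y.1) (u y.1) (strip (min y.2 (L y.1)) (n y.1) (p y.1 - 1)))
      (vpow c (p y.1) (w y.1) (strip (min y.2 (L y.1)) (n y.1) (p y.1 - 1))))
    (UPoly.add (hn.comp (Poly.fst Poly.id)) (UPoly.const 1)).range ?_
  have hp' : Poly (fun x : (α × ℕ) × ℕ => p x.1.1) := hp.comp (Poly.fst (Poly.fst Poly.id))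
  have hn' : UPoly (fun x : (α × ℕ) × ℕ => n x.1.1) := hn.comp (Poly.fst (Poly.fst Poly.id))
  have hL' : UPoly (fun x : (α × ℕ) × ℕ => L x.1.1) := hL.comp (Poly.fst (Poly.fst Poly.id))
  have hu' : Poly (fun x : (α × ℕ) × ℕ => u x.1.1) := hu.comp (Poly.fst (Poly.fst Poly.id))
  have hw' : Poly (fun x : (α × ℕ) × ℕ => w x.1.1) := hw.comp (Poly.fst (Poly.fst Poly.id))
  have hq : UPoly (fun x : (α × ℕ) × ℕ => min x.1.2 (L x.1.1)) :=
    UPoly.of_le (Poly.min (Poly.snd (Poly.fst Poly.id)) hL'.toPoly) hL' fun x => min_le_right _ _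
  have ha : UPoly (fun x : (α × ℕ) × ℕ => min x.2 (n x.1.1)) :=
    UPoly.of_le (Poly.min (Poly.snd Poly.id) hn'.toPoly) hn' fun x => min_le_right _ _
  have he := poly_strip hq.toPoly hn' (Poly.sub hp' (Poly.const 1))
  exact poly_bits1 c hp' hq ha (poly_vpow c hp' he hu') (poly_vpow c hp' he hw')

theorem poly_tests (c : List ℤ) {p n L H : α → ℕ} (hp : Poly p) (hn : UPoly n) (hL : UPoly L)
    (hH : UPoly H) : Poly (fun x => tests c (p x) (n x) (L x) (H x)) := by
  have hS : Poly (fun x => cube c.length (smallC (p x) (H x))) := poly_cube _ (poly_smallC hp hH)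
  refine Poly.flatMap (l := fun x => cube c.length (smallC (p x) (H x))) (F := fun x u =>
    (cube c.length (smallC (p x) (H x))).flatMap fun w => tests2 c (p x) (n x) (L x) u w) hS ?_
  refine Poly.flatMap (l := fun y : α × List ℕ => cube c.length (smallC (p y.1) (H y.1)))
    (F := fun y w => tests2 c (p y.1) (n y.1) (L y.1) y.2 w) (hS.comp (Poly.fst Poly.id)) ?_
  exact poly_tests2 c (hp.comp (Poly.fst (Poly.fst Poly.id)))
    (hn.comp (Poly.fst (Poly.fst Poly.id))) (hL.comp (Poly.fst (Poly.fst Poly.id)))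
    (Poly.snd (Poly.fst Poly.id)) (Poly.snd Poly.id)

theorem poly_powc {p : α → ℕ} (hp : Poly p) (m : ℕ) : Poly (fun x => p x ^ m) := by
  induction m with
  | zero => exact (Poly.const 1).congr fun _ => (pow_zero _).symm
  | succ m ih => exact (Poly.mul ih hp).congr fun _ => (pow_succ _ _).symm

theorem poly_bigpow (c : List ℤ) {p : α → ℕ} (hp : Poly p) (m : ℕ) {y : α → List ℕ}
    (hy : Poly y) : Poly (fun x => bigpow c (p x) m (y x)) := by
  induction m with
  | zero => exact hy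
  | succ m ih => exact poly_vpow c hp (Poly.sub (poly_powc hp _) (Poly.const 1)) ih

theorem poly_xv (c : List ℤ) {p : α → ℕ} (hp : Poly p) : Poly (fun x => xv c (p x)) :=
  poly_xmul c hp (poly_vone _ hp)

theorem poly_spl (c : List ℤ) {p : α → ℕ} (hp : Poly p) : Poly (fun x => spl c (p x)) :=
  poly_compl c hp (poly_bigpow c hp _ (poly_vadd _ hp (poly_vpow c hp hp (poly_xv c hp))
    (poly_vsmul _ hp (Poly.sub hp (Poly.const 1)) (poly_xv c hp))))

theorem poly_lits (c : List ℤ) {p n L H : α → ℕ} (hp : Poly p) (hn : UPoly n) (hL : UPoly L)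
    (hH : UPoly H) : Poly (fun x => lits c (p x) (n x) (L x) (H x)) := by
  have h := poly_tests c hp hn hL hH
  refine Poly.cons (poly_spl c hp) (Poly.append h (Poly.map
    (l := fun x => tests c (p x) (n x) (L x) (H x)) (F := fun x y => compl c (p x) y) h
    (poly_compl c (hp.comp (Poly.fst Poly.id)) (Poly.snd Poly.id))))

theorem poly_prods (c : List ℤ) {p : α → ℕ} (hp : Poly p) {l : α → List (List ℕ)} (hl : Poly l)
    (m : ℕ) : Poly (fun x => prods c (p x) (l x) m) := by
  induction m with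
  | zero => exact Poly.cons (poly_vone _ hp) (Poly.const [])
  | succ m ih =>
    refine Poly.flatMap (l := l) (F := fun x y => (prods c (p x) (l x) m).map
      fun t => vmul c (p x) y t) hl ?_
    refine Poly.map (l := fun y : α × List ℕ => prods c (p y.1) (l y.1) m)
      (F := fun y t => vmul c (p y.1) y.2 t) (ih.comp (Poly.fst Poly.id)) ?_
    exact poly_vmul c (hp.comp (Poly.fst (Poly.fst Poly.id))) (Poly.snd (Poly.fst Poly.id))
      (Poly.snd Poly.id)

theorem poly_extr (c : List ℤ) {p : α → ℕ} (hp : Poly p) {t : α → List ℕ} (ht : Poly t) :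
    Poly (fun x => extr c (p x) (t x)) := by
  refine Poly.map (l := fun _ => List.range c.length) (F := fun x i =>
    md (p x) ((xmul c (p x) (t x)).getD i 0 * pw (p x) ((t x).getD i 0) (p x - 2)))
    (Poly.const _) ?_
  have hp' : Poly (fun x : α × ℕ => p x.1) := hp.comp (Poly.fst Poly.id)
  have ht' : Poly (fun x : α × ℕ => t x.1) := ht.comp (Poly.fst Poly.id)
  exact poly_md hp' (Poly.mul (poly_entry (poly_xmul c hp' ht') (Poly.snd Poly.id))
    (poly_pw hp' (poly_entry ht' (Poly.snd Poly.id)) (Poly.sub hp' (Poly.const 2))))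

theorem poly_rlist (c : List ℤ) {p n L H : α → ℕ} (hp : Poly p) (hn : UPoly n) (hL : UPoly L)
    (hH : UPoly H) : Poly (fun x => rlist c (p x) (n x) (L x) (H x)) := by
  refine Poly.flatMap (l := fun x => prods c (p x) (lits c (p x) (n x) (L x) (H x)) c.length)
    (F := fun x t => extr c (p x) t) (poly_prods c hp (poly_lits c hp hn hL hH) _) ?_
  exact poly_extr c (hp.comp (Poly.fst Poly.id)) (Poly.snd Poly.id)

end Pool.Agent.NPC.H303
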