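import Mathlib

/-!
# Discrete logarithms at two points with the same digit tests
-/

set_option autoImplicit false

namespace Pool.Agent.Helper303_RF

open Finset

variable {κ : Type} [Field κ]

/-- the test for the digit `d` -/
def bitK (N q j : ℕ) (ζ w : κ) (d : ℕ) : κ := 1 - (w ^ (q ^ j) - ζ ^ d) ^ N

/-- the next remainder -/
def stepK (N q j : ℕ) (ζ us w : κ) : κ :=
  ∑ d ∈ range q, bitK N q j ζ w d * (w * us ^ (N - d))

/-- the remainder after `s` digits -/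
def rmdK (N q a : ℕ) (ζ u w : κ) : ℕ → κ
  | 0 => w
  | s + 1 => stepK N q (a - 1 - s) ζ (u ^ (q ^ s)) (rmdK N q a ζ u w s)

theorem bitK_one {N : ℕ} (hN : 0 < N) {q j d : ℕ} {ζ w : κ} (h : w ^ (q ^ j) = ζ ^ d) :
    bitK N q j ζ w d = 1 := by
  unfold bitK
  rw [h, sub_self, zero_pow hN.ne', sub_zero]

theorem bitK_zero {N : ℕ} (hN1 : ∀ x : κ, x ≠ 0 → x ^ N = 1) {q j d : ℕ} {ζ w : κ}
    (h : w ^ (q ^ j) ≠ ζ ^ d) : bitK N q j ζ w d = 0 := by
  unfold bitK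
  rw [hN1 _ (sub_ne_zero.2 h), sub_self]

theorem bitK_eq_iff {N : ℕ} (hN : 0 < N) (hN1 : ∀ x : κ, x ≠ 0 → x ^ N = 1) {q j d : ℕ}
    {ζ w : κ} : bitK N q j ζ w d = 1 ↔ w ^ (q ^ j) = ζ ^ d := by
  constructor
  · intro h
    by_contra hne
    rw [bitK_zero hN1 hne] at h
    exact zero_ne_one h
  · exact bitK_one hN

/-- a step with exactly one matching digit -/
theorem stepK_eq {N : ℕ} (hN : 0 < N) (hN1 : ∀ x : κ, x ≠ 0 → x ^ N = 1) {q j d : ℕ}
    (hd : d < q) {ζ us w : κ} (h : ∀ d' < q, bitK N q j ζ w d' = if d' = d then 1 else 0) :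
    stepK N q j ζ us w = w * us ^ (N - d) := by
  unfold stepK
  rw [sum_eq_single d]
  · rw [h d hd, if_pos rfl, one_mul]
  · intro b hb hne
    rw [h b (mem_range.1 hb), if_neg hne, zero_mul]
  · intro h
    exact absurd (mem_range.2 hd) h

/-- Two points at which all the digit tests agree have the same logarithm. -/
theorem dlog {N : ℕ} (hN1 : ∀ x : κ, x ≠ 0 → x ^ N = 1) {q a : ℕ}
    (hqN : q ≤ N) (ha : 0 < a) {u w u' w' : κ} (hu : u ≠ 0) (hu' : u' ≠ 0)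
    (hζ : IsPrimitiveRoot (u ^ (q ^ (a - 1))) q) (hq : 0 < q) (hwa : w ^ (q ^ a) = 1)
    (hb : ∀ s < a, ∀ d < q,
      bitK N q (a - 1 - s) (u ^ (q ^ (a - 1))) (rmdK N q a (u ^ (q ^ (a - 1))) u w s) d =
      bitK N q (a - 1 - s) (u' ^ (q ^ (a - 1))) (rmdK N q a (u' ^ (q ^ (a - 1))) u' w' s) d) :
    ∃ K : ℕ, w = u ^ K ∧ w' = u' ^ K := by
  have hN : 0 < N := by omega
  set ζ := u ^ (q ^ (a - 1)) with hζd
  set ζ' := u' ^ (q ^ (a - 1)) with hζd'
  set W := rmdK N q a ζ u w with hW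
  set W' := rmdK N q a ζ' u' w' with hW'
  -- the digit at step `s`
  have hdig : ∀ s < a, W s ^ (q ^ (a - s)) = 1 → ∃ d < q, W s ^ (q ^ (a - 1 - s)) = ζ ^ d ∧
      W' s ^ (q ^ (a - 1 - s)) = ζ' ^ d ∧
      W (s + 1) = W s * (u ^ (q ^ s)) ^ (N - d) ∧ W' (s + 1) = W' s * (u' ^ (q ^ s)) ^ (N - d) := by
    intro s hs h1
    have h2 : (W s ^ (q ^ (a - 1 - s))) ^ q = 1 := by
      rw [← pow_mul, ← pow_succ]
      rwa [show a - 1 - s + 1 = a - s by omega]
    haveI : NeZero q := ⟨hq.ne'⟩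
    obtain ⟨d, hd, hd2⟩ := hζ.eq_pow_of_pow_eq_one h2
    have h3 : ∀ d' < q, bitK N q (a - 1 - s) ζ (W s) d' = if d' = d then 1 else 0 := by
      intro d' hd'
      split_ifs with h
      · rw [h]
        exact bitK_one hN hd2.symm
      · apply bitK_zero hN1
        rw [← hd2]
        intro h4
        exact h (hζ.pow_inj hd' hd h4.symm)
    have h4 : ∀ d' < q, bitK N q (a - 1 - s) ζ' (W' s) d' = if d' = d then 1 else 0 := by
      intro d' hd'
      rw [← hb s hs d' hd', h3 d' hd']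
    refine ⟨d, hd, hd2.symm, ?_, stepK_eq hN hN1 hd h3, stepK_eq hN hN1 hd h4⟩
    have h5 := h4 d hd
    rw [if_pos rfl] at h5
    exact (bitK_eq_iff hN hN1).1 h5
  have hcancel : ∀ (x : κ), x ≠ 0 → ∀ d < q, x ^ (N - d) * x ^ d = 1 := by
    intro x hx d hd
    rw [← pow_add, Nat.sub_add_cancel (by omega), hN1 x hx]
  have hζ0 : ζ ≠ 0 := pow_ne_zero _ hu
  have hζ0' : ζ' ≠ 0 := pow_ne_zero _ hu'
  have key : ∀ s ≤ a, ∃ K : ℕ, W s * u ^ K = w ∧ W' s * u' ^ K = w' ∧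
      W s ^ (q ^ (a - s)) = 1 := by
    intro s
    induction s with
    | zero =>
      intro _
      exact ⟨0, by simp [hW, rmdK], by simp [hW', rmdK], by simpa [hW, rmdK] using hwa⟩
    | succ s ih =>
      intro hs
      obtain ⟨K, hK1, hK2, hK3⟩ := ih (by omega)
      obtain ⟨d, hd, hd1, hd2, hd3, hd4⟩ := hdig s (by omega) hK3
      refine ⟨K + q ^ s * d, ?_, ?_, ?_⟩
      · rw [hd3, pow_add, pow_mul]
        calc W s * (u ^ q ^ s) ^ (N - d) * (u ^ K * (u ^ q ^ s) ^ d) =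
            (W s * u ^ K) * ((u ^ q ^ s) ^ (N - d) * (u ^ q ^ s) ^ d) := by ring
          _ = w := by rw [hcancel _ (pow_ne_zero _ hu) d hd, mul_one, hK1]
      · rw [hd4, pow_add, pow_mul]
        calc W' s * (u' ^ q ^ s) ^ (N - d) * (u' ^ K * (u' ^ q ^ s) ^ d) =
            (W' s * u' ^ K) * ((u' ^ q ^ s) ^ (N - d) * (u' ^ q ^ s) ^ d) := by ring
          _ = w' := by rw [hcancel _ (pow_ne_zero _ hu') d hd, mul_one, hK2]
      · rw [show a - (s + 1) = a - 1 - s by omega, hd3, mul_pow, hd1]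
        have h1 : ((u ^ q ^ s) ^ (N - d)) ^ q ^ (a - 1 - s) = ζ ^ (N - d) := by
          rw [hζd, ← pow_mul, ← pow_mul, ← pow_mul]
          congr 1
          have h2 : q ^ (a - 1) = q ^ s * q ^ (a - 1 - s) := by
            rw [← pow_add]
            congr 1
            omega
          rw [h2]
          ring
        rw [h1, mul_comm]
        exact hcancel ζ hζ0 d hd
  obtain ⟨K, hK1, hK2, hK3⟩ := key (a - 1) (by omega)
  obtain ⟨d, hd, hd1, hd2, hd3, hd4⟩ := hdig (a - 1) (by omega) hK3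
  rw [Nat.sub_self, pow_zero, pow_one] at hd1 hd2
  refine ⟨q ^ (a - 1) * d + K, ?_, ?_⟩
  · rw [pow_add, pow_mul, ← hζd, ← hd1, hK1]
  · rw [pow_add, pow_mul, ← hζd', ← hd2, hK2]

end Pool.Agent.Helper303_RF
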