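import Mathlib
import Pool.Agent.Helper303_RF.Alg
import Pool.Agent.Helper303_RF.Dlog

/-!
# The values of the tests at the roots
-/

set_option autoImplicit false

namespace Pool.Agent.Helper303_RF

open Pool.Agent.NPC
open Pool.Agent.H595R2.PR (md pw strip)

section ring

variable {κ : Type} [CommRing κ] {p : ℕ} [Fact p.Prime] [CharP κ p]

theorem cast_pm1 : ((p - 1 : ℕ) : κ) = -1 := by
  have hp : p.Prime := Fact.out
  rw [Nat.cast_sub hp.one_lt.le, CharP.cast_eq_zero κ p]
  simp

theorem ev_compl {c : List ℤ} (hc : 0 < c.length) (z : κ) (y : List ℕ) :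
    ev c.length z (compl c p y) = 1 - ev c.length z y := by
  unfold compl
  rw [ev_vadd, ev_vone hc, ev_vsmul, cast_pm1]
  ring

theorem ev_ind {c : List ℤ} (hc : 0 < c.length) {z : κ} (hz : IsRt c z) (y : List ℕ) :
    ev c.length z (ind c p y) = 1 - ev c.length z y ^ (p - 1) := by
  unfold ind
  rw [ev_compl hc, ev_vpow hc hz]

theorem ev_itq {c : List ℤ} (hc : 0 < c.length) {z : κ} (hz : IsRt c z) (q : ℕ) (x : List ℕ) :
    ∀ j, ev c.length z (itq c p q j x) = ev c.length z x ^ (q ^ j) := by
  intro j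
  induction j with
  | zero => simp [itq]
  | succ j ih =>
    unfold itq at *
    rw [Function.iterate_succ_apply', ev_vpow hc hz, ih, ← pow_mul, ← pow_succ]

theorem ev_bit' {c : List ℤ} (hc : 0 < c.length) {z : κ} (hz : IsRt c z) (q j : ℕ)
    (ζ w : List ℕ) (d : ℕ) :
    ev c.length z (bit c p q j ζ w d) =
      1 - (ev c.length z w ^ (q ^ j) - ev c.length z ζ ^ d) ^ (p - 1) := by
  unfold bit
  rw [ev_ind hc hz, ev_vadd, ev_vsmul, ev_itq hc hz, ev_vpow hc hz, cast_pm1]
  congr 2
  ring

end ring

section field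

variable {κ : Type} [Field κ] {p : ℕ} [Fact p.Prime] [CharP κ p]

theorem ev_bit {c : List ℤ} (hc : 0 < c.length) {z : κ} (hz : IsRt c z) (q j : ℕ)
    (ζ w : List ℕ) (d : ℕ) :
    ev c.length z (bit c p q j ζ w d) =
      bitK (p - 1) q j (ev c.length z ζ) (ev c.length z w) d := ev_bit' hc hz q j ζ w d

theorem ev_stepW {c : List ℤ} (hc : 0 < c.length) {z : κ} (hz : IsRt c z) (q j : ℕ)
    (ζ us w : List ℕ) :
    ev c.length z (stepW c p q j ζ us w) =
      stepK (p - 1) q j (ev c.length z ζ) (ev c.length z us) (ev c.length z w) := by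
  unfold stepW stepK
  have key : ∀ m : ℕ, ev c.length z ((List.range m).foldl (fun acc d => vadd c.length p acc
    (vmul c p (bit c p q j ζ w d) (vmul c p w (vpow c p us (p - 1 - d))))) (vzero c.length p)) =
      ∑ d ∈ Finset.range m, bitK (p - 1) q j (ev c.length z ζ) (ev c.length z w) d *
        (ev c.length z w * ev c.length z us ^ (p - 1 - d)) := by
    intro m
    induction m with
    | zero => simp [ev_vzero]
    | succ m ih =>
      rw [List.range_succ, List.foldl_append, List.foldl_cons, List.foldl_nil, ev_vadd, ih,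
        Finset.sum_range_succ, ev_vmul hc hz, ev_vmul hc hz, ev_vpow hc hz, ev_bit hc hz]
  exact key q

theorem ev_rmd {c : List ℤ} (hc : 0 < c.length) {z : κ} (hz : IsRt c z) (q a : ℕ)
    (ζ u w : List ℕ) : ∀ s ≤ a, ev c.length z (rmd c p q a ζ u w s) =
      rmdK (p - 1) q a (ev c.length z ζ) (ev c.length z u) (ev c.length z w) s := by
  intro s
  induction s with
  | zero => intro _; simp [rmd, rmdK]
  | succ s ih =>
    intro hs
    unfold rmd at *
    rw [List.range_succ, List.foldl_append, List.foldl_cons, List.foldl_nil, ev_stepW hc hz,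
      ih (by omega), ev_itq hc hz, rmdK, min_eq_left (by omega)]

end field

end Pool.Agent.Helper303_RF
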