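import Mathlib
import Pool.Agent.Helper303_RF.Ev

/-!
# The group generated by the small elements at two roots with the same tests
-/

set_option autoImplicit false

namespace Pool.Agent.Helper303_RF

open Pool.Agent.NPC
open Pool.Agent.H595R2.PR (md pw strip)

/-- no test distinguishes `r` from `r'` -/
def Unsep (c : List ℤ) (p n L H : ℕ) (r r' : ZMod p) : Prop :=
  ∀ τ ∈ tests c p n L H, ev c.length r τ = ev c.length r' τ

/-- the group generated by the values of the small elements -/
def GG (c : List ℤ) (p H : ℕ) (r r' : ZMod p) : Subgroup ((ZMod p)ˣ × (ZMod p)ˣ) :=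
  Subgroup.closure {g | ∃ α ∈ cube c.length (smallC p H),
    (g.1 : ZMod p) = ev c.length r α ∧ (g.2 : ZMod p) = ev c.length r' α}

theorem mem_tests {c : List ℤ} {p n L H : ℕ} {α β : List ℕ}
    (hα : α ∈ cube c.length (smallC p H)) (hβ : β ∈ cube c.length (smallC p H)) {q a s d : ℕ}
    (hq : q ≤ L) (ha : a ≤ n) (hs : s < a) (hd : d < q) :
    bit c p q (a - 1 - s) (itq c p q (a - 1) (vpow c p α (strip q n (p - 1))))
      (rmd c p q a (itq c p q (a - 1) (vpow c p α (strip q n (p - 1))))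
        (vpow c p α (strip q n (p - 1))) (vpow c p β (strip q n (p - 1))) s) d ∈
      tests c p n L H := by
  unfold tests
  refine List.mem_flatMap.2 ⟨α, hα, List.mem_flatMap.2 ⟨β, hβ, ?_⟩⟩
  unfold tests2
  refine List.mem_flatMap.2 ⟨q, List.mem_range.2 (by omega), List.mem_flatMap.2
    ⟨a, List.mem_range.2 (by omega), ?_⟩⟩
  rw [min_eq_left hq, min_eq_left ha]
  unfold bits1
  refine List.mem_flatMap.2 ⟨s, List.mem_range.2 hs, List.mem_map.2 ⟨d, List.mem_range.2 hd, ?_⟩⟩
  rw [min_eq_left hs.le]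

section

variable {c : List ℤ} {p n L H : ℕ} [Fact p.Prime]

theorem pow_pm1 (x : ZMod p) (hx : x ≠ 0) : x ^ (p - 1) = 1 := ZMod.pow_card_sub_one_eq_one hx

/-- the digit tests agree -/
theorem unsep_bits (hc : 0 < c.length) {r r' : ZMod p} (hr : IsRt c r) (hr' : IsRt c r')
    (hU : Unsep c p n L H r r') {α β : List ℕ}
    (hα : α ∈ cube c.length (smallC p H)) (hβ : β ∈ cube c.length (smallC p H)) {q a s d : ℕ}
    (hq : q ≤ L) (ha : a ≤ n) (hs : s < a) (hd : d < q) :
    bitK (p - 1) q (a - 1 - s) ((ev c.length r α ^ strip q n (p - 1)) ^ (q ^ (a - 1)))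
      (rmdK (p - 1) q a ((ev c.length r α ^ strip q n (p - 1)) ^ (q ^ (a - 1)))
        (ev c.length r α ^ strip q n (p - 1)) (ev c.length r β ^ strip q n (p - 1)) s) d =
    bitK (p - 1) q (a - 1 - s) ((ev c.length r' α ^ strip q n (p - 1)) ^ (q ^ (a - 1)))
      (rmdK (p - 1) q a ((ev c.length r' α ^ strip q n (p - 1)) ^ (q ^ (a - 1)))
        (ev c.length r' α ^ strip q n (p - 1)) (ev c.length r' β ^ strip q n (p - 1)) s) d := by
  have h := hU _ (mem_tests hα hβ hq ha hs hd)
  rw [ev_bit hc hr, ev_bit hc hr', ev_rmd hc hr _ _ _ _ _ _ hs.le, ev_rmd hc hr' _ _ _ _ _ _ hs.le,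
    ev_itq hc hr, ev_itq hc hr', ev_vpow hc hr, ev_vpow hc hr', ev_vpow hc hr, ev_vpow hc hr'] at h
  exact h

/-- the order tests agree -/
theorem unsep_ord (hc : 0 < c.length) {r r' : ZMod p} (hr : IsRt c r) (hr' : IsRt c r')
    (hU : Unsep c p n L H r r') {β : List ℕ} (hβ : β ∈ cube c.length (smallC p H)) {q j : ℕ}
    (hq : q ≤ L) (hq0 : 0 < q) (hj : j < n) :
    (ev c.length r β ^ strip q n (p - 1)) ^ (q ^ j) = 1 ↔
      (ev c.length r' β ^ strip q n (p - 1)) ^ (q ^ j) = 1 := by
  have hp : p.Prime := Fact.out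
  have h := unsep_bits hc hr hr' hU hβ hβ (a := j + 1) (s := 0) (d := 0) hq (by omega)
    (by omega) hq0
  simp only [rmdK] at h
  rw [show j + 1 - 1 - 0 = j by omega] at h
  have hN : 0 < p - 1 := by have := hp.two_le; omega
  have h1 := bitK_eq_iff (κ := ZMod p) hN pow_pm1 (q := q) (j := j) (d := 0)
    (ζ := (ev c.length r β ^ strip q n (p - 1)) ^ (q ^ (j + 1 - 1)))
    (w := ev c.length r β ^ strip q n (p - 1))
  have h2 := bitK_eq_iff (κ := ZMod p) hN pow_pm1 (q := q) (j := j) (d := 0)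
    (ζ := (ev c.length r' β ^ strip q n (p - 1)) ^ (q ^ (j + 1 - 1)))
    (w := ev c.length r' β ^ strip q n (p - 1))
  rw [pow_zero] at h1 h2
  rw [← h1, ← h2, h]

/-- the zeros agree -/
theorem unsep_zero (hc : 0 < c.length) {r r' : ZMod p} (hr : IsRt c r) (hr' : IsRt c r')
    (hU : Unsep c p n L H r r') (hL : 2 ≤ L) (hn : p < 2 ^ n) {β : List ℕ}
    (hβ : β ∈ cube c.length (smallC p H)) :
    ev c.length r β = 0 ↔ ev c.length r' β = 0 := by
  have hp : p.Prime := Fact.out
  have hN : 0 < p - 1 := by have := hp.two_le; omega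
  have hv : (p - 1).factorization 2 < n := by
    have h1 : 2 ^ (p - 1).factorization 2 ≤ p - 1 := Nat.le_of_dvd hN (Nat.ordProj_dvd _ 2)
    exact (Nat.pow_lt_pow_iff_right (by norm_num)).1 (lt_of_le_of_lt h1 (by omega))
  have h := unsep_ord hc hr hr' hU hβ (q := 2) hL (by norm_num) hv
  have ht : strip 2 n (p - 1) * 2 ^ (p - 1).factorization 2 = p - 1 := by
    rw [Pool.Agent.H595R2.PR.strip_eq Nat.prime_two hN (by omega)]
    exact Nat.div_mul_cancel (Nat.ordProj_dvd _ 2)
  rw [← pow_mul, ← pow_mul, ht] at h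
  have h3 : ∀ x : ZMod p, x = 0 ↔ ¬ x ^ (p - 1) = 1 := by
    intro x
    constructor
    · rintro rfl
      rw [zero_pow hN.ne']
      exact zero_ne_one
    · intro h
      by_contra hx
      exact h (pow_pm1 x hx)
  rw [h3, h3 (ev c.length r' β), h]

/-- elements of the group which are `1` at `r` have order prime to `q` at `r'` -/
theorem grp_q (hc : 0 < c.length) {r r' : ZMod p} (hr : IsRt c r) (hr' : IsRt c r')
    (hU : Unsep c p n L H r r') (hn : p < 2 ^ n) {q : ℕ} (hq : q.Prime)
    (hqN : q ∣ p - 1) (hqL : q ≤ L) {g : (ZMod p)ˣ × (ZMod p)ˣ} (hg : g ∈ GG c p H r r')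
    (h1 : g.1 = 1) : g.2 ^ ((p - 1) / q ^ (p - 1).factorization q) = 1 := by
  have hp : p.Prime := Fact.out
  have hN : 0 < p - 1 := by have := hp.two_le; omega
  have hL : 2 ≤ L := hq.two_le.trans hqL
  set v := (p - 1).factorization q with hv
  have hvn : v < n := by
    have h1 : 2 ^ v ≤ p - 1 := (Nat.pow_le_pow_left hq.two_le _).trans
      (Nat.le_of_dvd hN (Nat.ordProj_dvd _ q))
    exact (Nat.pow_lt_pow_iff_right (by norm_num)).1 (lt_of_le_of_lt h1 (by omega))
  have hst : strip q n (p - 1) = (p - 1) / q ^ v :=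
    Pool.Agent.H595R2.PR.strip_eq hq hN (by omega)
  set t := (p - 1) / q ^ v with ht
  have htv : t * q ^ v = p - 1 := Nat.div_mul_cancel (Nat.ordProj_dvd _ q)
  set A := cube c.length (smallC p H) with hA
  -- the exponent of the group of the values at `r`
  have hex : ∃ m, ∀ α ∈ A, ev c.length r α ≠ 0 → (ev c.length r α ^ t) ^ (q ^ m) = 1 := by
    refine ⟨v, fun α _ hα0 => ?_⟩
    rw [← pow_mul, htv]
    exact pow_pm1 _ hα0
  classical
  set m := Nat.find hex with hm
  have hmspec := Nat.find_spec hex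
  rw [← hm] at hmspec
  have hmv : m ≤ v := Nat.find_min' hex (fun α _ hα0 => by
    rw [← pow_mul, htv]
    exact pow_pm1 _ hα0)
  have hzero : ∀ β ∈ A, ev c.length r β = 0 ↔ ev c.length r' β = 0 := fun β hβ =>
    unsep_zero hc hr hr' hU hL hn hβ
  have hord : ∀ β ∈ A, ∀ j < n, ((ev c.length r β ^ t) ^ (q ^ j) = 1 ↔
      (ev c.length r' β ^ t) ^ (q ^ j) = 1) := by
    intro β hβ j hj
    have := unsep_ord hc hr hr' hU hβ hqL hq.pos hj
    rwa [hst] at this
  have hgen : ∃ U : (ZMod p)ˣ × (ZMod p)ˣ, (∀ k : ℤ, U.1 ^ k = 1 → U.2 ^ k = 1) ∧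
      GG c p H r r' ≤ (Subgroup.zpowers U).comap (powMonoidHom t) := by
    rcases Nat.eq_zero_or_pos m with hm0 | hm0
    · refine ⟨1, fun _ _ => by simp, ?_⟩
      unfold GG
      rw [Subgroup.closure_le]
      rintro ⟨g1, g2⟩ ⟨α, hα, hg1, hg2⟩
      simp only at hg1 hg2
      rw [hm0] at hmspec
      have e1 := hmspec α hα (by rw [← hg1]; exact g1.ne_zero)
      have e2 := (hord α hα 0 (by omega)).1 e1
      rw [pow_zero, pow_one, ← hg1] at e1
      rw [pow_zero, pow_one, ← hg2] at e2
      refine Subgroup.mem_zpowers_iff.2 ⟨0, ?_⟩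
      ext
      · simp [e1]
      · simp [e2]
    · obtain ⟨m', hm'⟩ : ∃ m', m = m' + 1 := ⟨m - 1, by omega⟩
      have hnot := Nat.find_min hex (m := m') (by rw [← hm]; omega)
      push Not at hnot
      obtain ⟨α0, hα0, hne, hne1⟩ := hnot
      set u := ev c.length r α0 ^ t with hu
      set u' := ev c.length r' α0 ^ t with hu'
      have hu0 : u ≠ 0 := pow_ne_zero _ hne
      have hne' : ev c.length r' α0 ≠ 0 := fun h => hne ((hzero α0 hα0).2 h)
      have hu0' : u' ≠ 0 := pow_ne_zero _ hne'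
      have hum : u ^ (q ^ m) = 1 := hmspec α0 hα0 hne
      have hum' : u' ^ (q ^ m) = 1 := (hord α0 hα0 m (by omega)).1 hum
      have hprim : IsPrimitiveRoot (u ^ (q ^ (m - 1))) q := by
        have e1 : (u ^ (q ^ (m - 1))) ^ q = 1 := by
          rw [← pow_mul, ← pow_succ, show m - 1 + 1 = m by omega]
          exact hum
        have e2 : u ^ (q ^ (m - 1)) ≠ 1 := by
          rw [show m - 1 = m' by omega]
          exact hne1
        have := Fact.mk hq
        have e3 := IsPrimitiveRoot.orderOf (u ^ (q ^ (m - 1)))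
        rwa [orderOf_eq_prime e1 e2] at e3
      refine ⟨(Units.mk0 u hu0, Units.mk0 u' hu0'), ?_, ?_⟩
      · intro k hk
        have := Fact.mk hq
        have hou : orderOf (Units.mk0 u hu0) = q ^ (m' + 1) := by
          apply orderOf_eq_prime_pow
          · intro h
            apply hne1
            have := congrArg Units.val h
            simpa using this
          · ext
            simp only [Units.val_pow_eq_pow_val, Units.val_mk0, Units.val_one]
            rw [← hm']
            exact hum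
        have h2 : ((q ^ (m' + 1) : ℕ) : ℤ) ∣ k := by
          rw [← hou]
          exact orderOf_dvd_iff_zpow_eq_one.2 hk
        have hou' : orderOf (Units.mk0 u' hu0') ∣ q ^ (m' + 1) := by
          apply orderOf_dvd_of_pow_eq_one
          ext
          simp only [Units.val_pow_eq_pow_val, Units.val_mk0, Units.val_one]
          rw [← hm']
          exact hum'
        exact orderOf_dvd_iff_zpow_eq_one.1 ((Int.natCast_dvd_natCast.2 hou').trans h2)
      · unfold GG
        rw [Subgroup.closure_le]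
        rintro ⟨g1, g2⟩ ⟨β, hβ, hg1, hg2⟩
        simp only at hg1 hg2
        have hβ0 : ev c.length r β ≠ 0 := by rw [← hg1]; exact g1.ne_zero
        have hb : ∀ s < m, ∀ d < q,
            bitK (p - 1) q (m - 1 - s) (u ^ (q ^ (m - 1)))
              (rmdK (p - 1) q m (u ^ (q ^ (m - 1))) u (ev c.length r β ^ t) s) d =
            bitK (p - 1) q (m - 1 - s) (u' ^ (q ^ (m - 1)))
              (rmdK (p - 1) q m (u' ^ (q ^ (m - 1))) u' (ev c.length r' β ^ t) s) d := by
          intro s hs d hd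
          have := unsep_bits hc hr hr' hU hα0 hβ (a := m) hqL (by omega) hs hd
          rwa [hst] at this
        obtain ⟨K, hK, hK'⟩ := dlog pow_pm1 (Nat.le_of_dvd hN hqN) hm0 hu0 hu0' hprim hq.pos
          (hmspec β hβ hβ0) hb
        refine Subgroup.mem_zpowers_iff.2 ⟨(K : ℤ), ?_⟩
        rw [zpow_natCast]
        ext
        · simp only [Prod.pow_fst, Units.val_pow_eq_pow_val, Units.val_mk0, powMonoidHom_apply]
          rw [hg1, ← hK]
        · simp only [Prod.pow_snd, Units.val_pow_eq_pow_val, Units.val_mk0, powMonoidHom_apply]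
          rw [hg2, ← hK']
  obtain ⟨U, hU1, hU2⟩ := hgen
  obtain ⟨k, hk⟩ := Subgroup.mem_zpowers_iff.1 (hU2 hg)
  rw [powMonoidHom_apply] at hk
  have e1 : U.1 ^ k = 1 := by
    have := congrArg Prod.fst hk
    simp only [Prod.pow_fst, h1, one_pow] at this
    exact this
  have e2 := congrArg Prod.snd hk
  simp only [Prod.pow_snd] at e2
  rw [← e2]
  exact hU1 k e1

/-- The group generated by the small elements is small. -/
theorem grp_card (hc : 0 < c.length) {r r' : ZMod p} (hr : IsRt c r) (hr' : IsRt c r')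
    (hU : Unsep c p n L H r r') (hn : p < 2 ^ n) {M : ℕ} (hM : M ∣ p - 1)
    (hML : ∀ q : ℕ, q.Prime → q ∣ M → q ≤ L) :
    Nat.card (GG c p H r r') * M ≤ (p - 1) ^ 2 := by
  have hp : p.Prime := Fact.out
  have hN : 0 < p - 1 := by have := hp.two_le; omega
  obtain ⟨t, ht⟩ := hM
  have hM0 : 0 < M := Nat.pos_of_ne_zero (by rintro rfl; omega)
  have ht0 : 0 < t := Nat.pos_of_ne_zero (by rintro rfl; omega)
  set G := GG c p H r r' with hG
  set f : G →* (ZMod p)ˣ := (MonoidHom.fst _ _).comp G.subtype with hf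
  have hcard : Nat.card (ZMod p)ˣ = p - 1 := by
    rw [Nat.card_eq_fintype_card, ZMod.card_units]
  have h1 : Nat.card G = Nat.card f.ker * Nat.card f.range := by
    rw [← Subgroup.index_ker, Subgroup.card_mul_index]
  have h2 : Nat.card f.range ≤ p - 1 := by
    rw [← hcard]
    exact Nat.card_le_card_of_injective _ Subtype.val_injective
  have hker : ∀ x : f.ker, (x : G).1.2 ^ t = 1 := by
    rintro ⟨⟨g, hg⟩, hx⟩
    have hg1 : g.1 = 1 := hx
    change g.2 ^ t = 1
    rw [← orderOf_dvd_iff_pow_eq_one]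
    have hoN : orderOf g.2 ∣ p - 1 := by
      rw [← hcard]
      exact orderOf_dvd_natCard _
    have hcop : Nat.Coprime (orderOf g.2) M := by
      apply Nat.coprime_of_dvd
      intro q hq hqo hqM
      have hqN : q ∣ p - 1 := hqo.trans hoN
      have h3 := grp_q hc hr hr' hU hn hq hqN (hML q hq hqM) hg hg1
      exact Nat.not_dvd_ordCompl hq hN.ne' (hqo.trans (orderOf_dvd_of_pow_eq_one h3))
    rw [ht] at hoN
    exact hcop.dvd_of_dvd_mul_left hoN
  have h3 : Nat.card f.ker ≤ t := by
    have : NeZero t := ⟨ht0.ne'⟩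
    have h4 : Nat.card f.ker ≤ Nat.card (rootsOfUnity t (ZMod p)) := by
      refine Nat.card_le_card_of_injective
        (fun x : f.ker => (⟨(x : G).1.2, (mem_rootsOfUnity _ _).2 (hker x)⟩ :
          rootsOfUnity t (ZMod p))) ?_
      rintro ⟨⟨g, hg⟩, hx⟩ ⟨⟨g', hg'⟩, hx'⟩ h
      have e1 : g.1 = 1 := hx
      have e2 : g'.1 = 1 := hx'
      have e3 : g.2 = g'.2 := congrArg (fun y : rootsOfUnity t (ZMod p) => (y : (ZMod p)ˣ)) h
      have : g = g' := Prod.ext (by rw [e1, e2]) e3
      subst this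
      rfl
    exact h4.trans (card_rootsOfUnity _ _)
  calc Nat.card G * M = Nat.card f.ker * Nat.card f.range * M := by rw [h1]
    _ ≤ t * (p - 1) * M := by gcongr
    _ = (p - 1) * (M * t) := by ring
    _ = (p - 1) ^ 2 := by rw [← ht]; ring

end

end Pool.Agent.Helper303_RF
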