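import Mathlib
import Pool.Agent.Helper303_RF.Group

/-!
# The list of candidates contains every root which is separated from the other roots
-/

set_option autoImplicit false

namespace Pool.Agent.Helper303_RF

open Pool.Agent.NPC
open Pool.Agent.H595R2.PR (md pw strip)

section ext

variable {p : ℕ} [Fact p.Prime] {Ω : Type} [Field Ω] [Algebra (ZMod p) Ω]

theorem isRt_map {c : List ℤ} {r : ZMod p} : IsRt c (algebraMap (ZMod p) Ω r) ↔ IsRt c r := by
  unfold IsRt
  have h : (algebraMap (ZMod p) Ω r) ^ c.length +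
      ∑ k ∈ Finset.range c.length, ((c.getD k 0 : ℤ) : Ω) * (algebraMap (ZMod p) Ω r) ^ k =
      algebraMap (ZMod p) Ω (r ^ c.length +
        ∑ k ∈ Finset.range c.length, ((c.getD k 0 : ℤ) : ZMod p) * r ^ k) := by
    simp
  rw [h, map_eq_zero_iff _ (algebraMap (ZMod p) Ω).injective]

theorem ev_map (n : ℕ) (r : ZMod p) (x : List ℕ) :
    ev n (algebraMap (ZMod p) Ω r) x = algebraMap (ZMod p) Ω (ev n r x) := by
  unfold ev
  simp

end ext

theorem tests_val {c : List ℤ} {p n L H : ℕ} [Fact p.Prime] (hc : 0 < c.length) {r : ZMod p}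
    (hr : IsRt c r) {τ : List ℕ} (hτ : τ ∈ tests c p n L H) :
    ev c.length r τ = 0 ∨ ev c.length r τ = 1 := by
  have hp : p.Prime := Fact.out
  have hN : 0 < p - 1 := by have := hp.two_le; omega
  unfold tests at hτ
  obtain ⟨α, -, hτ⟩ := List.mem_flatMap.1 hτ
  obtain ⟨β, -, hτ⟩ := List.mem_flatMap.1 hτ
  unfold tests2 at hτ
  obtain ⟨q, -, hτ⟩ := List.mem_flatMap.1 hτ
  obtain ⟨a, -, hτ⟩ := List.mem_flatMap.1 hτ
  unfold bits1 at hτ
  obtain ⟨s, -, hτ⟩ := List.mem_flatMap.1 hτ
  obtain ⟨d, -, hτ⟩ := List.mem_map.1 hτ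
  rw [← hτ, ev_bit' hc hr]
  rcases eq_or_ne (ev c.length r (rmd c p (min q L) (min a n)
    (itq c p (min q L) (min a n - 1) (vpow c p α (strip (min q L) n (p - 1))))
      (vpow c p α (strip (min q L) n (p - 1))) (vpow c p β (strip (min q L) n (p - 1)))
        (min s (min a n))) ^ (min q L) ^ (min a n - 1 - s) -
    ev c.length r (itq c p (min q L) (min a n - 1) (vpow c p α (strip (min q L) n (p - 1)))) ^ d)
    0 with h | h
  · right
    rw [h, zero_pow hN.ne', sub_zero]
  · left
    rw [pow_pm1 _ h, sub_self]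

section spl

variable {Ω : Type} [Field Ω] {p : ℕ} [Fact p.Prime] [CharP Ω p]

theorem ev_bigpow {c : List ℤ} (hc : 0 < c.length) {z : Ω} (hz : IsRt c z) (y : List ℕ) :
    ∀ m, ev c.length z (bigpow c p m y) =
      ev c.length z y ^ (∏ i ∈ Finset.range m, (p ^ (i + 1) - 1)) := by
  intro m
  induction m with
  | zero => simp [bigpow]
  | succ m ih =>
    rw [bigpow, ev_vpow hc hz, ih, ← pow_mul, Finset.prod_range_succ]

theorem ev_xv {c : List ℤ} (hc : 0 < c.length) {z : Ω} (hz : IsRt c z) :
    ev c.length z (xv c p) = z := by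
  unfold xv
  rw [ev_xmul hc hz, ev_vone hc, mul_one]

theorem ev_spl {c : List ℤ} (hc : 0 < c.length) {z : Ω} (hz : IsRt c z) :
    ev c.length z (spl c p) =
      1 - (z ^ p - z) ^ (∏ i ∈ Finset.range c.length, (p ^ (i + 1) - 1)) := by
  unfold spl
  rw [ev_compl hc, ev_bigpow hc hz, ev_vadd, ev_vsmul, ev_vpow hc hz, ev_xv hc hz, cast_pm1]
  congr 2
  ring

theorem ev_spl_one {c : List ℤ} (hc : 0 < c.length) {z : Ω} (hz : IsRt c z) (h : z ^ p = z) :
    ev c.length z (spl c p) = 1 := by
  have hp : p.Prime := Fact.out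
  rw [ev_spl hc hz, h, sub_self, zero_pow, sub_zero]
  rw [Finset.prod_ne_zero_iff]
  intro i _
  have : 1 < p ^ (i + 1) := Nat.one_lt_pow (by omega) hp.one_lt
  omega

theorem ev_spl_zero {c : List ℤ} (hc : 0 < c.length) {z : Ω} (hz : IsRt c z) (h : z ^ p ≠ z)
    {m : ℕ} (hm : 0 < m) (hmc : m ≤ c.length) (hzm : z ^ (p ^ m) = z) :
    ev c.length z (spl c p) = 0 := by
  have hp : p.Prime := Fact.out
  rw [ev_spl hc hz]
  have h0 : z ^ p - z ≠ 0 := sub_ne_zero.2 h
  have h1 : (z ^ p - z) ^ (p ^ m) = z ^ p - z := by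
    rw [sub_pow_char_pow, ← pow_mul, mul_comm, pow_mul, hzm]
  have h2 : (z ^ p - z) ^ (p ^ m - 1) = 1 := by
    have h3 : (z ^ p - z) ^ (p ^ m - 1) * (z ^ p - z) = 1 * (z ^ p - z) := by
      rw [← pow_succ, one_mul, Nat.sub_add_cancel (Nat.one_le_pow _ _ hp.pos), h1]
    exact mul_right_cancel₀ h0 h3
  have h4 : p ^ m - 1 ∣ ∏ i ∈ Finset.range c.length, (p ^ (i + 1) - 1) := by
    have h5 := Finset.dvd_prod_of_mem (fun i => p ^ (i + 1) - 1)
      (Finset.mem_range.2 (by omega : m - 1 < c.length))
    simpa only [Nat.sub_add_cancel hm] using h5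
  obtain ⟨k, hk⟩ := h4
  rw [hk, pow_mul, h2, one_pow, sub_self]

end spl

theorem mem_prods (c : List ℤ) (p : ℕ) (l : List (List ℕ)) :
    ∀ ys : List (List ℕ), (∀ y ∈ ys, y ∈ l) →
      ys.foldr (vmul c p) (vone c.length p) ∈ prods c p l ys.length := by
  intro ys
  induction ys with
  | nil => intro _; simp [prods]
  | cons y ys ih =>
    intro h
    rw [List.length_cons, prods, List.foldr_cons]
    exact List.mem_flatMap.2 ⟨y, h y (List.mem_cons_self ..), List.mem_map.2 ⟨_,
      ih (fun z hz => h z (List.mem_cons_of_mem _ hz)), rfl⟩⟩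

theorem ev_foldr {Ω : Type} [Field Ω] {p : ℕ} [Fact p.Prime] [CharP Ω p] {c : List ℤ}
    (hc : 0 < c.length) {z : Ω} (hz : IsRt c z) : ∀ ys : List (List ℕ),
    ev c.length z (ys.foldr (vmul c p) (vone c.length p)) = (ys.map (ev c.length z)).prod := by
  intro ys
  induction ys with
  | nil => simp [ev_vone hc]
  | cons y ys ih => rw [List.foldr_cons, ev_vmul hc hz, ih, List.map_cons, List.prod_cons]

/-- vectors with the same values at `n` points have the same entries -/
theorem coef_eq {Ω : Type} [Field Ω] {n : ℕ} (Z : Finset Ω) (hZ : Z.card = n) (a b : ℕ → Ω)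
    (h : ∀ z ∈ Z, ∑ k ∈ Finset.range n, a k * z ^ k = ∑ k ∈ Finset.range n, b k * z ^ k) :
    ∀ k < n, a k = b k := by
  set P : Polynomial Ω := ∑ k ∈ Finset.range n, Polynomial.C (a k - b k) * Polynomial.X ^ k
    with hP
  have hdeg : P.degree < Z.card := by
    rw [hZ, Polynomial.degree_lt_iff_coeff_zero]
    intro m hm
    rw [hP, Polynomial.finsetSum_coeff]
    refine Finset.sum_eq_zero fun k hk => ?_
    rw [Polynomial.coeff_C_mul_X_pow, if_neg]
    have := Finset.mem_range.1 hk
    omega
  have h0 : P = 0 := by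
    apply Polynomial.eq_zero_of_degree_lt_of_eval_finset_eq_zero Z hdeg
    intro z hz
    rw [hP, Polynomial.eval_finsetSum]
    simp only [Polynomial.eval_mul, Polynomial.eval_C, Polynomial.eval_pow, Polynomial.eval_X,
      sub_mul, Finset.sum_sub_distrib]
    rw [h z hz, sub_self]
  intro k hk
  have h1 : P.coeff k = a k - b k := by
    rw [hP, Polynomial.finsetSum_coeff]
    simp only [Polynomial.coeff_C_mul_X_pow]
    rw [Finset.sum_eq_single k]
    · simp
    · intro j _ hj
      rw [if_neg (Ne.symm hj)]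
    · intro h
      exact absurd (Finset.mem_range.2 hk) h
  rw [h0, Polynomial.coeff_zero] at h1
  exact (sub_eq_zero.1 h1.symm)

/-- The list of candidates contains every root which is separated from the other roots. -/
theorem rlist_correct {c : List ℤ} {p n L H : ℕ} [Fact p.Prime] (hc : 0 < c.length)
    (Ω : Type) [Field Ω] [Algebra (ZMod p) Ω] (Z : Finset Ω)
    (hZ : Z.card = c.length) (hZr : ∀ z ∈ Z, IsRt c z)
    (hZf : ∀ z ∈ Z, ∃ m, 0 < m ∧ m ≤ c.length ∧ z ^ (p ^ m) = z)
    {r : ZMod p} (hr : algebraMap (ZMod p) Ω r ∈ Z)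
    (hsep : ∀ r' : ZMod p, algebraMap (ZMod p) Ω r' ∈ Z → r' ≠ r → ¬ Unsep c p n L H r r') :
    r.val ∈ rlist c p n L H := by
  classical
  have hp : p.Prime := Fact.out
  have : CharP Ω p := charP_of_injective_algebraMap (algebraMap (ZMod p) Ω).injective p
  set am := algebraMap (ZMod p) Ω with ham
  have hrr : IsRt c r := isRt_map.1 (hZr _ hr)
  -- the literal which separates `r'`
  have hlit : ∀ r' : ZMod p, am r' ∈ Z → r' ≠ r → ∃ y ∈ lits c p n L H,
      ev c.length r y = 1 ∧ ev c.length r' y = 0 := by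
    intro r' hr' hne
    have h1 := hsep r' hr' hne
    unfold Unsep at h1
    push Not at h1
    obtain ⟨τ, hτ, hτ2⟩ := h1
    have hrr' : IsRt c r' := isRt_map.1 (hZr _ hr')
    rcases tests_val hc hrr hτ with h | h <;> rcases tests_val hc hrr' hτ with h' | h'
    · exact absurd (h.trans h'.symm) hτ2
    · refine ⟨compl c p τ, ?_, ?_, ?_⟩
      · unfold lits
        exact List.mem_cons_of_mem _ (List.mem_append_right _ (List.mem_map.2 ⟨τ, hτ, rfl⟩))
      · rw [ev_compl hc, h, sub_zero]
      · rw [ev_compl hc, h', sub_self]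
    · refine ⟨τ, ?_, h, h'⟩
      unfold lits
      exact List.mem_cons_of_mem _ (List.mem_append_left _ hτ)
    · exact absurd (h.trans h'.symm) hτ2
  choose! lit hlit1 hlit2 hlit3 using hlit
  set O : Finset (ZMod p) := (Finset.univ.filter fun r' : ZMod p => am r' ∈ Z ∧ r' ≠ r) with hO
  have hOc : O.card + 1 ≤ c.length := by
    have h1 : insert r O ⊆ Finset.univ.filter fun r' : ZMod p => am r' ∈ Z := by
      intro x hx
      rcases Finset.mem_insert.1 hx with h | h
      · rw [h]
        exact Finset.mem_filter.2 ⟨Finset.mem_univ _, hr⟩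
      · exact Finset.mem_filter.2 ⟨Finset.mem_univ _, (Finset.mem_filter.1 h).2.1⟩
    have h2 : (Finset.univ.filter fun r' : ZMod p => am r' ∈ Z).card ≤ Z.card := by
      refine Finset.card_le_card_of_injOn am ?_ ?_
      · intro x hx
        exact (Finset.mem_filter.1 hx).2
      · intro x _ y _ h
        exact am.injective h
    have h3 : (insert r O).card = O.card + 1 := by
      apply Finset.card_insert_of_notMem
      intro h
      exact (Finset.mem_filter.1 h).2.2 rfl
    have h4 := Finset.card_le_card h1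
    omega
  set ys : List (List ℕ) := List.replicate (c.length - O.card) (spl c p) ++ O.toList.map lit
    with hys
  have hyl : ys.length = c.length := by
    rw [hys, List.length_append, List.length_replicate, List.length_map, Finset.length_toList]
    omega
  have hspl : spl c p ∈ ys := by
    rw [hys]
    exact List.mem_append_left _ (List.mem_replicate.2 ⟨by omega, rfl⟩)
  have hysl : ∀ y ∈ ys, y ∈ lits c p n L H := by
    intro y hy
    rw [hys] at hy
    rcases List.mem_append.1 hy with h | h
    · rw [(List.mem_replicate.1 h).2]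
      exact List.mem_cons_self ..
    · obtain ⟨r', hr', h1⟩ := List.mem_map.1 h
      have h2 := (Finset.mem_filter.1 (Finset.mem_toList.1 hr')).2
      rw [← h1]
      exact hlit1 r' h2.1 h2.2
  set t := ys.foldr (vmul c p) (vone c.length p) with ht
  have htm : t ∈ prods c p (lits c p n L H) c.length := by
    rw [← hyl]
    exact mem_prods c p _ ys hysl
  have htr : ev c.length r t = 1 := by
    rw [ht, ev_foldr hc hrr]
    apply List.prod_eq_one
    intro x hx
    obtain ⟨y, hy, rfl⟩ := List.mem_map.1 hx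
    rw [hys] at hy
    rcases List.mem_append.1 hy with h | h
    · rw [(List.mem_replicate.1 h).2]
      exact ev_spl_one hc hrr (ZMod.pow_card r)
    · obtain ⟨r', hr', h1⟩ := List.mem_map.1 h
      have h2 := (Finset.mem_filter.1 (Finset.mem_toList.1 hr')).2
      rw [← h1]
      exact hlit2 r' h2.1 h2.2
  have ht0 : ∀ z ∈ Z, z ≠ am r → ev c.length z t = 0 := by
    intro z hz hne
    rw [ht, ev_foldr hc (hZr z hz)]
    apply List.prod_eq_zero
    by_cases hzp : z ^ p = z
    · -- `z` comes from `F_p`
      obtain ⟨r', hr'⟩ : ∃ r' : ZMod p, am r' = z := by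
        have h1 : z ∈ Set.range am := by
          have h2 : (Polynomial.X ^ p - Polynomial.X : Polynomial Ω) ≠ 0 := by
            exact FiniteField.X_pow_card_sub_X_ne_zero Ω hp.one_lt
          have h3 : (Finset.univ.image am : Finset Ω) = (Polynomial.X ^ p - Polynomial.X : Polynomial Ω).roots.toFinset := by
            apply Finset.eq_of_subset_of_card_le
            · intro x hx
              obtain ⟨y, -, rfl⟩ := Finset.mem_image.1 hx
              rw [Multiset.mem_toFinset, Polynomial.mem_roots h2]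
              simp only [Polynomial.IsRoot.def, Polynomial.eval_sub, Polynomial.eval_pow,
                Polynomial.eval_X]
              rw [← map_pow, ZMod.pow_card, sub_self]
            · rw [Finset.card_image_of_injective _ am.injective, Finset.card_univ, ZMod.card]
              refine (Multiset.toFinset_card_le _).trans ((Polynomial.card_roots' _).trans ?_)
              rw [FiniteField.X_pow_card_sub_X_natDegree_eq Ω hp.one_lt]
          have h4 : z ∈ (Finset.univ.image am : Finset Ω) := by
            rw [h3, Multiset.mem_toFinset, Polynomial.mem_roots h2]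
            simp only [Polynomial.IsRoot.def, Polynomial.eval_sub, Polynomial.eval_pow,
                Polynomial.eval_X]
            rw [hzp, sub_self]
          obtain ⟨y, -, hy⟩ := Finset.mem_image.1 h4
          exact ⟨y, hy⟩
        exact h1
      have hr'Z : am r' ∈ Z := by rw [hr']; exact hz
      have hr'ne : r' ≠ r := by
        rintro rfl
        exact hne hr'.symm
      refine List.mem_map.2 ⟨lit r', ?_, ?_⟩
      · rw [hys]
        exact List.mem_append_right _ (List.mem_map.2 ⟨r', Finset.mem_toList.2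
          (Finset.mem_filter.2 ⟨Finset.mem_univ _, hr'Z, hr'ne⟩), rfl⟩)
      · rw [← hr', ham, ev_map, hlit3 r' hr'Z hr'ne, map_zero]
    · obtain ⟨m, hm, hmc, hzm⟩ := hZf z hz
      exact List.mem_map.2 ⟨spl c p, hspl, ev_spl_zero hc (hZr z hz) hzp hm hmc hzm⟩
  -- the entries of `X * t`
  have hcoef : ∀ k < c.length, (((xmul c p t).getD k 0 : ℕ) : ZMod p) =
      r * ((t.getD k 0 : ℕ) : ZMod p) := by
    have h1 := coef_eq Z hZ (fun k => (((xmul c p t).getD k 0 : ℕ) : Ω))
      (fun k => am r * ((t.getD k 0 : ℕ) : Ω)) (by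
        intro z hz
        have h2 := ev_xmul (p := p) hc (hZr z hz) t
        unfold ev at h2
        rw [h2]
        simp only [mul_assoc]
        rw [← Finset.mul_sum]
        by_cases hzr : z = am r
        · rw [hzr]
        · have h3 := ht0 z hz hzr
          unfold ev at h3
          rw [h3, mul_zero, mul_zero])
    intro k hk
    have h2 := h1 k hk
    apply am.injective
    rw [map_mul, map_natCast, map_natCast]
    exact h2
  have htne : ∃ k < c.length, ((t.getD k 0 : ℕ) : ZMod p) ≠ 0 := by
    by_contra hcon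
    push Not at hcon
    apply one_ne_zero (α := ZMod p)
    rw [← htr]
    unfold ev
    exact Finset.sum_eq_zero fun k hk => by rw [hcon k (Finset.mem_range.1 hk), zero_mul]
  obtain ⟨k, hk, hk0⟩ := htne
  unfold rlist
  refine List.mem_flatMap.2 ⟨t, htm, ?_⟩
  unfold extr
  refine List.mem_map.2 ⟨k, List.mem_range.2 hk, ?_⟩
  have h1 : ((md p ((xmul c p t).getD k 0 * pw p (t.getD k 0) (p - 2)) : ℕ) : ZMod p) = r := by
    rw [cast_md (p := p), Nat.cast_mul, Pool.Agent.H595R2.PR.pw_eq, cast_md (p := p), Nat.cast_pow,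
      hcoef k hk, mul_assoc, ← pow_succ', show p - 2 + 1 = p - 1 by have := hp.two_le; omega,
      pow_pm1 _ hk0, mul_one]
  rw [← h1, ZMod.val_natCast]
  apply (Nat.mod_eq_of_lt _).symm
  unfold md
  rw [max_eq_left hp.one_lt.le]
  exact Nat.mod_lt _ hp.pos

end Pool.Agent.Helper303_RF
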