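import Mathlib

/-!
# Counting subsets
-/

set_option autoImplicit false

namespace Pool.Agent.Helper303_RF

open Finset Filter Topology

theorem log_choose {m k : ℕ} (hk : 0 < k) (hkm : 2 * k ≤ m) :
    (k : ℝ) * (Real.log m - Real.log 2 - Real.log k) ≤ Real.log (m.choose k) := by
  have hm : 0 < m := by omega
  have h1 : (((m + 1 - k : ℕ) : ℝ) ^ k) ≤ (k.factorial : ℝ) * (m.choose k : ℝ) := by
    have h0 := Nat.pow_le_choose (α := ℝ) k m
    rw [div_le_iff₀ (by exact_mod_cast Nat.factorial_pos k)] at h0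
    push_cast at h0
    linarith
  have h2 : ((k.factorial : ℕ) : ℝ) ≤ (k : ℝ) ^ k := by exact_mod_cast Nat.factorial_le_pow k
  have hc : (0 : ℝ) < m.choose k := by exact_mod_cast Nat.choose_pos (by omega)
  have hk0 : (0 : ℝ) < k := by exact_mod_cast hk
  have hm0 : (0 : ℝ) < m := by exact_mod_cast hm
  have h3 : ((m : ℝ) / 2) ^ k ≤ (k : ℝ) ^ k * (m.choose k : ℝ) := by
    calc ((m : ℝ) / 2) ^ k ≤ ((m + 1 - k : ℕ) : ℝ) ^ k := by
          gcongr
          rw [div_le_iff₀ two_pos]
          have : m ≤ (m + 1 - k) * 2 := by omega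
          exact_mod_cast this
      _ ≤ (k.factorial : ℝ) * (m.choose k : ℝ) := h1
      _ ≤ _ := by gcongr
  have h4 := Real.log_le_log (by positivity) h3
  rw [Real.log_pow, Real.log_mul (by positivity) hc.ne', Real.log_pow,
    Real.log_div hm0.ne' (by norm_num)] at h4
  linarith

theorem count_lower {n : ℕ} (hn : 0 < n) {δ : ℝ} (hδ0 : 0 < δ) (hδ1 : δ ≤ 1) (P : ℕ → ℕ)
    (hP : ∀ η : ℝ, 0 < η → ∀ᶠ Y : ℕ in atTop, (Y : ℝ) ^ (1 - η) ≤ (P Y : ℝ)) (CR : ℕ)
    (hCR : 0 < CR) : ∃ C1 : ℕ, 0 < C1 ∧ ∀ᶠ l : ℕ in atTop, ∃ k : ℕ,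
      (CR * l ^ C1) ^ (k + 1) ≤ 2 ^ l ∧
      ((n : ℝ) - δ) * ((l + 1) * Real.log 2) ≤ Real.log ((P ((l ^ C1) ^ n)).choose k) := by
  have hl2 : 0 < Real.log 2 := Real.log_pos (by norm_num)
  have hn1 : (1 : ℝ) ≤ n := by exact_mod_cast hn
  set η : ℝ := δ / (3 * n + 2) with hη
  have hη0 : 0 < η := by positivity
  have hη1 : η ≤ 1 / 5 := by
    rw [hη, div_le_iff₀ (by positivity)]
    nlinarith
  obtain ⟨C1, hC1⟩ := exists_nat_ge (1 / η + 4)
  have hC1' : (4 : ℝ) ≤ C1 := by
    have : 0 < 1 / η := by positivity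
    linarith
  have hC10 : 0 < C1 := by
    have : (0 : ℝ) < C1 := by linarith
    exact_mod_cast this
  have hC1η : 1 ≤ η * C1 := by
    have : 1 / η ≤ C1 := by linarith
    rw [div_le_iff₀ hη0] at this
    linarith
  refine ⟨C1, hC10, ?_⟩
  set c' : ℝ := Real.log (2 * CR) with hc'
  have hCR1 : (1 : ℝ) ≤ CR := by exact_mod_cast hCR
  have hc'0 : 0 ≤ c' := Real.log_nonneg (by linarith)
  have hpow : Tendsto (fun l : ℕ => (l ^ C1) ^ n) atTop atTop :=
    (tendsto_pow_atTop hn.ne').comp (tendsto_pow_atTop hC10.ne')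
  have e1 := hpow.eventually (hP η hη0)
  have hlogt : Tendsto (fun l : ℕ => Real.log l) atTop atTop :=
    Real.tendsto_log_atTop.comp tendsto_natCast_atTop_atTop
  have e2 := hlogt.eventually_ge_atTop ((c' + Real.log 2) / η + 1)
  have e3 : ∀ᶠ l : ℕ in atTop, 2 * (C1 * Real.log l + c') + Real.log 2 ≤ η * (l * Real.log 2) := by
    have a1 := (isLittleO_log_rpow_atTop one_pos).bound
      (c := η * Real.log 2 / (4 * C1)) (by positivity)
    have a2 := tendsto_natCast_atTop_atTop (R := ℝ) |>.eventually a1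
    have a3 := (tendsto_natCast_atTop_atTop (R := ℝ)).eventually_ge_atTop
      ((2 * c' + Real.log 2) / (η * Real.log 2 / 2))
    filter_upwards [a2, a3, eventually_ge_atTop 1] with l b1 b2 b3
    have hl0 : (0 : ℝ) < l := by exact_mod_cast b3
    have hll : 0 ≤ Real.log l := Real.log_natCast_nonneg l
    simp only [Real.rpow_one, Real.norm_eq_abs] at b1
    rw [abs_of_nonneg hll, abs_of_pos hl0] at b1
    rw [div_le_iff₀ (by positivity)] at b2
    have b4 : 2 * (C1 * Real.log l) ≤ η * (l * Real.log 2) / 2 := by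
      calc 2 * (C1 * Real.log l) ≤ 2 * (C1 * (η * Real.log 2 / (4 * C1) * l)) := by gcongr
        _ = η * (l * Real.log 2) / 2 := by field_simp; ring
    linarith
  filter_upwards [e1, e2, e3, eventually_ge_atTop 4] with l h1 h2 h3 hl4
  have hl0 : (0 : ℝ) < l := by
    have : 0 < l := by omega
    exact_mod_cast this
  have hl1 : (4 : ℝ) ≤ l := by exact_mod_cast hl4
  set H := l ^ C1 with hH
  have hH0 : 0 < H := pow_pos (by omega) _
  set Lh : ℝ := Real.log H with hLh
  have hLh1 : Lh = C1 * Real.log l := by rw [hLh, hH]; push_cast; rw [Real.log_pow]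
  have hll : 0 < Real.log l := Real.log_pos (by linarith)
  have hLhη : c' + Real.log 2 ≤ η * Lh := by
    have : (c' + Real.log 2) / η ≤ Real.log l := by linarith
    rw [div_le_iff₀ hη0] at this
    have h4 : Real.log l ≤ Lh := by
      rw [hLh1]
      nlinarith
    nlinarith
  have hLh0 : 0 < Lh := by rw [hLh1]; positivity
  set w := Nat.log 2 (CR * H) + 1 with hw
  have hw0 : 0 < w := by omega
  have hwlt : CR * H < 2 ^ w := Nat.lt_pow_succ_log_self (by norm_num) _
  have hwle : (w : ℝ) * Real.log 2 ≤ Lh + c' := by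
    have h4 : 2 ^ Nat.log 2 (CR * H) ≤ CR * H := Nat.pow_log_le_self 2 (by positivity)
    have h5 : ((2 : ℝ) ^ w) ≤ 2 * CR * H := by
      rw [hw, pow_succ]
      have : ((2 : ℝ) ^ Nat.log 2 (CR * H)) ≤ CR * H := by exact_mod_cast h4
      linarith
    have h6 := Real.log_le_log (by positivity) h5
    rw [Real.log_pow, Real.log_mul (by positivity) (by positivity)] at h6
    linarith
  have hwl : 2 * w ≤ l := by
    have h4 : 2 * ((w : ℝ) * Real.log 2) ≤ l * Real.log 2 := by
      calc 2 * ((w : ℝ) * Real.log 2) ≤ 2 * (Lh + c') := by linarith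
        _ ≤ η * (l * Real.log 2) := by rw [hLh1]; linarith
        _ ≤ 1 * (l * Real.log 2) := by gcongr; linarith
        _ = _ := one_mul _
    have h5 : 2 * (w : ℝ) ≤ l := by nlinarith
    exact_mod_cast h5
  set k := l / w - 1 with hk
  have hlw : 2 ≤ l / w := (Nat.le_div_iff_mul_le hw0).2 (by omega)
  have hk1 : k + 1 = l / w := by omega
  have hk0 : 0 < k := by omega
  refine ⟨k, ?_, ?_⟩
  · rw [hk1]
    calc (CR * H) ^ (l / w) ≤ (2 ^ w) ^ (l / w) := Nat.pow_le_pow_left hwlt.le _
      _ = 2 ^ (w * (l / w)) := (pow_mul _ _ _).symm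
      _ ≤ 2 ^ l := Nat.pow_le_pow_right (by norm_num) (Nat.mul_div_le _ _)
  · have hkw : (l : ℝ) ≤ (k + 2) * w := by
      have h4 : l < (l / w + 1) * w := by
        have := Nat.lt_mul_div_succ l hw0
        rwa [mul_comm] at this
      have h5 : l ≤ (k + 2) * w := by
        rw [show k + 2 = l / w + 1 by omega]
        exact h4.le
      exact_mod_cast h5
    have hkl : k ≤ l := by
      have : l / w ≤ l := Nat.div_le_self _ _
      omega
    set Y := H ^ n with hY
    have hYH : (Y : ℝ) = (H : ℝ) ^ n := by rw [hY]; push_cast; rfl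
    have hH0' : (0 : ℝ) < H := by exact_mod_cast hH0
    have hY0 : (0 : ℝ) < Y := by rw [hYH]; positivity
    have hlogY : Real.log Y = n * Lh := by rw [hYH, Real.log_pow]
    -- `P Y` is at least `2 l`
    have hPY : (2 * l : ℝ) ≤ P Y := by
      refine le_trans ?_ h1
      have h4 : (2 * l : ℝ) ≤ (l : ℝ) ^ (2 : ℝ) := by
        rw [Real.rpow_two]
        nlinarith
      refine h4.trans ?_
      rw [hYH, hH]
      push_cast
      rw [← pow_mul, ← Real.rpow_natCast, ← Real.rpow_mul hl0.le]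
      apply Real.rpow_le_rpow_of_exponent_le (by linarith)
      push_cast
      have h5 : (4 : ℝ) ≤ C1 * n := by nlinarith
      nlinarith
    have hPl : 2 * k ≤ P Y := by
      have : 2 * l ≤ P Y := by exact_mod_cast hPY
      omega
    have hPpos : (0 : ℝ) < P Y := by linarith
    refine le_trans ?_ (log_choose hk0 hPl)
    have hlogP : (1 - η) * (n * Lh) ≤ Real.log (P Y) := by
      have h4 := Real.log_le_log (by positivity) h1
      rwa [Real.log_rpow hY0, hlogY] at h4
    have hlogk : Real.log k ≤ η * Lh := by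
      have h4 : Real.log k ≤ Real.log l := Real.log_le_log (by exact_mod_cast hk0)
        (by exact_mod_cast hkl)
      rw [hLh1]
      nlinarith
    have hk0' : (0 : ℝ) < k := by exact_mod_cast hk0
    set a : ℝ := n - (n + 2) * η with ha
    have ha0 : 0 ≤ a := by nlinarith
    have h4 : a * Lh ≤ Real.log (P Y) - Real.log 2 - Real.log k := by
      have : Real.log 2 ≤ η * Lh := by linarith
      rw [ha]
      nlinarith
    have h5 : (1 - η) * (Lh + c') ≤ Lh := by nlinarith
    have h6 : l * Real.log 2 - 2 * (Lh + c') ≤ k * (Lh + c') := by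
      have h7 : (l : ℝ) * Real.log 2 ≤ (k + 2) * (w * Real.log 2) := by
        calc (l : ℝ) * Real.log 2 ≤ (k + 2) * w * Real.log 2 := by gcongr
          _ = _ := by ring
      have h8 : ((k : ℝ) + 2) * (w * Real.log 2) ≤ (k + 2) * (Lh + c') := by gcongr
      linarith
    have h9 : (1 - η) * ((l + 1) * Real.log 2) ≤ l * Real.log 2 - 2 * (Lh + c') := by
      rw [hLh1]
      nlinarith
    have h10 : (n : ℝ) - δ ≤ a * (1 - η) * (1 - η) := by
      have hδη : δ = (3 * n + 2) * η := by rw [hη]; field_simp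
      rw [hδη, ha]
      have e1 : (0 : ℝ) ≤ η * η := by positivity
      have e2 : (0 : ℝ) ≤ (n : ℝ) * (η * η) := by positivity
      have e3 : (0 : ℝ) ≤ (1 - η) * (n * (η * η)) := by
        have : (0 : ℝ) ≤ 1 - η := by linarith
        positivity
      nlinarith
    have hη1' : (0 : ℝ) ≤ 1 - η := by linarith
    calc ((n : ℝ) - δ) * ((l + 1) * Real.log 2)
        ≤ (a * (1 - η) * (1 - η)) * ((l + 1) * Real.log 2) := by gcongr
      _ = a * (1 - η) * ((1 - η) * ((l + 1) * Real.log 2)) := by ring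
      _ ≤ a * (1 - η) * (l * Real.log 2 - 2 * (Lh + c')) := by gcongr
      _ ≤ a * (1 - η) * (k * (Lh + c')) := by gcongr
      _ = k * (a * ((1 - η) * (Lh + c'))) := by ring
      _ ≤ k * (a * Lh) := by gcongr
      _ ≤ k * (Real.log (P Y) - Real.log 2 - Real.log k) := by gcongr

end Pool.Agent.Helper303_RF
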