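import Mathlib
import Pool.Agent.H484R2.Pit
import Pool.Agent.H474R2.PG.HomsRho

/-!
# Many primes have a root
-/

set_option autoImplicit false

namespace Pool.Agent.Helper303_RF

open Polynomial Finset Filter Topology NumberField
open Pool.Agent.H474R2.PG (rho)

theorem rho_le_deg {f : ℤ[X]} (hm : f.Monic) {q : ℕ} (hq : q.Prime) : rho f q ≤ f.natDegree := by
  classical
  have := Fact.mk hq
  set g : (ZMod q)[X] := f.map (Int.castRingHom (ZMod q)) with hg
  have hg0 : g.Monic := hm.map _
  have hdeg : g.natDegree = f.natDegree := hm.natDegree_map _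
  have h1 : ((range q).filter fun a : ℕ => (q : ℤ) ∣ f.eval (a : ℤ)).card ≤ g.roots.toFinset.card := by
    refine card_le_card_of_injOn (fun a : ℕ => (a : ZMod q)) ?_ ?_
    · intro a ha
      obtain ⟨-, h2⟩ := mem_filter.1 ha
      simp only [mem_coe, Multiset.mem_toFinset]
      have h4 : eval ((a : ℤ) : ZMod q) (f.map (Int.castRingHom (ZMod q))) =
          ((f.eval (a : ℤ) : ℤ) : ZMod q) := by
        rw [eval_intCast_map]
        rfl
      rw [Int.cast_natCast] at h4
      rw [mem_roots hg0.ne_zero, IsRoot.def, hg, h4]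
      exact (ZMod.intCast_zmod_eq_zero_iff_dvd _ _).2 h2
    · intro a ha b hb h
      have h3 := (ZMod.natCast_eq_natCast_iff' a b q).1 h
      rwa [Nat.mod_eq_of_lt (mem_range.1 (mem_filter.1 ha).1),
        Nat.mod_eq_of_lt (mem_range.1 (mem_filter.1 hb).1)] at h3
  unfold rho
  refine h1.trans ((Multiset.toFinset_card_le _).trans ((card_roots' _).trans ?_))
  rw [hdeg]

/-- the primes between `C0` and `Y` modulo which `f` has a root -/
noncomputable def Ps (f : ℤ[X]) (C0 Y : ℕ) : Finset ℕ :=
  (range (Y + 1)).filter fun q => q.Prime ∧ C0 < q ∧ 0 < rho f q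

theorem many_primes (f : ℤ[X]) (hf : Irreducible f) (hm : f.Monic) (hd : 0 < f.natDegree)
    (C0 : ℕ) {η : ℝ} (hη : 0 < η) :
    ∀ᶠ Y : ℕ in atTop, (Y : ℝ) ^ (1 - η) ≤ ((Ps f C0 Y).card : ℝ) := by
  obtain ⟨K, _, _, B, hB⟩ := Pool.Agent.H474R2.PG.homs_le_rho f hf hd
  have hpit := Pool.Agent.H484R2.pit K
  have h1 : ∀ᶠ N : ℕ in atTop, (1 / 2 : ℝ) < (∑ p ∈ (range (N + 1)).filter Nat.Prime,
      (Nat.card (𝓞 K →+* ZMod p) : ℝ)) / (Nat.primeCounting N : ℝ) :=
    hpit.eventually (lt_mem_nhds (by norm_num))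
  set D := max B C0 with hD
  set K0 : ℝ := ∑ p ∈ (range (D + 1)).filter Nat.Prime, (Nat.card (𝓞 K →+* ZMod p) : ℝ) with hK0
  set n := f.natDegree with hn
  -- the sum is at most `K0 + n |Ps|`
  have h2 : ∀ N : ℕ, (∑ p ∈ (range (N + 1)).filter Nat.Prime,
      (Nat.card (𝓞 K →+* ZMod p) : ℝ)) ≤ K0 + n * (Ps f C0 N).card := by
    intro N
    have h3 : ∀ p ∈ (range (N + 1)).filter Nat.Prime, (Nat.card (𝓞 K →+* ZMod p) : ℝ) ≤
        (if p ∈ (range (D + 1)).filter Nat.Prime then (Nat.card (𝓞 K →+* ZMod p) : ℝ) else 0) +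
        (if p ∈ Ps f C0 N then (n : ℝ) else 0) := by
      intro p hp
      obtain ⟨hp1, hp2⟩ := mem_filter.1 hp
      by_cases hpD : p ≤ D
      · rw [if_pos (mem_filter.2 ⟨mem_range.2 (by omega), hp2⟩)]
        have : (0 : ℝ) ≤ if p ∈ Ps f C0 N then (n : ℝ) else 0 := by split_ifs <;> positivity
        linarith
      · push Not at hpD
        have hpB : B < p := lt_of_le_of_lt (le_max_left _ _) hpD
        have hpC : C0 < p := lt_of_le_of_lt (le_max_right _ _) hpD
        have h4 := hB p hp2 hpB
        have h5 : (0 : ℝ) ≤ if p ∈ (range (D + 1)).filter Nat.Prime then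
          (Nat.card (𝓞 K →+* ZMod p) : ℝ) else 0 := by split_ifs <;> positivity
        rcases Nat.eq_zero_or_pos (rho f p) with h0 | h0
        · rw [h0] at h4
          have h6 : (Nat.card (𝓞 K →+* ZMod p) : ℝ) = 0 := by exact_mod_cast Nat.le_zero.1 h4
          rw [h6]
          have : (0 : ℝ) ≤ if p ∈ Ps f C0 N then (n : ℝ) else 0 := by split_ifs <;> positivity
          rw [h6] at h5
          linarith
        · have h7 : p ∈ Ps f C0 N := mem_filter.2 ⟨hp1, hp2, hpC, h0⟩
          rw [if_pos h7]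
          have h8 : (Nat.card (𝓞 K →+* ZMod p) : ℝ) ≤ n := by
            exact_mod_cast h4.trans (rho_le_deg hm hp2)
          linarith
    refine (sum_le_sum h3).trans ?_
    rw [sum_add_distrib]
    refine add_le_add ?_ ?_
    · rw [← sum_filter, hK0]
      refine sum_le_sum_of_subset_of_nonneg ?_ fun _ _ _ => by positivity
      intro p hp
      exact (mem_filter.1 hp).2
    · rw [← sum_filter, sum_const, nsmul_eq_mul, mul_comm]
      refine mul_le_mul_of_nonneg_left ?_ (by positivity)
      exact_mod_cast card_le_card fun p hp => (mem_filter.1 hp).2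
  have h3 : ∀ᶠ N : ℕ in atTop, ((N : ℝ)) ^ (1 - η) ≤ ((N * Real.log 2 - Real.log (N + 1)) /
      Real.log N / 2 - K0) / n := by
    have hn0 : (0 : ℝ) < n := by exact_mod_cast hd
    have hl2 : 0 < Real.log 2 := Real.log_pos (by norm_num)
    have e1 : ∀ᶠ x : ℝ in atTop, x ^ (1 - η) ≤ ((x * Real.log 2 - Real.log (x + 1)) /
        Real.log x / 2 - K0) / n := by
      have a1 := (isLittleO_log_rpow_atTop hη).bound (c := Real.log 2 / (8 * n)) (by positivity)
      have a2 := (isLittleO_log_rpow_atTop one_pos).bound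
        (c := Real.log 2 / (8 * (|K0| + 1))) (by positivity)
      have a3 := (isLittleO_log_rpow_atTop one_pos).bound (c := Real.log 2 / 8) (by positivity)
      have a4 := (tendsto_atTop_add_const_right atTop (1 : ℝ) tendsto_id).eventually a3
      filter_upwards [a1, a2, a4, eventually_ge_atTop 3] with x b1 b2 b4 hx
      have hx0 : 0 < x := by linarith
      have hlx : 0 < Real.log x := Real.log_pos (by linarith)
      have hlx1 : 0 < Real.log (x + 1) := Real.log_pos (by linarith)
      simp only [id_eq, Real.rpow_one, Real.norm_eq_abs] at b1 b2 b4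
      rw [abs_of_pos hlx, abs_of_pos (Real.rpow_pos_of_pos hx0 _)] at b1
      rw [abs_of_pos hlx, abs_of_pos hx0] at b2
      rw [abs_of_pos hlx1, abs_of_pos (by linarith)] at b4
      rw [le_div_iff₀ hn0, le_sub_iff_add_le, le_div_iff₀ two_pos, le_div_iff₀ hlx]
      have hxx : x ^ (1 - η) * x ^ η = x := by
        rw [← Real.rpow_add hx0]
        simp
      have hp0 : 0 < x ^ (1 - η) := Real.rpow_pos_of_pos hx0 _
      have c1 : x ^ (1 - η) * n * 2 * Real.log x ≤ x * Real.log 2 / 4 := by
        calc x ^ (1 - η) * n * 2 * Real.log x ≤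
            x ^ (1 - η) * n * 2 * (Real.log 2 / (8 * n) * x ^ η) := by gcongr
          _ = (x ^ (1 - η) * x ^ η) * Real.log 2 / 4 := by field_simp; ring
          _ = x * Real.log 2 / 4 := by rw [hxx]
      have c2 : K0 * 2 * Real.log x ≤ x * Real.log 2 / 4 := by
        calc K0 * 2 * Real.log x ≤ (|K0| + 1) * 2 * Real.log x := by
              gcongr
              linarith [le_abs_self K0]
          _ ≤ (|K0| + 1) * 2 * (Real.log 2 / (8 * (|K0| + 1)) * x) := by gcongr
          _ = x * Real.log 2 / 4 := by field_simp; ring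
      have c3 : Real.log (x + 1) ≤ x * Real.log 2 / 4 := by
        calc Real.log (x + 1) ≤ Real.log 2 / 8 * (x + 1) := b4
          _ ≤ Real.log 2 / 8 * (x + x) := by gcongr; linarith
          _ = x * Real.log 2 / 4 := by ring
      have c4 : 0 < x * Real.log 2 := by positivity
      nlinarith
    exact tendsto_natCast_atTop_atTop.eventually e1
  filter_upwards [h1, h3, eventually_ge_atTop 3] with N hN1 hN3 hN
  refine hN3.trans ?_
  have hn0 : (0 : ℝ) < n := by exact_mod_cast hd
  rw [div_le_iff₀ hn0]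
  have h4 := Chebyshev.pi_ge N
  have hpi : (0 : ℝ) < Nat.primeCounting N := by
    have : 0 < Nat.primeCounting N := by
      have := Nat.monotone_primeCounting (show 2 ≤ N by omega)
      have h5 : Nat.primeCounting 2 = 1 := by decide
      omega
    exact_mod_cast this
  rw [lt_div_iff₀ hpi] at hN1
  have := h2 N
  linarith

end Pool.Agent.Helper303_RF
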