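import Mathlib

/-!
# Products of small elements of an order
-/

set_option autoImplicit false

namespace Pool.Agent.Helper303_RF

open Finset Module

section

variable {R : Type} [CommRing R] {n : ℕ} (b : Basis (Fin n) ℤ R)
include b

theorem dvd_normR (x : R) : x ∣ ((Algebra.norm ℤ x : ℤ) : R) := by
  classical
  set M := Algebra.leftMulMatrix b x with hM
  have h1 : Polynomial.aeval x M.charpoly = 0 := by
    apply Algebra.leftMulMatrix_injective b
    rw [← Polynomial.aeval_algHom_apply, ← hM, Matrix.aeval_self_charpoly, map_zero]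
  have h2 : Algebra.norm ℤ x = (-1) ^ Fintype.card (Fin n) * M.charpoly.coeff 0 := by
    rw [Algebra.norm_eq_matrix_det b, ← hM, Matrix.det_eq_sign_charpoly_coeff]
  have h3 : x ∣ ((M.charpoly.coeff 0 : ℤ) : R) := by
    have h4 := Polynomial.divX_mul_X_add M.charpoly
    rw [← h4, map_add, map_mul, Polynomial.aeval_X, Polynomial.aeval_C] at h1
    refine ⟨-(Polynomial.aeval x M.charpoly.divX), ?_⟩
    have h5 : (algebraMap ℤ R) (M.charpoly.coeff 0) = ((M.charpoly.coeff 0 : ℤ) : R) := by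
      simp
    rw [h5] at h1
    linear_combination h1
  rw [h2]
  push_cast
  exact Dvd.dvd.mul_left h3 _

theorem norm_dvd_of_zero {q : ℕ} (φ : R →+* ZMod q) {x : R} (hx : φ x = 0) :
    (q : ℤ) ∣ Algebra.norm ℤ x := by
  obtain ⟨y, hy⟩ := dvd_normR b x
  rw [← ZMod.intCast_zmod_eq_zero_iff_dvd, ← map_intCast φ, hy, map_mul, hx, zero_mul]

theorem norm_bound [IsDomain R] : ∃ C : ℕ, ∀ (x : R) (A : ℕ), (∀ i, |b.repr x i| ≤ (A : ℤ)) →
    |Algebra.norm ℤ x| ≤ (C : ℤ) * (A : ℤ) ^ n := by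
  classical
  refine ⟨(ClassGroup.normBound AbsoluteValue.abs b).toNat, fun x A hA => ?_⟩
  have h1 := ClassGroup.norm_le AbsoluteValue.abs b x (y := (A : ℤ)) hA
  rw [Fintype.card_fin] at h1
  rw [Int.toNat_of_nonneg (ClassGroup.normBound_pos AbsoluteValue.abs b).le]
  exact h1

theorem exists_small {q : ℕ} [NeZero q] (φ : R →+* ZMod q) {A : ℕ} (hA : q < (A + 1) ^ n) :
    ∃ x : R, x ≠ 0 ∧ (∀ i, |b.repr x i| ≤ (A : ℤ)) ∧ φ x = 0 := by
  classical
  have h1 : ∃ v w : Fin n → Fin (A + 1), v ≠ w ∧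
      φ (b.equivFun.symm fun i => ((v i : ℕ) : ℤ)) = φ (b.equivFun.symm fun i => ((w i : ℕ) : ℤ)) :=
    Fintype.exists_ne_map_eq_of_card_lt (fun v : Fin n → Fin (A + 1) =>
      φ (b.equivFun.symm fun i => ((v i : ℕ) : ℤ))) (by
        rw [ZMod.card, Fintype.card_pi]
        simpa using hA)
  obtain ⟨v, w, hvw, h⟩ := h1
  refine ⟨(b.equivFun.symm fun i => ((v i : ℕ) : ℤ)) - (b.equivFun.symm fun i => ((w i : ℕ) : ℤ)),
    ?_, ?_, ?_⟩
  · intro h0
    apply hvw
    have h2 := b.equivFun.symm.injective (sub_eq_zero.1 h0)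
    funext i
    have h3 := congrFun h2 i
    exact Fin.ext (by exact_mod_cast h3)
  · intro i
    rw [← map_sub, ← Basis.equivFun_apply, LinearEquiv.apply_symm_apply]
    simp only [Pi.sub_apply]
    have h2 := (v i).isLt
    have h3 := (w i).isLt
    rw [abs_le]
    constructor <;> omega
  · rw [map_sub, h, sub_self]

theorem mul_bound : ∃ C : ℕ, 0 < C ∧ ∀ (x y : R) (A B : ℕ), (∀ i, |b.repr x i| ≤ (A : ℤ)) →
    (∀ i, |b.repr y i| ≤ (B : ℤ)) → ∀ i, |b.repr (x * y) i| ≤ ((C * A * B : ℕ) : ℤ) := by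
  classical
  set C : ℤ := ∑ i, ∑ j, ∑ k, |b.repr (b i * b j) k| with hC
  have hC0 : 0 ≤ C := sum_nonneg fun _ _ => sum_nonneg fun _ _ => sum_nonneg fun _ _ => abs_nonneg _
  refine ⟨C.toNat + 1, by omega, fun x y A B hA hB k => ?_⟩
  have h1 : x * y = ∑ i, ∑ j, (b.repr x i * b.repr y j) • (b i * b j) := by
    conv_lhs => rw [← b.sum_repr x, ← b.sum_repr y]
    rw [sum_mul_sum]
    refine sum_congr rfl fun i _ => sum_congr rfl fun j _ => ?_
    rw [smul_mul_smul_comm]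
  have h2 : b.repr (x * y) k = ∑ i, ∑ j, (b.repr x i * b.repr y j) * b.repr (b i * b j) k := by
    rw [h1, map_sum, Finsupp.coe_finsetSum, Finset.sum_apply]
    refine sum_congr rfl fun i _ => ?_
    rw [map_sum, Finsupp.coe_finsetSum, Finset.sum_apply]
    refine sum_congr rfl fun j _ => ?_
    rw [map_smul, Finsupp.smul_apply, smul_eq_mul]
  rw [h2]
  have h3 : ((C.toNat + 1 : ℕ) * A * B : ℤ) = (C + 1) * A * B := by
    push_cast
    rw [Int.toNat_of_nonneg hC0]
  push_cast at h3 ⊢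
  rw [h3]
  calc |∑ i, ∑ j, (b.repr x i * b.repr y j) * b.repr (b i * b j) k|
      ≤ ∑ i, ∑ j, |(b.repr x i * b.repr y j) * b.repr (b i * b j) k| :=
        (abs_sum_le_sum_abs _ _).trans (sum_le_sum fun i _ => abs_sum_le_sum_abs _ _)
    _ ≤ ∑ i, ∑ j, ((A : ℤ) * B) * |b.repr (b i * b j) k| := by
        refine sum_le_sum fun i _ => sum_le_sum fun j _ => ?_
        rw [abs_mul, abs_mul]
        have h4 := hA i
        have h5 := hB j
        have h6 : |b.repr x i| * |b.repr y j| ≤ (A : ℤ) * B :=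
          mul_le_mul h4 h5 (abs_nonneg _) (by positivity)
        exact mul_le_mul_of_nonneg_right h6 (abs_nonneg _)
    _ ≤ ∑ i, ∑ j, ((A : ℤ) * B) * ∑ k, |b.repr (b i * b j) k| := by
        refine sum_le_sum fun i _ => sum_le_sum fun j _ => ?_
        refine mul_le_mul_of_nonneg_left ?_ (by positivity)
        exact single_le_sum (f := fun k => |b.repr (b i * b j) k|) (fun _ _ => abs_nonneg _)
          (mem_univ k)
    _ = (A * B) * C := by
        rw [hC, mul_sum]
        refine sum_congr rfl fun i _ => ?_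
        rw [mul_sum]
    _ ≤ (C + 1) * A * B := by
        have : (0 : ℤ) ≤ A * B := by positivity
        nlinarith

theorem prod_bound : ∃ C : ℕ, 0 < C ∧ ∀ (T : Finset ℕ) (α : ℕ → R) (A : ℕ),
    (∀ q ∈ T, ∀ i, |b.repr (α q) i| ≤ (A : ℤ)) →
    ∀ i, |b.repr (∏ q ∈ T, α q) i| ≤ ((C ^ (T.card + 1) * A ^ T.card : ℕ) : ℤ) := by
  classical
  obtain ⟨C, hC, hmul⟩ := mul_bound b
  set D : ℤ := ∑ i, |b.repr 1 i| with hD
  have hD0 : 0 ≤ D := sum_nonneg fun _ _ => abs_nonneg _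
  refine ⟨C + D.toNat, by omega, fun T α A => ?_⟩
  induction T using Finset.induction_on with
  | empty =>
    intro _ i
    rw [prod_empty, card_empty]
    have h1 : |b.repr 1 i| ≤ D :=
      single_le_sum (f := fun k => |b.repr (1 : R) k|) (fun _ _ => abs_nonneg _) (mem_univ i)
    simp only [zero_add, pow_one, pow_zero, mul_one]
    push_cast
    omega
  | insert q T hq ih =>
    intro hA i
    rw [prod_insert hq, card_insert_of_notMem hq]
    have h1 := ih (fun q' hq' => hA q' (mem_insert_of_mem hq'))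
    have h2 := hmul (α q) (∏ q ∈ T, α q) A _ (hA q (mem_insert_self _ _)) h1 i
    refine h2.trans ?_
    have h3 : C * A * ((C + D.toNat) ^ (T.card + 1) * A ^ T.card) ≤
        (C + D.toNat) ^ (T.card + 1 + 1) * A ^ (T.card + 1) := by
      calc C * A * ((C + D.toNat) ^ (T.card + 1) * A ^ T.card) ≤
          (C + D.toNat) * A * ((C + D.toNat) ^ (T.card + 1) * A ^ T.card) := by
            gcongr
            omega
        _ = _ := by ring
    exact_mod_cast h3

variable [IsDomain R]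

/-- small elements which vanish at the primes `q` -/
theorem exists_alpha (hn : 0 < n) : ∃ C : ℕ, ∀ q : ℕ, q.Prime → ∀ φ : R →+* ZMod q, ∀ H : ℕ,
    q ≤ H ^ n → ∃ x : R, (∀ i, |b.repr x i| ≤ (H : ℤ)) ∧ ∃ e : ℤ, Algebra.norm ℤ x = q * e ∧
      e ≠ 0 ∧ |e| ≤ C := by
  classical
  obtain ⟨C, hC⟩ := norm_bound b
  refine ⟨C, fun q hq φ H hqH => ?_⟩
  have : NeZero q := ⟨hq.ne_zero⟩
  have hex : ∃ A : ℕ, q < (A + 1) ^ n := ⟨H, lt_of_le_of_lt hqH
    (Nat.pow_lt_pow_left (by omega) hn.ne')⟩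
  set A := Nat.find hex with hA
  have hA1 : q < (A + 1) ^ n := Nat.find_spec hex
  have hAH : A ≤ H := Nat.find_min' hex (lt_of_le_of_lt hqH (Nat.pow_lt_pow_left (by omega) hn.ne'))
  have hA2 : A ^ n ≤ q := by
    rcases Nat.eq_zero_or_pos A with h0 | h0
    · rw [h0, zero_pow hn.ne']
      exact Nat.zero_le _
    · have h1 := Nat.find_min hex (m := A - 1) (by rw [← hA]; omega)
      rw [Nat.sub_add_cancel h0] at h1
      omega
  obtain ⟨x, hx0, hxA, hxφ⟩ := exists_small b φ hA1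
  obtain ⟨e, he⟩ := norm_dvd_of_zero b φ hxφ
  have hN := hC x A hxA
  have hq0 : (0 : ℤ) < q := by exact_mod_cast hq.pos
  refine ⟨x, fun i => (hxA i).trans (by exact_mod_cast hAH), e, he, ?_, ?_⟩
  · rintro rfl
    rw [mul_zero] at he
    exact hx0 ((Algebra.norm_eq_zero_iff_of_basis b).1 he)
  · rw [he, abs_mul, abs_of_pos hq0] at hN
    have h1 : (C : ℤ) * (A : ℤ) ^ n ≤ C * q := by
      refine mul_le_mul_of_nonneg_left ?_ (by positivity)
      exact_mod_cast hA2
    nlinarith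

omit b [IsDomain R] in
/-- products of different sets of such elements are different -/
theorem prod_inj {C : ℕ} {P : Finset ℕ} (hP : ∀ q ∈ P, q.Prime ∧ C < q) {α : ℕ → R} {e : ℕ → ℤ}
    (hα : ∀ q ∈ P, Algebra.norm ℤ (α q) = q * e q) (he : ∀ q ∈ P, e q ≠ 0 ∧ |e q| ≤ C) :
    Set.InjOn (fun T : Finset ℕ => ∏ q ∈ T, α q) {T | T ⊆ P} := by
  classical
  have key : ∀ T T' : Finset ℕ, T ⊆ P → T' ⊆ P → ∏ q ∈ T, α q = ∏ q ∈ T', α q → T ⊆ T' := by
    intro T T' hT hT' h q hqT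
    obtain ⟨hq, hqC⟩ := hP q (hT hqT)
    have h1 : Algebra.norm ℤ (∏ q ∈ T, α q) = Algebra.norm ℤ (∏ q ∈ T', α q) := by rw [h]
    rw [map_prod, map_prod, prod_congr rfl fun q hq => hα q (hT hq),
      prod_congr rfl fun q hq => hα q (hT' hq)] at h1
    have h2 : (q : ℤ) ∣ ∏ q ∈ T', (q : ℤ) * e q := by
      rw [← h1]
      exact (Dvd.intro _ rfl).trans (dvd_prod_of_mem (fun q : ℕ => (q : ℤ) * e q) hqT)
    obtain ⟨q', hq', h3⟩ := (Nat.prime_iff_prime_int.1 hq).exists_mem_finset_dvd h2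
    obtain ⟨hqp, hqC'⟩ := hP q' (hT' hq')
    rcases (Nat.prime_iff_prime_int.1 hq).dvd_or_dvd h3 with h4 | h4
    · have h5 : q = q' := (Nat.prime_dvd_prime_iff_eq hq hqp).1 (by exact_mod_cast h4)
      rwa [h5]
    · exfalso
      obtain ⟨h6, h7⟩ := he q' (hT' hq')
      have h8 := Int.le_of_dvd (abs_pos.2 h6) ((dvd_abs _ _).2 h4)
      have : (C : ℤ) < q := by exact_mod_cast hqC
      omega
  intro T hT T' hT' h
  exact Subset.antisymm (key T T' hT hT' h) (key T' T hT' hT h.symm)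

end

end Pool.Agent.Helper303_RF
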