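import Mathlib
import Pool.Agent.Helper303_RF.Order
import Pool.Agent.Helper303_RF.Many
import Pool.Agent.Helper303_RF.Count

/-!
# Many products of small elements
-/

set_option autoImplicit false

namespace Pool.Agent.Helper303_RF

open Finset Filter Polynomial Module
open Pool.Agent.H474R2.PG (rho)

/-- the value at `z` of the polynomial with coefficients `v` -/
def val {n : ℕ} {κ : Type} [CommRing κ] (z : κ) (v : Fin n → ℤ) : κ :=
  ∑ i, (v i : κ) * z ^ (i : ℕ)

/-- the power basis -/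
noncomputable def bas (f : ℤ[X]) (hm : f.Monic) : Basis (Fin f.natDegree) ℤ (AdjoinRoot f) :=
  (AdjoinRoot.powerBasis' hm).basis.reindex (finCongr (AdjoinRoot.powerBasis'_dim hm))

theorem bas_apply (f : ℤ[X]) (hm : f.Monic) (i : Fin f.natDegree) :
    bas f hm i = AdjoinRoot.root f ^ (i : ℕ) := by
  unfold bas
  rw [Basis.reindex_apply, PowerBasis.basis_eq_pow, AdjoinRoot.powerBasis'_gen]
  simp

/-- evaluation at a root -/
noncomputable def evR (f : ℤ[X]) {κ : Type} [CommRing κ] (z : κ)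
    (h : f.eval₂ (Int.castRingHom κ) z = 0) : AdjoinRoot f →+* κ :=
  AdjoinRoot.lift (Int.castRingHom κ) z h

theorem evR_eq (f : ℤ[X]) (hm : f.Monic) {κ : Type} [CommRing κ] (z : κ)
    (h : f.eval₂ (Int.castRingHom κ) z = 0) (x : AdjoinRoot f) :
    evR f z h x = val z ((bas f hm).equivFun x) := by
  conv_lhs => rw [← (bas f hm).sum_equivFun x]
  rw [map_sum]
  unfold val
  refine sum_congr rfl fun i _ => ?_
  rw [zsmul_eq_mul, map_mul, map_intCast, bas_apply, map_pow]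
  congr 2
  exact AdjoinRoot.lift_root _

theorem smooth_set {f : ℤ[X]} (hf : Irreducible f) (hm : f.Monic) (hd : 0 < f.natDegree) {δ : ℝ}
    (hδ0 : 0 < δ) (hδ1 : δ < 1) :
    ∃ C1 C0 : ℕ, 0 < C1 ∧ ∀ᶠ l : ℕ in atTop, ∃ S : Finset (Fin f.natDegree → ℤ),
      (∀ v ∈ S, ∀ i, |v i| ≤ 2 ^ l) ∧
      (2 : ℝ) ^ (((f.natDegree : ℝ) - δ) * (l + 1)) ≤ S.card ∧
      ∀ v ∈ S, ∃ T : List (Fin f.natDegree → ℤ), (∀ a ∈ T, ∀ i, |a i| ≤ (l : ℤ) ^ C1) ∧
        ∀ p : ℕ, p.Prime → C0 * (l ^ C1) ^ f.natDegree < p → ∀ z : ZMod p,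
          f.eval₂ (Int.castRingHom (ZMod p)) z = 0 →
            val z v = (T.map (val z)).prod ∧ ∀ a ∈ T, val z a ≠ 0 := by
  classical
  set n := f.natDegree with hn
  have : IsDomain (AdjoinRoot f) := AdjoinRoot.isDomain_of_prime hf.prime
  set b := bas f hm with hb
  obtain ⟨C, hC⟩ := exists_alpha b hd
  obtain ⟨CR, hCR, hprod⟩ := prod_bound b
  obtain ⟨C1, hC1, hcount⟩ := count_lower hd hδ0 hδ1.le (fun Y => (Ps f C Y).card)
    (fun η hη => many_primes f hf hm hd C hη) CR hCR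
  refine ⟨C1, C, hC1, ?_⟩
  filter_upwards [hcount, eventually_ge_atTop 1] with l hl hl1
  obtain ⟨k, hk1, hk2⟩ := hl
  set H := l ^ C1 with hH
  have hH0 : 0 < H := pow_pos (by omega) _
  set P := Ps f C (H ^ n) with hP
  have hP' : ∀ q ∈ P, q.Prime ∧ C < q ∧ q ≤ H ^ n ∧ 0 < rho f q := by
    intro q hq
    obtain ⟨h1, h2, h3, h4⟩ := mem_filter.1 hq
    exact ⟨h2, h3, by have := mem_range.1 h1; omega, h4⟩
  have hα : ∀ q ∈ P, ∃ x : AdjoinRoot f, ∃ e : ℤ, (∀ i, |b.repr x i| ≤ (H : ℤ)) ∧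
      Algebra.norm ℤ x = q * e ∧ e ≠ 0 ∧ |e| ≤ C := by
    intro q hq
    obtain ⟨h1, h2, h3, h4⟩ := hP' q hq
    unfold rho at h4
    obtain ⟨a, ha⟩ := card_pos.1 h4
    obtain ⟨-, ha2⟩ := mem_filter.1 ha
    have h5 : f.eval₂ (Int.castRingHom (ZMod q)) (a : ZMod q) = 0 := by
      have h6 : ((f.eval (a : ℤ) : ℤ) : ZMod q) = 0 :=
        (ZMod.intCast_zmod_eq_zero_iff_dvd _ _).2 ha2
      rw [← Int.cast_natCast, eval₂_at_intCast]
      simpa using h6
    obtain ⟨x, hx, e, he⟩ := hC q h1 (evR f _ h5) H h3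
    exact ⟨x, e, hx, he⟩
  choose! α e hα1 hα2 hα3 hα4 using hα
  have hinj := prod_inj (R := AdjoinRoot f) (C := C) (P := P)
    (fun q hq => ⟨(hP' q hq).1, (hP' q hq).2.1⟩) hα2 (fun q hq => ⟨hα3 q hq, hα4 q hq⟩)
  refine ⟨(P.powersetCard k).image fun T => b.equivFun (∏ q ∈ T, α q), ?_, ?_, ?_⟩
  · intro v hv i
    obtain ⟨T, hT, rfl⟩ := mem_image.1 hv
    obtain ⟨hT1, hT2⟩ := mem_powersetCard.1 hT
    have h1 := hprod T α H (fun q hq => hα1 q (hT1 hq)) i
    rw [hT2] at h1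
    rw [Basis.equivFun_apply]
    refine h1.trans ?_
    have h2 : CR ^ (k + 1) * H ^ k ≤ 2 ^ l := by
      refine le_trans ?_ hk1
      rw [mul_pow]
      exact Nat.mul_le_mul_left _ (Nat.pow_le_pow_right hH0 (by omega))
    exact_mod_cast h2
  · rw [card_image_of_injOn, card_powersetCard]
    · have hn1 : (1 : ℝ) ≤ n := by exact_mod_cast hd
      have hl2 : 0 < Real.log 2 := Real.log_pos (by norm_num)
      have h1 : 0 < ((n : ℝ) - δ) * ((l + 1) * Real.log 2) := by
        have : 0 < (n : ℝ) - δ := by linarith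
        positivity
      have h2 : (P.card.choose k : ℝ) ≠ 0 := by
        intro h0
        change ((n : ℝ) - δ) * ((l + 1) * Real.log 2) ≤ Real.log (P.card.choose k) at hk2
        rw [h0, Real.log_zero] at hk2
        linarith
      have h3 : (0 : ℝ) < (P.card.choose k : ℝ) := lt_of_le_of_ne (by positivity) h2.symm
      rw [← Real.log_le_log_iff (by positivity) h3, Real.log_rpow (by norm_num)]
      calc ((n : ℝ) - δ) * (l + 1) * Real.log 2 = ((n : ℝ) - δ) * ((l + 1) * Real.log 2) := by ring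
        _ ≤ _ := hk2
    · intro T hT T' hT' h
      exact hinj (mem_powersetCard.1 hT).1 (mem_powersetCard.1 hT').1 (b.equivFun.injective h)
  · intro v hv
    obtain ⟨T, hT, rfl⟩ := mem_image.1 hv
    obtain ⟨hT1, hT2⟩ := mem_powersetCard.1 hT
    refine ⟨T.toList.map fun q => b.equivFun (α q), ?_, ?_⟩
    · intro a ha i
      obtain ⟨q, hq, rfl⟩ := List.mem_map.1 ha
      rw [Basis.equivFun_apply]
      have := hα1 q (hT1 (mem_toList.1 hq)) i
      rw [hH] at this
      exact_mod_cast this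
    · intro p hp hpC z hz
      have := Fact.mk hp
      refine ⟨?_, ?_⟩
      · rw [← evR_eq f hm z hz, map_prod, List.map_map, ← Finset.prod_map_toList]
        congr 1
        refine List.map_congr_left fun q _ => ?_
        rw [Function.comp_apply, evR_eq f hm z hz]
      · intro a ha
        obtain ⟨q, hq, rfl⟩ := List.mem_map.1 ha
        have hqP := hT1 (mem_toList.1 hq)
        rw [← evR_eq f hm z hz]
        intro h0
        have h1 : (p : ℤ) ∣ Algebra.norm ℤ (α q) := norm_dvd_of_zero b (evR f z hz) h0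
        rw [hα2 q hqP] at h1
        obtain ⟨h2, h3, h4, -⟩ := hP' q hqP
        have h5 : (q : ℤ) * e q ≠ 0 := mul_ne_zero (by exact_mod_cast h2.ne_zero) (hα3 q hqP)
        have h6 := Int.le_of_dvd (abs_pos.2 h5) ((dvd_abs _ _).2 h1)
        rw [abs_mul, abs_of_nonneg (by positivity : (0 : ℤ) ≤ q)] at h6
        have h7 : (q : ℤ) * |e q| ≤ (H ^ n : ℕ) * C := by
          apply mul_le_mul (by exact_mod_cast h4) (hα4 q hqP) (abs_nonneg _) (by positivity)
        have h8 : ((C * H ^ n : ℕ) : ℤ) < p := by exact_mod_cast hpC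
        push_cast at h7 h8
        linarith

end Pool.Agent.Helper303_RF
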