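import Mathlib
import Pool.Agent.Helper303_RF.Correct
import Pool.Agent.Helper303_RF.Smooth

/-!
# Roots in the algebraic closure
-/

set_option autoImplicit false

namespace Pool.Agent.Helper303_RF

open Polynomial

theorem exists_int_mul (u : ℚ[X]) : ∃ N : ℤ, N ≠ 0 ∧ ∃ U : ℤ[X],
    U.map (Int.castRingHom ℚ) = C (N : ℚ) * u := by
  obtain ⟨b, hb, h⟩ := IsLocalization.integerNormalization_spec (nonZeroDivisors ℤ) u
  refine ⟨b, nonZeroDivisors.ne_zero hb, IsLocalization.integerNormalization (nonZeroDivisors ℤ) u, ?_⟩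
  have h2 : (algebraMap ℤ ℚ) = Int.castRingHom ℚ := rfl
  rw [h2] at h
  rw [h]
  ext i
  simp

/-- an irreducible polynomial is separable modulo all large primes -/
theorem sep_mod {f : ℤ[X]} (hf : Irreducible f) (hd : 0 < f.natDegree) :
    ∃ D : ℕ, ∀ p : ℕ, p.Prime → D < p → (f.map (Int.castRingHom (ZMod p))).Separable := by
  have hprim : f.IsPrimitive := hf.isPrimitive hd.ne'
  have hF : Irreducible (f.map (Int.castRingHom ℚ)) :=
    (IsPrimitive.Int.irreducible_iff_irreducible_map_cast hprim).1 hf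
  obtain ⟨u, v, huv⟩ := hF.separable
  obtain ⟨N, hN, U, hU⟩ := exists_int_mul u
  obtain ⟨M, hM, V, hV⟩ := exists_int_mul v
  have key : C M * U * f + C N * V * derivative f = C (M * N) := by
    apply Polynomial.map_injective (Int.castRingHom ℚ) Int.cast_injective
    rw [Polynomial.map_add, Polynomial.map_mul, Polynomial.map_mul, Polynomial.map_mul,
      Polynomial.map_mul, hU, hV, map_C, map_C, map_C, ← derivative_map]
    simp only [eq_intCast, Int.cast_mul, C_mul]
    linear_combination (C (M : ℚ) * C (N : ℚ)) * huv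
  refine ⟨(M * N).natAbs, fun p hp hD => ?_⟩
  have : Fact (p : ℕ).Prime := ⟨hp⟩
  have hne : ((M * N : ℤ) : ZMod p) ≠ 0 := by
    rw [Ne, ZMod.intCast_zmod_eq_zero_iff_dvd]
    intro h
    have h1 : (M * N).natAbs ≠ 0 := Int.natAbs_ne_zero.2 (mul_ne_zero hM hN)
    have h2 : p ∣ (M * N).natAbs := Int.natCast_dvd.1 h
    exact absurd (Nat.le_of_dvd (Nat.pos_of_ne_zero h1) h2) (by omega)
  have h1 := congrArg (Polynomial.map (Int.castRingHom (ZMod p))) key
  rw [Polynomial.map_add, Polynomial.map_mul, Polynomial.map_mul, Polynomial.map_mul,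
      Polynomial.map_mul, map_C, map_C, map_C, ← derivative_map] at h1
  simp only [eq_intCast] at h1
  refine ⟨C (((M * N : ℤ) : ZMod p)⁻¹) * (C ((M : ℤ) : ZMod p) * U.map (Int.castRingHom (ZMod p))),
    C (((M * N : ℤ) : ZMod p)⁻¹) * (C ((N : ℤ) : ZMod p) * V.map (Int.castRingHom (ZMod p))), ?_⟩
  have h2 : C (((M * N : ℤ) : ZMod p)⁻¹) * C ((M * N : ℤ) : ZMod p) = 1 := by
    rw [← C_mul, inv_mul_cancel₀ hne, C_1]
  rw [← h2]
  linear_combination (C (((M * N : ℤ) : ZMod p)⁻¹)) * h1

/-- the lower coefficients -/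
def lowc (f : ℤ[X]) : List ℤ := (List.range f.natDegree).map f.coeff

theorem lowc_length (f : ℤ[X]) : (lowc f).length = f.natDegree := by simp [lowc]

theorem isRt_lowc {f : ℤ[X]} (hm : f.Monic) {κ : Type} [CommRing κ] {z : κ} :
    IsRt (lowc f) z ↔ f.eval₂ (Int.castRingHom κ) z = 0 := by
  unfold IsRt
  rw [lowc_length]
  have h1 : f.eval₂ (Int.castRingHom κ) z =
      z ^ f.natDegree + ∑ k ∈ Finset.range f.natDegree, (((lowc f).getD k 0 : ℤ) : κ) * z ^ k := by
    conv_lhs => rw [hm.as_sum]
    rw [eval₂_add, eval₂_X_pow, eval₂_finsetSum]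
    congr 1
    refine Finset.sum_congr rfl fun k hk => ?_
    rw [eval₂_mul, eval₂_C, eval₂_X_pow]
    congr 1
    unfold lowc
    rw [List.getD_eq_getElem?_getD, List.getElem?_map, List.getElem?_range (Finset.mem_range.1 hk)]
    simp
  rw [h1]

/-- a root which is not in the list of candidates is not separated from another root -/
theorem exists_unsep {f : ℤ[X]} (hm : f.Monic) (hd : 0 < f.natDegree) {p : ℕ} [Fact p.Prime]
    (hsep : (f.map (Int.castRingHom (ZMod p))).Separable) {n L H : ℕ} {r : ZMod p}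
    (hr : f.eval₂ (Int.castRingHom (ZMod p)) r = 0) (hbad : r.val ∉ rlist (lowc f) p n L H) :
    ∃ r' : ZMod p, f.eval₂ (Int.castRingHom (ZMod p)) r' = 0 ∧ r' ≠ r ∧
      Unsep (lowc f) p n L H r r' := by
  classical
  set Ω := AlgebraicClosure (ZMod p) with hΩ
  set g := f.map (Int.castRingHom (ZMod p)) with hg
  have hgm : g.Monic := hm.map _
  have hgd : g.natDegree = f.natDegree := hm.natDegree_map _
  set Z : Finset Ω := (g.aroots Ω).toFinset with hZ
  have hmem : ∀ z : Ω, z ∈ Z ↔ IsRt (lowc f) z := by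
    intro z
    rw [hZ, Multiset.mem_toFinset, mem_aroots, isRt_lowc hm]
    have h1 : aeval z g = f.eval₂ (Int.castRingHom Ω) z := by
      rw [aeval_def, hg, eval₂_map]
      congr 1
    rw [h1]
    exact ⟨fun h => h.2, fun h => ⟨hgm.ne_zero, h⟩⟩
  have hcard : Z.card = (lowc f).length := by
    rw [lowc_length, ← hgd]
    have h1 := card_rootSet_eq_natDegree (K := Ω) hsep (IsAlgClosed.splits _)
    have h2 : Fintype.card (g.rootSet Ω) = Z.card := by
      simp only [rootSet_def, ← hZ]
      exact Fintype.card_coe Z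
    rw [← h2]
    convert! h1
  have hc : 0 < (lowc f).length := by rw [lowc_length]; exact hd
  by_contra hcon
  push Not at hcon
  apply hbad
  refine rlist_correct hc Ω Z hcard (fun z hz => (hmem z).1 hz) ?_ ((hmem _).2 ?_) ?_
  · intro z hz
    have hzi : IsIntegral (ZMod p) z := Algebra.IsIntegral.isIntegral z
    refine ⟨(minpoly (ZMod p) z).natDegree, minpoly.natDegree_pos hzi, ?_, ?_⟩
    · rw [lowc_length, ← hgd]
      apply natDegree_le_of_dvd _ hgm.ne_zero
      apply minpoly.dvd
      rw [hZ, Multiset.mem_toFinset, mem_aroots] at hz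
      exact hz.2
    · have : FiniteDimensional (ZMod p) (IntermediateField.adjoin (ZMod p) {z}) :=
        IntermediateField.adjoin.finiteDimensional hzi
      have : Finite (IntermediateField.adjoin (ZMod p) {z}) :=
        Module.finite_of_finite (ZMod p)
      have := Fintype.ofFinite (IntermediateField.adjoin (ZMod p) {z})
      have h1 : Fintype.card (IntermediateField.adjoin (ZMod p) {z}) =
          p ^ (minpoly (ZMod p) z).natDegree := by
        rw [Module.card_eq_pow_finrank (K := ZMod p), ZMod.card,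
          IntermediateField.adjoin.finrank hzi]
      have h2 := FiniteField.pow_card (IntermediateField.AdjoinSimple.gen (ZMod p) z)
      rw [h1] at h2
      have h3 := congrArg (fun y : IntermediateField.adjoin (ZMod p) {z} => (y : Ω)) h2
      simpa using h3
  · rw [isRt_map]
    exact (isRt_lowc hm).2 hr
  · intro r' hr' hne
    have h1 := (hmem _).1 hr'
    rw [isRt_map] at h1
    exact hcon r' ((isRt_lowc hm).1 h1) hne

end Pool.Agent.Helper303_RF
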