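import Mathlib

/-!
# The second moment
-/

set_option autoImplicit false

namespace Pool.Agent.Helper303_RF

open Finset

theorem cnt_bounds {r : ℕ} (hr : 0 < r) (a : ℤ) (N : ℕ) (v : ℤ) :
    ((N : ℝ) / r - 1 ≤ (((Ico a (a + N)).filter fun x : ℤ => x ≡ v [ZMOD r]).card : ℝ)) ∧
      ((((Ico a (a + N)).filter fun x : ℤ => x ≡ v [ZMOD r]).card : ℝ) ≤ (N : ℝ) / r + 1) := by
  have hr' : (0 : ℤ) < r := by exact_mod_cast hr
  have h := Int.Ico_filter_modEq_card a (a + N) hr' v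
  have hrQ : (0 : ℚ) < r := by exact_mod_cast hr
  have e1 : ((⌈(((a + N : ℤ) - v : ℚ)) / ((r : ℤ) : ℚ)⌉ : ℤ) : ℚ) - ((⌈((a - v : ℚ)) / ((r : ℤ) : ℚ)⌉ : ℤ) : ℚ)
      ≤ (N : ℚ) / r + 1 := by
    have h1 := Int.ceil_lt_add_one ((((a + N : ℤ) - v : ℚ)) / ((r : ℤ) : ℚ))
    have h2 := Int.le_ceil (((a - v : ℚ)) / ((r : ℤ) : ℚ))
    have h3 : (((a + N : ℤ) - v : ℚ)) / ((r : ℤ) : ℚ) - ((a - v : ℚ)) / ((r : ℤ) : ℚ) = (N : ℚ) / r := by
      push_cast
      field_simp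
      ring
    linarith
  have e2 : (N : ℚ) / r - 1 ≤ ((⌈(((a + N : ℤ) - v : ℚ)) / ((r : ℤ) : ℚ)⌉ : ℤ) : ℚ) -
      ((⌈((a - v : ℚ)) / ((r : ℤ) : ℚ)⌉ : ℤ) : ℚ) := by
    have h1 := Int.le_ceil ((((a + N : ℤ) - v : ℚ)) / ((r : ℤ) : ℚ))
    have h2 := Int.ceil_lt_add_one (((a - v : ℚ)) / ((r : ℤ) : ℚ))
    have h3 : (((a + N : ℤ) - v : ℚ)) / ((r : ℤ) : ℚ) - ((a - v : ℚ)) / ((r : ℤ) : ℚ) = (N : ℚ) / r := by
      push_cast
      field_simp
      ring
    linarith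
  set c : ℤ := ⌈(((a + N : ℤ) - v : ℚ)) / ((r : ℤ) : ℚ)⌉ - ⌈((a - v : ℚ)) / ((r : ℤ) : ℚ)⌉ with hc
  have e3 : (c : ℚ) ≤ (N : ℚ) / r + 1 := by rw [hc]; push_cast; push_cast at e1; exact e1
  have e4 : (N : ℚ) / r - 1 ≤ (c : ℚ) := by rw [hc]; push_cast; push_cast at e2; exact e2
  have hcard : (((((Ico a (a + N)).filter fun x : ℤ => x ≡ v [ZMOD r]).card : ℤ)) : ℚ) =
      ((max c 0 : ℤ) : ℚ) := by
    rw [h]
  have e5 : (N : ℚ) / r - 1 ≤ (((((Ico a (a + N)).filter fun x : ℤ => x ≡ v [ZMOD r]).card : ℤ)) : ℚ) := by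
    rw [hcard]
    refine e4.trans ?_
    exact_mod_cast le_max_left c 0
  have e6 : (((((Ico a (a + N)).filter fun x : ℤ => x ≡ v [ZMOD r]).card : ℤ)) : ℚ) ≤ (N : ℚ) / r + 1 := by
    rw [hcard]
    rcases max_cases c 0 with ⟨h1, -⟩ | ⟨h1, -⟩
    · rw [h1]; exact e3
    · rw [h1]
      push_cast
      positivity
  constructor
  · have := (Rat.cast_le (K := ℝ)).2 e5
    push_cast at this
    exact this
  · have := (Rat.cast_le (K := ℝ)).2 e6
    push_cast at this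
    exact this

theorem cnt1 {p : ℕ} (hp : 0 < p) (a : ℤ) (N : ℕ) (z : ZMod p) :
    ((N : ℝ) / p - 1 ≤ (((Ico a (a + N)).filter fun x : ℤ => (x : ZMod p) = z).card : ℝ)) ∧
      ((((Ico a (a + N)).filter fun x : ℤ => (x : ZMod p) = z).card : ℝ) ≤ (N : ℝ) / p + 1) := by
  have := NeZero.mk hp.ne'
  have h := cnt_bounds hp a N (z.val : ℤ)
  have e : (Ico a (a + N)).filter (fun x : ℤ => (x : ZMod p) = z) =
      (Ico a (a + N)).filter (fun x : ℤ => x ≡ (z.val : ℤ) [ZMOD p]) := by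
    refine filter_congr fun x _ => ?_
    rw [← ZMod.intCast_eq_intCast_iff]
    simp
  rw [e]
  exact h

theorem cnt2 {p p' : ℕ} (hp : p.Prime) (hp' : p'.Prime) (hne : p ≠ p') (a : ℤ) (N : ℕ)
    (z : ZMod p) (z' : ZMod p') :
    (((Ico a (a + N)).filter fun x : ℤ => (x : ZMod p) = z ∧ (x : ZMod p') = z').card : ℝ) ≤
      (N : ℝ) / (p * p') + 1 := by
  have := NeZero.mk hp.ne_zero
  have := NeZero.mk hp'.ne_zero
  have hcop : Nat.Coprime p p' := (Nat.coprime_primes hp hp').2 hne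
  obtain ⟨w, hw1, hw2⟩ := Nat.chineseRemainder hcop z.val z'.val
  have h := (cnt_bounds (Nat.mul_pos hp.pos hp'.pos) a N (w : ℤ)).2
  have e : (Ico a (a + N)).filter (fun x : ℤ => (x : ZMod p) = z ∧ (x : ZMod p') = z') =
      (Ico a (a + N)).filter (fun x : ℤ => x ≡ (w : ℤ) [ZMOD ((p * p' : ℕ) : ℤ)]) := by
    refine filter_congr fun x _ => ?_
    have h1 : (x : ZMod p) = z ↔ x ≡ (w : ℤ) [ZMOD p] := by
      rw [← ZMod.intCast_eq_intCast_iff]
      have : ((w : ℤ) : ZMod p) = z := by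
        rw [Int.cast_natCast, (ZMod.natCast_eq_natCast_iff _ _ _).2 hw1]
        simp
      rw [this]
    have h2 : (x : ZMod p') = z' ↔ x ≡ (w : ℤ) [ZMOD p'] := by
      rw [← ZMod.intCast_eq_intCast_iff]
      have : ((w : ℤ) : ZMod p') = z' := by
        rw [Int.cast_natCast, (ZMod.natCast_eq_natCast_iff _ _ _).2 hw2]
        simp
      rw [this]
    rw [h1, h2]
    push_cast
    exact Int.modEq_and_modEq_iff_modEq_mul (by simpa using hcop)
  rw [e]
  push_cast at h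
  push_cast
  exact h

/-- the box -/
noncomputable def box (n : ℕ) (a : ℤ) (N : ℕ) : Finset (Fin n → ℤ) := Fintype.piFinset fun _ => Ico a (a + N)

theorem box_card (n : ℕ) (a : ℤ) (N : ℕ) : (box n a N).card = N ^ n := by
  unfold box
  rw [Fintype.card_piFinset]
  simp

/-- reduction of a vector -/
def redu {n : ℕ} (p : ℕ) (b : Fin n → ℤ) : Fin n → ZMod p := fun i => (b i : ZMod p)

theorem box_fib {n : ℕ} (a : ℤ) (N : ℕ) {p : ℕ} (z : Fin n → ZMod p) :
    ((box n a N).filter fun b => redu p b = z).card =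
      ∏ i, ((Ico a (a + N)).filter fun x : ℤ => (x : ZMod p) = z i).card := by
  rw [← Fintype.card_piFinset]
  congr 1
  ext b
  simp only [box, mem_filter, Fintype.mem_piFinset, redu, funext_iff]
  exact forall_and.symm

theorem box_fib2 {n : ℕ} (a : ℤ) (N : ℕ) {p p' : ℕ} (z : Fin n → ZMod p) (z' : Fin n → ZMod p') :
    ((box n a N).filter fun b => redu p b = z ∧ redu p' b = z').card =
      ∏ i, ((Ico a (a + N)).filter fun x : ℤ => (x : ZMod p) = z i ∧ (x : ZMod p') = z' i).card := by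
  rw [← Fintype.card_piFinset]
  congr 1
  ext b
  simp only [box, mem_filter, Fintype.mem_piFinset, redu, funext_iff]
  simp only [forall_and]

theorem T1_bounds {n : ℕ} (a : ℤ) {N p : ℕ} (hp : 0 < p) (hpN : p ≤ N)
    (A : Finset (Fin n → ZMod p)) :
    (A.card : ℝ) * ((N : ℝ) / p - 1) ^ n ≤
      (((box n a N).filter fun b => redu p b ∈ A).card : ℝ) ∧
    (((box n a N).filter fun b => redu p b ∈ A).card : ℝ) ≤
      (A.card : ℝ) * ((N : ℝ) / p + 1) ^ n := by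
  have hp0 : (0 : ℝ) < p := by exact_mod_cast hp
  have h0 : 0 ≤ (N : ℝ) / p - 1 := by
    rw [sub_nonneg, le_div_iff₀ hp0, one_mul]
    exact_mod_cast hpN
  have h1 : (((box n a N).filter fun b => redu p b ∈ A).card : ℝ) =
      ∑ z ∈ A, (((box n a N).filter fun b => redu p b = z).card : ℝ) := by
    rw [card_eq_sum_card_fiberwise (f := redu p)
      (s := (box n a N).filter fun b => redu p b ∈ A) (t := A)
      (fun b hb => (mem_filter.1 (mem_coe.1 hb)).2)]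
    push_cast
    refine sum_congr rfl fun z hz => ?_
    congr 2
    ext b
    simp only [mem_filter]
    constructor
    · rintro ⟨⟨h1, _⟩, h3⟩
      exact ⟨h1, h3⟩
    · rintro ⟨h1, h3⟩
      exact ⟨⟨h1, h3 ▸ hz⟩, h3⟩
  rw [h1]
  constructor
  · rw [← nsmul_eq_mul, ← sum_const]
    refine sum_le_sum fun z _ => ?_
    rw [box_fib]
    push_cast
    calc ((N : ℝ) / p - 1) ^ n = ∏ _i : Fin n, ((N : ℝ) / p - 1) := by simp
      _ ≤ _ := prod_le_prod (fun _ _ => h0) fun i _ => (cnt1 hp a N (z i)).1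
  · rw [← nsmul_eq_mul, ← sum_const]
    refine sum_le_sum fun z _ => ?_
    rw [box_fib]
    push_cast
    calc _ ≤ ∏ _i : Fin n, ((N : ℝ) / p + 1) :=
          prod_le_prod (fun _ _ => by positivity) fun i _ => (cnt1 hp a N (z i)).2
      _ = ((N : ℝ) / p + 1) ^ n := by simp

theorem T2_bound {n : ℕ} (a : ℤ) {N p p' : ℕ} (hp : p.Prime) (hp' : p'.Prime) (hne : p ≠ p')
    (A : Finset (Fin n → ZMod p)) (A' : Finset (Fin n → ZMod p')) :
    (((box n a N).filter fun b => redu p b ∈ A ∧ redu p' b ∈ A').card : ℝ) ≤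
      (A.card : ℝ) * (A'.card : ℝ) * ((N : ℝ) / (p * p') + 1) ^ n := by
  have h1 : (((box n a N).filter fun b => redu p b ∈ A ∧ redu p' b ∈ A').card : ℝ) =
      ∑ z ∈ A ×ˢ A', (((box n a N).filter fun b => redu p b = z.1 ∧ redu p' b = z.2).card : ℝ) := by
    rw [card_eq_sum_card_fiberwise (f := fun b => (redu p b, redu p' b))
      (s := (box n a N).filter fun b => redu p b ∈ A ∧ redu p' b ∈ A') (t := A ×ˢ A')
      (fun b hb => mem_coe.2 (mem_product.2 (mem_filter.1 (mem_coe.1 hb)).2))]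
    push_cast
    refine sum_congr rfl fun z hz => ?_
    congr 2
    ext b
    simp only [mem_filter, Prod.ext_iff]
    constructor
    · rintro ⟨⟨h1, _⟩, h3⟩
      exact ⟨h1, h3⟩
    · rintro ⟨h1, h3⟩
      refine ⟨⟨h1, ?_⟩, h3⟩
      rw [h3.1, h3.2]
      exact mem_product.1 hz
  rw [h1, ← Nat.cast_mul, ← card_product, ← nsmul_eq_mul, ← sum_const]
  refine sum_le_sum fun z _ => ?_
  rw [box_fib2]
  push_cast
  calc _ ≤ ∏ _i : Fin n, ((N : ℝ) / (p * p') + 1) :=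
        prod_le_prod (fun _ _ => by positivity) fun i _ => cnt2 hp hp' hne a N (z.1 i) (z.2 i)
    _ = ((N : ℝ) / (p * p') + 1) ^ n := by simp

/-- `a ^ n - b ^ n ≤ n a ^ (n - 1) (a - b)` -/
theorem pow_sub_le {x y : ℝ} (hy : 0 ≤ y) (hyx : y ≤ x) : ∀ n : ℕ,
    x ^ n - y ^ n ≤ n * x ^ (n - 1) * (x - y) := by
  intro n
  induction n with
  | zero => simp
  | succ n ih =>
    rw [Nat.add_sub_cancel]
    have hx : 0 ≤ x := hy.trans hyx
    rcases Nat.eq_zero_or_pos n with h | h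
    · subst h; simp
    · have h1 : x ^ n = x ^ (n - 1) * x := by rw [← pow_succ, Nat.sub_add_cancel h]
      have h2 : y ^ n ≤ x ^ n := pow_le_pow_left₀ hy hyx n
      have h3 : (x ^ n - y ^ n) * x ≤ n * x ^ (n - 1) * (x - y) * x :=
        mul_le_mul_of_nonneg_right ih hx
      have h4 : y ^ n * (x - y) ≤ x ^ n * (x - y) :=
        mul_le_mul_of_nonneg_right h2 (by linarith)
      push_cast
      calc x ^ (n + 1) - y ^ (n + 1) = (x ^ n - y ^ n) * x + y ^ n * (x - y) := by ring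
        _ ≤ n * x ^ (n - 1) * (x - y) * x + x ^ n * (x - y) := add_le_add h3 h4
        _ = (n + 1) * x ^ n * (x - y) := by
            rw [show (n : ℝ) * x ^ (n - 1) * (x - y) * x = n * (x ^ (n - 1) * x) * (x - y) by ring,
              ← h1]
            ring

end Pool.Agent.Helper303_RF
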