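import Mathlib
import Pool.Agent.Helper303_RF.Sep
import Pool.Agent.Helper303_RF.Sieve

/-!
# The vectors whose values at two roots are in the group
-/

set_option autoImplicit false

namespace Pool.Agent.Helper303_RF

open Finset
open Pool.Agent.H595R2.PR (md pw strip)

/-- value of a vector over `F_p` -/
def vl {n p : ℕ} (r : ZMod p) (z : Fin n → ZMod p) : ZMod p := ∑ i, z i * r ^ (i : ℕ)

theorem vl_redu {n p : ℕ} (r : ZMod p) (b : Fin n → ℤ) : vl r (redu p b) = val r b := rfl

open Classical in
/-- the vectors whose values at `r`, `r'` are in the group `G` -/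
noncomputable def AA (n : ℕ) {p : ℕ} [Fact p.Prime] (r r' : ZMod p)
    (G : Subgroup ((ZMod p)ˣ × (ZMod p)ˣ)) : Finset (Fin n → ZMod p) :=
  univ.filter fun z => ∃ g ∈ G, (g.1 : ZMod p) = vl r z ∧ (g.2 : ZMod p) = vl r' z

theorem AA_card {n : ℕ} (hn : 2 ≤ n) {p : ℕ} [Fact p.Prime] {r r' : ZMod p} (hne : r' ≠ r)
    (G : Subgroup ((ZMod p)ˣ × (ZMod p)ˣ)) :
    (AA n r r' G).card * p ^ 2 = Nat.card G * p ^ n := by
  classical
  have hp : p.Prime := Fact.out
  set ψ : (Fin n → ZMod p) →+ ZMod p × ZMod p :=
    { toFun := fun z => (vl r z, vl r' z)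
      map_zero' := by simp [vl]
      map_add' := by
        intro x y
        simp [vl, add_mul, sum_add_distrib] } with hψ
  have hsurj : Function.Surjective ψ := by
    rintro ⟨u, u'⟩
    set i0 : Fin n := ⟨0, by omega⟩
    set i1 : Fin n := ⟨1, by omega⟩
    have h01 : i0 ≠ i1 := by
      intro h
      have := congrArg Fin.val h
      simp [i0, i1] at this
    have hd : r' - r ≠ 0 := sub_ne_zero.2 hne
    set y : ZMod p := (u' - u) / (r' - r) with hy
    set x : ZMod p := u - y * r with hx
    refine ⟨fun i => if i = i0 then x else if i = i1 then y else 0, ?_⟩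
    have hval : ∀ s : ZMod p, vl s (fun i : Fin n => if i = i0 then x else if i = i1 then y else 0)
        = x + y * s := by
      intro s
      unfold vl
      have h1 : ∀ i : Fin n, (if i = i0 then x else if i = i1 then y else 0) * s ^ (i : ℕ) =
          (if i = i0 then x * s ^ (i : ℕ) else 0) + (if i = i1 then y * s ^ (i : ℕ) else 0) := by
        intro i
        by_cases h2 : i = i0
        · rw [if_pos h2, if_pos h2, if_neg (by rw [h2]; exact h01), add_zero]
        · rw [if_neg h2, if_neg h2]
          by_cases h3 : i = i1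
          · rw [if_pos h3, if_pos h3, zero_add]
          · rw [if_neg h3, if_neg h3, zero_mul, add_zero]
      simp_rw [h1]
      rw [sum_add_distrib, sum_ite_eq' univ i0, sum_ite_eq' univ i1]
      simp [i0, i1]
    have e1 : ψ (fun i => if i = i0 then x else if i = i1 then y else 0) =
      (vl r (fun i : Fin n => if i = i0 then x else if i = i1 then y else 0),
       vl r' (fun i : Fin n => if i = i0 then x else if i = i1 then y else 0)) := rfl
    rw [e1, hval, hval]
    refine Prod.ext ?_ ?_
    · simp only [hx]; ring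
    · simp only [hx]
      have : y * (r' - r) = u' - u := by rw [hy]; exact div_mul_cancel₀ _ hd
      linear_combination this
  -- all fibres have the same size
  set F : ℕ := (univ.filter fun z => ψ z = 0).card with hF
  have hfib : ∀ w : ZMod p × ZMod p, (univ.filter fun z => ψ z = w).card = F := by
    intro w
    exact AddMonoidHom.card_fiber_eq_of_mem_range ψ (hsurj w) (hsurj 0)
  have htot : p ^ n = p ^ 2 * F := by
    have h1 : (univ : Finset (Fin n → ZMod p)).card = ∑ w : ZMod p × ZMod p,
        (univ.filter fun z => ψ z = w).card := by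
      apply card_eq_sum_card_fiberwise
      intro z _
      exact mem_coe.2 (mem_univ _)
    simp_rw [hfib] at h1
    rw [sum_const, card_univ, card_univ, Fintype.card_prod, ZMod.card, Fintype.card_pi] at h1
    simp only [ZMod.card, prod_const, card_univ, Fintype.card_fin, smul_eq_mul] at h1
    rw [h1, sq]
  have hA : (AA n r r' G).card = Nat.card G * F := by
    set T : Finset (ZMod p × ZMod p) := (univ.filter fun g : (ZMod p)ˣ × (ZMod p)ˣ => g ∈ G).image
      (fun g => ((g.1 : ZMod p), (g.2 : ZMod p))) with hT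
    have hTc : T.card = Nat.card G := by
      rw [hT, card_image_of_injective]
      · rw [Nat.card_eq_fintype_card, Fintype.card_subtype]
      · rintro ⟨a, b⟩ ⟨a', b'⟩ h
        simp only [Prod.mk.injEq] at h
        exact Prod.ext (Units.ext h.1) (Units.ext h.2)
    have h1 : (AA n r r' G).card = ∑ w ∈ T, ((AA n r r' G).filter fun z => ψ z = w).card := by
      apply card_eq_sum_card_fiberwise
      intro z hz
      obtain ⟨g, hg, h1, h2⟩ := (mem_filter.1 (mem_coe.1 hz)).2
      refine mem_coe.2 (mem_image.2 ⟨g, mem_filter.2 ⟨mem_univ _, hg⟩, ?_⟩)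
      exact Prod.ext h1 h2
    rw [h1, ← hTc, ← smul_eq_mul, ← sum_const]
    refine sum_congr rfl fun w hw => ?_
    rw [← hfib w]
    congr 1
    ext z
    simp only [mem_filter, mem_univ, true_and, AA, and_iff_right_iff_imp]
    intro hz
    obtain ⟨g, hg, h2⟩ := mem_image.1 hw
    refine ⟨g, (mem_filter.1 hg).2, ?_⟩
    rw [← h2] at hz
    exact ⟨(congrArg Prod.fst hz).symm, (congrArg Prod.snd hz).symm⟩
  rw [hA, htot]
  ring

theorem mem_cube (l : List ℕ) : ∀ y : List ℕ, (∀ x ∈ y, x ∈ l) → y ∈ cube y.length l := by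
  intro y
  induction y with
  | nil => intro _; simp [cube]
  | cons x y ih =>
    intro h
    rw [List.length_cons, cube]
    exact List.mem_flatMap.2 ⟨x, h x (List.mem_cons_self ..), List.mem_map.2 ⟨y,
      ih (fun z hz => h z (List.mem_cons_of_mem _ hz)), rfl⟩⟩

/-- small integer vectors are in the cube -/
theorem small_mem {n : ℕ} {p : ℕ} [Fact p.Prime] {H : ℕ} (a : Fin n → ℤ)
    (ha : ∀ i, |a i| ≤ (H : ℤ)) :
    ∃ α ∈ cube n (smallC p H), ∀ z : ZMod p, ev n z α = val z a := by
  have hp : p.Prime := Fact.out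
  set g : Fin n → ℕ := fun i => md p ((a i + H).toNat + H * (p - 1)) with hg
  refine ⟨List.ofFn g, ?_, ?_⟩
  · have h1 := mem_cube (smallC p H) (List.ofFn g) (by
      intro x hx
      obtain ⟨i, rfl⟩ := List.mem_ofFn.1 hx
      unfold smallC
      refine List.mem_map.2 ⟨(a i + H).toNat, List.mem_range.2 ?_, rfl⟩
      have h2 := ha i
      rw [abs_le] at h2
      omega)
    rwa [List.length_ofFn] at h1
  · intro z
    unfold ev val
    rw [← Fin.sum_univ_eq_sum_range (fun k => (((List.ofFn g).getD k 0 : ℕ) : ZMod p) * z ^ k)]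
    refine sum_congr rfl fun i _ => ?_
    congr 1
    have h1 : (List.ofFn g).getD i 0 = g i := by
      rw [List.getD_eq_getElem?_getD, List.getElem?_ofFn]
      simp
    rw [h1]
    simp only [hg]
    rw [cast_md (p := p)]
    push_cast
    rw [cast_pm1 (p := p)]
    have h2 : (((a i + H).toNat : ℕ) : ZMod p) = (a i : ZMod p) + H := by
      have h3 : ((a i + H).toNat : ℤ) = a i + H := by
        have := ha i
        rw [abs_le] at this
        omega
      rw [← Int.cast_natCast, h3]
      push_cast
      rfl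
    rw [h2]
    ring

/-- products of small elements are in the group -/
theorem prod_mem {c : List ℤ} {p : ℕ} [Fact p.Prime] {H : ℕ} (r r' : ZMod p)
    (T : List (Fin c.length → ℤ)) (hT : ∀ a ∈ T, ∀ i, |a i| ≤ (H : ℤ))
    (h0 : ∀ a ∈ T, val r a ≠ 0) (h0' : ∀ a ∈ T, val r' a ≠ 0) :
    ∃ g ∈ GG c p H r r', (g.1 : ZMod p) = (T.map (val r)).prod ∧
      (g.2 : ZMod p) = (T.map (val r')).prod := by
  induction T with
  | nil => exact ⟨1, one_mem _, by simp, by simp⟩
  | cons a T ih =>
    obtain ⟨g, hg, h1, h2⟩ := ih (fun b hb => hT b (List.mem_cons_of_mem _ hb))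
      (fun b hb => h0 b (List.mem_cons_of_mem _ hb)) (fun b hb => h0' b (List.mem_cons_of_mem _ hb))
    obtain ⟨α, hα, hα2⟩ := small_mem (p := p) a (hT a (List.mem_cons_self ..))
    refine ⟨(Units.mk0 _ (h0 a (List.mem_cons_self ..)),
      Units.mk0 _ (h0' a (List.mem_cons_self ..))) * g, mul_mem (Subgroup.subset_closure
        ⟨α, hα, ?_, ?_⟩) hg, ?_, ?_⟩
    · rw [hα2]; rfl
    · rw [hα2]; rfl
    · rw [List.map_cons, List.prod_cons, ← h1]; rfl
    · rw [List.map_cons, List.prod_cons, ← h2]; rfl

end Pool.Agent.Helper303_RF
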