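import Mathlib
import Pool.Agent.Helper303_RF.Sieve

/-!
# The second moment, weighted
-/

set_option autoImplicit false

namespace Pool.Agent.Helper303_RF

open Finset

open Classical in
theorem sieve {n : ℕ} (hn : 0 < n) (E : Finset ℕ) (Q N : ℕ) (a : ℤ)
    (hE : ∀ p ∈ E, p.Prime ∧ p ≤ Q) (hQN : Q ^ 2 ≤ N) (A : (p : ℕ) → Finset (Fin n → ZMod p))
    (D : ℕ → ℝ) (hD : ∀ p ∈ E, 2 ≤ D p ∧ D p * ((A p).card : ℝ) = (p : ℝ) ^ n)
    (S : Finset (Fin n → ℤ)) (hS : S ⊆ box n a N) (hSA : ∀ b ∈ S, ∀ p ∈ E, redu p b ∈ A p)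
    (hbig : (n : ℝ) * 2 ^ (n + 2) * (N : ℝ) ^ (n - 1) * (Q : ℝ) ^ 2 ≤ S.card) :
    (∑ p ∈ E, (D p - 1)) * S.card ≤ 2 ^ (n + 1) * (N : ℝ) ^ n := by
  set W : ℝ := ∑ p ∈ E, (D p - 1) with hW
  set φ : ℕ → (Fin n → ℤ) → ℝ := fun p b => D p * (if redu p b ∈ A p then 1 else 0) - 1 with hφ
  set T : ℕ → ℝ := fun p => (((box n a N).filter fun b => redu p b ∈ A p).card : ℝ) with hT
  have hN0 : (0 : ℝ) ≤ N := by positivity
  have hQN' : (Q : ℝ) ^ 2 ≤ N := by exact_mod_cast hQN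
  -- the moments
  have hmom : ∀ p p' : ℕ, ∑ b ∈ box n a N, φ p b * φ p' b =
      D p * D p' * (((box n a N).filter fun b => redu p b ∈ A p ∧ redu p' b ∈ A p').card : ℝ) -
        D p * T p - D p' * T p' + (N : ℝ) ^ n := by
    intro p p'
    have h1 : ∀ b, φ p b * φ p' b = D p * D p' *
        (if redu p b ∈ A p ∧ redu p' b ∈ A p' then 1 else 0) - D p * (if redu p b ∈ A p then 1 else 0)
        - D p' * (if redu p' b ∈ A p' then 1 else 0) + 1 := by
      intro b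
      simp only [hφ]
      by_cases h2 : redu p b ∈ A p <;> by_cases h3 : redu p' b ∈ A p' <;> simp [h2, h3] <;> ring
    simp_rw [h1]
    rw [sum_add_distrib, sum_sub_distrib, sum_sub_distrib, ← mul_sum, ← mul_sum, ← mul_sum]
    simp only [sum_boole, sum_const, nsmul_eq_mul, mul_one, box_card]
    push_cast
    rfl
  have hp0 : ∀ p ∈ E, (0 : ℝ) < p := fun p hp => by exact_mod_cast (hE p hp).1.pos
  have hpQ : ∀ p ∈ E, (p : ℝ) ≤ Q := fun p hp => by exact_mod_cast (hE p hp).2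
  have hQ1 : ∀ p ∈ E, (1 : ℝ) ≤ Q := fun p hp =>
    le_trans (by exact_mod_cast (hE p hp).1.one_lt.le) (hpQ p hp)
  have hpN : ∀ p ∈ E, p ≤ N := fun p hp => by
    have h1 := (hE p hp).2
    have h2 := (hE p hp).1.pos
    nlinarith
  set Z : ℝ := n * 2 ^ (n + 1) * (N : ℝ) ^ (n - 1) * (Q : ℝ) ^ 2 with hZ
  -- the off-diagonal terms
  have hoff : ∀ p ∈ E, ∀ p' ∈ E, p ≠ p' → ∑ b ∈ box n a N, φ p b * φ p' b ≤ Z := by
    intro p hp p' hp' hne
    rw [hmom]
    obtain ⟨hD1, hD2⟩ := hD p hp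
    obtain ⟨hD1', hD2'⟩ := hD p' hp'
    have h1 := T2_bound (n := n) a (N := N) (hE p hp).1 (hE p' hp').1 hne (A p) (A p')
    have h2 := (T1_bounds (n := n) a (hE p hp).1.pos (hpN p hp) (A p)).1
    have h3 := (T1_bounds (n := n) a (hE p' hp').1.pos (hpN p' hp') (A p')).1
    have hp1 := hp0 p hp
    have hp1' := hp0 p' hp'
    have e1 : D p * D p' * (((box n a N).filter fun b => redu p b ∈ A p ∧
        redu p' b ∈ A p').card : ℝ) ≤ (N + p * p') ^ n := by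
      calc _ ≤ D p * D p' * (((A p).card : ℝ) * ((A p').card : ℝ) *
            ((N : ℝ) / (p * p') + 1) ^ n) := by gcongr
        _ = (D p * (A p).card) * (D p' * (A p').card) * ((N : ℝ) / (p * p') + 1) ^ n := by ring
        _ = (p * p' * ((N : ℝ) / (p * p') + 1)) ^ n := by
            rw [hD2, hD2', mul_pow, mul_pow]
        _ = (N + p * p') ^ n := by
            congr 1
            field_simp
    have e2 : (N - p : ℝ) ^ n ≤ D p * T p := by
      calc (N - p : ℝ) ^ n = (p * ((N : ℝ) / p - 1)) ^ n := by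
            congr 1
            field_simp
        _ = (D p * (A p).card) * ((N : ℝ) / p - 1) ^ n := by rw [hD2, mul_pow]
        _ = D p * ((A p).card * ((N : ℝ) / p - 1) ^ n) := by ring
        _ ≤ D p * T p := by gcongr
    have e3 : (N - p' : ℝ) ^ n ≤ D p' * T p' := by
      calc (N - p' : ℝ) ^ n = (p' * ((N : ℝ) / p' - 1)) ^ n := by
            congr 1
            field_simp
        _ = (D p' * (A p').card) * ((N : ℝ) / p' - 1) ^ n := by rw [hD2', mul_pow]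
        _ = D p' * ((A p').card * ((N : ℝ) / p' - 1) ^ n) := by ring
        _ ≤ D p' * T p' := by gcongr
    have hQ := hQ1 p hp
    have hpq : (p : ℝ) * p' ≤ Q ^ 2 := by
      rw [sq]
      exact mul_le_mul (hpQ p hp) (hpQ p' hp') hp1'.le (by positivity)
    have e4 : ((N : ℝ) + p * p') ^ n ≤ (N + (Q : ℝ) ^ 2) ^ n := by gcongr
    have hQQ : (Q : ℝ) ≤ (Q : ℝ) ^ 2 := by nlinarith
    have e5 : (N - (Q : ℝ) ^ 2) ^ n ≤ (N - p : ℝ) ^ n := by
      have := hpQ p hp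
      exact pow_le_pow_left₀ (by linarith) (by linarith) n
    have e6 : (N - (Q : ℝ) ^ 2) ^ n ≤ (N - p' : ℝ) ^ n := by
      have := hpQ p' hp'
      exact pow_le_pow_left₀ (by linarith) (by linarith) n
    have e7 : (N : ℝ) ^ n ≤ (N + (Q : ℝ) ^ 2) ^ n := by gcongr; linarith [sq_nonneg (Q : ℝ)]
    have e8 := pow_sub_le (x := N + (Q : ℝ) ^ 2) (y := N - (Q : ℝ) ^ 2) (by linarith)
      (by linarith [sq_nonneg (Q : ℝ)]) n
    have e9 : (N + (Q : ℝ) ^ 2) ^ (n - 1) ≤ (2 * N : ℝ) ^ (n - 1) := by gcongr; linarith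
    have e10 : (n : ℝ) * (N + (Q : ℝ) ^ 2) ^ (n - 1) * ((N + (Q : ℝ) ^ 2) - (N - (Q : ℝ) ^ 2)) ≤
        n * (2 * N : ℝ) ^ (n - 1) * (2 * (Q : ℝ) ^ 2) := by
      rw [show (N + (Q : ℝ) ^ 2) - (N - (Q : ℝ) ^ 2) = 2 * (Q : ℝ) ^ 2 by ring]
      gcongr
    have e11 : Z = 2 * (n * (2 * N : ℝ) ^ (n - 1) * (2 * (Q : ℝ) ^ 2)) := by
      rw [hZ, mul_pow]
      obtain ⟨m, rfl⟩ : ∃ m, n = m + 1 := ⟨n - 1, by omega⟩
      rw [Nat.add_sub_cancel]
      ring
    linarith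
  -- the diagonal terms
  have hdiag : ∀ p ∈ E, ∑ b ∈ box n a N, φ p b * φ p b ≤ (D p - 1) * (2 ^ n * (N : ℝ) ^ n) := by
    intro p hp
    rw [hmom]
    obtain ⟨hD1, hD2⟩ := hD p hp
    have h1 : (((box n a N).filter fun b => redu p b ∈ A p ∧ redu p b ∈ A p).card : ℝ) = T p := by
      simp only [hT, and_self]
    rw [h1]
    have h2 := (T1_bounds (n := n) a (hE p hp).1.pos (hpN p hp) (A p)).2
    have hp1 := hp0 p hp
    have e1 : D p * T p ≤ (N + p) ^ n := by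
      calc D p * T p ≤ D p * ((A p).card * ((N : ℝ) / p + 1) ^ n) := by gcongr
        _ = (D p * (A p).card) * ((N : ℝ) / p + 1) ^ n := by ring
        _ = (p * ((N : ℝ) / p + 1)) ^ n := by rw [hD2, mul_pow]
        _ = (N + p) ^ n := by
            congr 1
            field_simp
    have e2 : ((N : ℝ) + p) ^ n ≤ 2 ^ n * N ^ n := by
      rw [← mul_pow]
      have : (p : ℝ) ≤ N := by exact_mod_cast hpN p hp
      gcongr
      linarith
    have e3 : (N : ℝ) ^ n ≤ 2 ^ n * N ^ n := by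
      have : (1 : ℝ) ≤ 2 ^ n := one_le_pow₀ (by norm_num)
      nlinarith [pow_nonneg hN0 n]
    have e4 : (D p - 2) * (D p * T p) ≤ (D p - 2) * (2 ^ n * N ^ n) :=
      mul_le_mul_of_nonneg_left (e1.trans e2) (by linarith)
    nlinarith
  have hEW : (E.card : ℝ) ≤ W := by
    rw [hW, ← nsmul_one, ← sum_const]
    exact sum_le_sum fun p hp => by linarith [(hD p hp).1]
  have hW0 : 0 ≤ W := le_trans (by positivity) hEW
  have hZ0 : 0 ≤ Z := by positivity
  have hupper : ∑ b ∈ box n a N, (∑ p ∈ E, φ p b) ^ 2 ≤ W * (2 ^ n * (N : ℝ) ^ n) + W ^ 2 * Z := by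
    have h1 : ∑ b ∈ box n a N, (∑ p ∈ E, φ p b) ^ 2 =
        ∑ p ∈ E, ∑ p' ∈ E, ∑ b ∈ box n a N, φ p b * φ p' b := by
      simp_rw [sq, sum_mul_sum]
      rw [sum_comm]
      refine sum_congr rfl fun p _ => ?_
      rw [sum_comm]
    rw [h1]
    have h2 : ∀ p ∈ E, ∀ p' ∈ E, ∑ b ∈ box n a N, φ p b * φ p' b ≤
        (if p' = p then (D p - 1) * (2 ^ n * (N : ℝ) ^ n) else 0) + Z := by
      intro p hp p' hp'
      by_cases h : p' = p
      · subst h
        rw [if_pos rfl]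
        have := hdiag p' hp
        linarith
      · rw [if_neg h, zero_add]
        exact hoff p hp p' hp' (Ne.symm h)
    calc ∑ p ∈ E, ∑ p' ∈ E, ∑ b ∈ box n a N, φ p b * φ p' b
        ≤ ∑ p ∈ E, ∑ p' ∈ E, ((if p' = p then (D p - 1) * (2 ^ n * (N : ℝ) ^ n) else 0) + Z) :=
          sum_le_sum fun p hp => sum_le_sum fun p' hp' => h2 p hp p' hp'
      _ = W * (2 ^ n * (N : ℝ) ^ n) + E.card ^ 2 * Z := by
          simp_rw [sum_add_distrib]
          congr 1
          · rw [hW, sum_mul]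
            refine sum_congr rfl fun p hp => ?_
            rw [sum_ite_eq' E p, if_pos hp]
          · simp only [sum_const, nsmul_eq_mul]
            ring
      _ ≤ W * (2 ^ n * (N : ℝ) ^ n) + W ^ 2 * Z := by gcongr
  have hlower : (S.card : ℝ) * W ^ 2 ≤ ∑ b ∈ box n a N, (∑ p ∈ E, φ p b) ^ 2 := by
    rw [← nsmul_eq_mul, ← sum_const]
    calc ∑ _b ∈ S, W ^ 2 = ∑ b ∈ S, (∑ p ∈ E, φ p b) ^ 2 := by
          refine sum_congr rfl fun b hb => ?_
          congr 1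
          rw [hW]
          refine sum_congr rfl fun p hp => ?_
          simp only [hφ]
          rw [if_pos (hSA b hb p hp), mul_one]
      _ ≤ ∑ b ∈ box n a N, (∑ p ∈ E, φ p b) ^ 2 :=
          sum_le_sum_of_subset_of_nonneg hS fun _ _ _ => sq_nonneg _
  have hZS : 2 * Z ≤ S.card := by
    refine le_trans (le_of_eq ?_) hbig
    rw [hZ]
    ring
  rcases hW0.eq_or_lt with h0 | h0
  · rw [← h0, zero_mul]
    positivity
  · have h1 : (S.card : ℝ) * W ^ 2 ≤ W * (2 ^ n * (N : ℝ) ^ n) + W ^ 2 * Z := hlower.trans hupper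
    have h2 : W ^ 2 * Z ≤ W ^ 2 * (S.card / 2) := by
      gcongr
      linarith
    have h3 : W * (W * S.card) ≤ W * (2 ^ (n + 1) * (N : ℝ) ^ n) := by
      rw [pow_succ (2 : ℝ) n]
      nlinarith
    exact le_of_mul_le_mul_left h3 h0

end Pool.Agent.Helper303_RF
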