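import Mathlib
import Pool.Agent.Helper303_RF.Pair
import Pool.Agent.Helper303_RF.Sieve2

/-!
# The exceptional primes of a monic irreducible polynomial
-/

set_option autoImplicit false

namespace Pool.Agent.Helper303_RF

open Finset Filter Polynomial

/-- the largest divisor of `N` all of whose prime factors are at most `y` -/
def smoothPart (y N : ℕ) : ℕ := (N.divisors.filter fun d => ∀ q ∈ d.primeFactors, q ≤ y).sup id

theorem smoothPart_mem {y N : ℕ} (hN : 0 < N) :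
    smoothPart y N ∣ N ∧ ∀ q : ℕ, q.Prime → q ∣ smoothPart y N → q ≤ y := by
  have h1 : (N.divisors.filter fun d => ∀ q ∈ d.primeFactors, q ≤ y).Nonempty :=
    ⟨1, mem_filter.2 ⟨Nat.one_mem_divisors.2 hN.ne', by simp⟩⟩
  obtain ⟨d, hd, h2⟩ := exists_mem_eq_sup _ h1 id
  obtain ⟨h3, h4⟩ := mem_filter.1 hd
  have h5 : smoothPart y N = d := h2
  rw [h5]
  refine ⟨Nat.dvd_of_mem_divisors h3, fun q hq hqd => h4 q ?_⟩
  exact Nat.mem_primeFactors.2 ⟨hq, hqd, (Nat.pos_of_mem_divisors h3).ne'⟩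

theorem le_smoothPart {y N d : ℕ} (hN : 0 < N) (hd : d ∣ N)
    (h : ∀ q ∈ d.primeFactors, q ≤ y) : d ≤ smoothPart y N :=
  le_sup (f := id) (mem_filter.2 ⟨Nat.mem_divisors.2 ⟨hd, hN.ne'⟩, h⟩)

theorem smoothPart_le (y : ℕ) {N : ℕ} (hN : 0 < N) : smoothPart y N ≤ N :=
  Nat.le_of_dvd hN (smoothPart_mem hN).1

theorem smoothPart_mono {y y' N : ℕ} (h : y ≤ y') : smoothPart y N ≤ smoothPart y' N := by
  unfold smoothPart
  refine sup_mono ?_
  intro d hd
  obtain ⟨h1, h2⟩ := mem_filter.1 hd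
  exact mem_filter.2 ⟨h1, fun q hq => (h2 q hq).trans h⟩

theorem two_le_smoothPart {y N : ℕ} (hN : 0 < N) (hy : 2 ≤ y) (h2 : 2 ∣ N) :
    2 ≤ smoothPart y N :=
  le_smoothPart hN h2 (by
    intro q hq
    rw [Nat.Prime.primeFactors Nat.prime_two, mem_singleton] at hq
    omega)

/-- the candidates for the roots -/
def cands (f : ℤ[X]) (B C p : ℕ) : List ℕ := rlist (lowc f) p p.size (p.size ^ B) (p.size ^ C)

/-- a root is missing -/
def Bad (f : ℤ[X]) (B C p : ℕ) : Prop :=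
  ∃ r : ZMod p, f.eval₂ (Int.castRingHom (ZMod p)) r = 0 ∧ r.val ∉ cands f B C p

/-- the residues of a bad prime -/
theorem bad_set {f : ℤ[X]} (hm : f.Monic) (hd : 0 < f.natDegree) {B C C0 C1 l p : ℕ}
    (hp : p.Prime) (hp2 : 2 < p)
    (hsep : (f.map (Int.castRingHom (ZMod p))).Separable)
    (hbad : Bad f B C p) (hC0 : C0 * (l ^ C1) ^ f.natDegree < p) (hl : l ^ C1 ≤ p.size ^ C)
    {S : Finset (Fin f.natDegree → ℤ)}
    (hS : ∀ v ∈ S, ∃ T : List (Fin f.natDegree → ℤ), (∀ a ∈ T, ∀ i, |a i| ≤ (l : ℤ) ^ C1) ∧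
        ∀ p : ℕ, p.Prime → C0 * (l ^ C1) ^ f.natDegree < p → ∀ z : ZMod p,
          f.eval₂ (Int.castRingHom (ZMod p)) z = 0 →
            val z v = (T.map (val z)).prod ∧ ∀ a ∈ T, val z a ≠ 0) :
    ∃ A : Finset (Fin f.natDegree → ZMod p), A.Nonempty ∧
      A.card * smoothPart (p.size ^ B) (p - 1) ≤ p ^ f.natDegree ∧ ∀ v ∈ S, redu p v ∈ A := by
  classical
  have := Fact.mk hp
  obtain ⟨r, hr, hrb⟩ := hbad
  obtain ⟨r', hr', hne, hU⟩ := exists_unsep hm hd hsep hr hrb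
  have hrt := (isRt_lowc hm (κ := ZMod p)).2 hr
  have hrt' := (isRt_lowc hm (κ := ZMod p)).2 hr'
  have hn2 : 2 ≤ f.natDegree := by
    by_contra hcon
    have h1 : f.natDegree = 1 := by omega
    apply hne
    unfold IsRt at hrt hrt'
    rw [lowc_length, h1, sum_range_one, pow_one, pow_zero, mul_one] at hrt hrt'
    linear_combination hrt' - hrt
  have hlen : (lowc f).length = f.natDegree := lowc_length f
  set G := GG (lowc f) p (p.size ^ C) r r' with hG
  have hN : 0 < p - 1 := by omega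
  have hcard := grp_card (M := smoothPart (p.size ^ B) (p - 1)) (by rw [hlen]; exact hd) hrt hrt' hU
    (Nat.lt_size_self p) (smoothPart_mem hN).1 (smoothPart_mem hN).2
  rw [← hG] at hcard
  refine ⟨AA f.natDegree r r' G, ?_, ?_, ?_⟩
  · have h1 := AA_card hn2 hne G
    have h2 : 0 < Nat.card G * p ^ f.natDegree := by
      have : 0 < Nat.card G := Nat.card_pos
      have := hp.pos
      positivity
    rw [← h1] at h2
    exact card_pos.1 (Nat.pos_of_mul_pos_right h2)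
  · have h1 := AA_card hn2 hne G
    have h2 : (AA f.natDegree r r' G).card * smoothPart (p.size ^ B) (p - 1) * p ^ 2 ≤
        p ^ f.natDegree * p ^ 2 := by
      calc _ = ((AA f.natDegree r r' G).card * p ^ 2) * smoothPart (p.size ^ B) (p - 1) := by ring
        _ = (Nat.card G * smoothPart (p.size ^ B) (p - 1)) * p ^ f.natDegree := by rw [h1]; ring
        _ ≤ (p - 1) ^ 2 * p ^ f.natDegree := Nat.mul_le_mul_right _ hcard
        _ ≤ p ^ 2 * p ^ f.natDegree :=
            Nat.mul_le_mul_right _ (Nat.pow_le_pow_left (Nat.sub_le _ _) _)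
        _ = _ := by ring
    exact Nat.le_of_mul_le_mul_right h2 (pow_pos hp.pos 2)
  · intro v hv
    obtain ⟨T, hT, hT2⟩ := hS v hv
    obtain ⟨e1, e2⟩ := hT2 p hp hC0 r hr
    obtain ⟨e1', e2'⟩ := hT2 p hp hC0 r' hr'
    have key : ∀ m : ℕ, ∀ hm : m = (lowc f).length, ∀ T : List (Fin m → ℤ),
        (∀ a ∈ T, ∀ i, |a i| ≤ ((p.size ^ C : ℕ) : ℤ)) → (∀ a ∈ T, val r a ≠ 0) →
        (∀ a ∈ T, val r' a ≠ 0) → ∃ g ∈ G, (g.1 : ZMod p) = (T.map (val r)).prod ∧
          (g.2 : ZMod p) = (T.map (val r')).prod := by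
      rintro m rfl T h1 h2 h3
      exact prod_mem r r' T h1 h2 h3
    obtain ⟨g, hg, h1, h2⟩ := key _ hlen.symm T (fun a ha i => (hT a ha i).trans
      (by exact_mod_cast hl)) e2 e2'
    unfold AA
    exact mem_filter.2 ⟨mem_univ _, g, hg, by rw [h1, vl_redu, e1], by rw [h2, vl_redu, e1']⟩

open Classical in
theorem mono {f : ℤ[X]} (hf : Irreducible f) (hm : f.Monic) (hd : 0 < f.natDegree) {B : ℕ}
    (hB : 0 < B) {ε : ℝ} (hε : 0 < ε) : ∃ C P1 : ℕ, ∀ x : ℕ,
      ∑ p ∈ (range (x + 1)).filter (fun p => p.Prime ∧ P1 < p ∧ Bad f B C p),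
        (smoothPart (p.size ^ B) (p - 1) : ℝ) ≤ (x : ℝ) ^ ε := by
  set n := f.natDegree with hn
  set δ : ℝ := min (1 / 6) (ε / 6) with hδ
  have hδ0 : 0 < δ := lt_min (by norm_num) (by positivity)
  have hδ1 : δ ≤ 1 / 6 := min_le_left _ _
  have hδ2 : δ ≤ ε / 6 := min_le_right _ _
  obtain ⟨K, hK⟩ := exists_nat_ge (4 / ε + 1)
  have hK0 : (0 : ℝ) < K := by
    have : 0 < 4 / ε := by positivity
    linarith
  have hKε : 2 * (1 / (K : ℝ)) ≤ ε / 2 := by
    have h1 : 4 / ε ≤ K := by linarith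
    rw [div_le_iff₀ hε] at h1
    rw [mul_one_div, div_le_iff₀ hK0]
    linarith
  have hKn : 0 < K := by exact_mod_cast hK0
  obtain ⟨C1, C0, hC1, hS⟩ := smooth_set hf hm hd hδ0 (by linarith)
  obtain ⟨D, hD⟩ := sep_mod hf hd
  -- conditions on `p`
  have c1 : ∀ᶠ p : ℕ in atTop, D < p := eventually_gt_atTop D
  have hsize : Tendsto (fun p : ℕ => p.size) atTop atTop := by
    rw [tendsto_atTop]
    intro b
    filter_upwards [eventually_ge_atTop (2 ^ b)] with p hp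
    by_contra hcon
    push Not at hcon
    have := Nat.lt_size_self p
    have h2 : 2 ^ p.size ≤ 2 ^ b := Nat.pow_le_pow_right (by norm_num) hcon.le
    omega
  have c2 : ∀ᶠ p : ℕ in atTop, 3 * K ≤ p.size := hsize.eventually_ge_atTop _
  have c3 : ∀ᶠ p : ℕ in atTop, C0 * ((3 * K * p.size) ^ C1) ^ n < p := by
    have h1 : ∀ᶠ s : ℕ in atTop, C0 * ((3 * K * s) ^ C1) ^ n < 2 ^ (s - 1) := by
      set k := C1 * n with hk
      set c : ℝ := 1 / (2 * (C0 * (3 * K) ^ k + 1)) with hc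
      have hc0 : 0 < c := by positivity
      have h2 := (tendsto_pow_const_div_const_pow_of_one_lt k (one_lt_two (α := ℝ))).eventually
        (gt_mem_nhds hc0)
      filter_upwards [h2, eventually_ge_atTop 1] with s h3 h4
      have h5 : (0 : ℝ) < 2 ^ s := by positivity
      rw [div_lt_iff₀ h5] at h3
      have h6 : (2 : ℝ) ^ s = 2 * 2 ^ (s - 1) := by
        rw [← pow_succ']
        congr 1
        omega
      have h7 : ((C0 * ((3 * K * s) ^ C1) ^ n : ℕ) : ℝ) < ((2 ^ (s - 1) : ℕ) : ℝ) := by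
        push_cast
        calc (C0 : ℝ) * ((3 * K * s) ^ C1) ^ n = (C0 * (3 * K) ^ k) * (s : ℝ) ^ k := by
              rw [← pow_mul, mul_pow]
              ring
          _ ≤ (C0 * (3 * K) ^ k + 1) * (s : ℝ) ^ k := by
              gcongr
              linarith
          _ < (C0 * (3 * K) ^ k + 1) * (c * 2 ^ s) := by gcongr
          _ = 2 ^ (s - 1) := by
              rw [hc, h6]
              field_simp
      exact_mod_cast h7
    filter_upwards [hsize.eventually h1, eventually_ge_atTop 1] with p hp hp1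
    have h2 : 2 ^ (p.size - 1) ≤ p := by
      rw [← Nat.lt_size]
      have : 0 < p.size := Nat.size_pos.2 hp1
      omega
    omega
  -- conditions on `x`
  have d1 : ∀ᶠ x : ℕ in atTop, ∃ S : Finset (Fin f.natDegree → ℤ),
      (∀ v ∈ S, ∀ i, |v i| ≤ 2 ^ (3 * x.size)) ∧
      (2 : ℝ) ^ (((f.natDegree : ℝ) - δ) * (((3 * x.size : ℕ) : ℝ) + 1)) ≤ S.card ∧
      ∀ v ∈ S, ∃ T : List (Fin f.natDegree → ℤ),
        (∀ a ∈ T, ∀ i, |a i| ≤ ((3 * x.size : ℕ) : ℤ) ^ C1) ∧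
        ∀ p : ℕ, p.Prime → C0 * ((3 * x.size) ^ C1) ^ f.natDegree < p → ∀ z : ZMod p,
          f.eval₂ (Int.castRingHom (ZMod p)) z = 0 →
            val z v = (T.map (val z)).prod ∧ ∀ a ∈ T, val z a ≠ 0 := by
    have h3 : Tendsto (fun x : ℕ => 3 * x.size) atTop atTop :=
      tendsto_atTop_mono (fun x => by omega) hsize
    exact h3.eventually hS
  have d2 : ∀ᶠ x : ℕ in atTop, 6 * n + 2 ≤ x.size := hsize.eventually_ge_atTop _
  have d3 : ∀ᶠ x : ℕ in atTop, (1 + 2 ^ (2 * n + 4) : ℝ) ≤ (x : ℝ) ^ (ε / 2) :=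
    ((tendsto_rpow_atTop (by positivity)).comp tendsto_natCast_atTop_atTop).eventually_ge_atTop _
  obtain ⟨P1, hP1⟩ := eventually_atTop.1 (c1.and (c2.and (c3.and (d1.and (d2.and
    (d3.and (eventually_gt_atTop 2)))))))
  refine ⟨2 * C1, P1, fun x => ?_⟩
  rcases lt_or_ge x P1 with hx | hx
  · rw [filter_false_of_mem, sum_empty]
    · positivity
    · rintro p hp ⟨_, h2, _⟩
      have := mem_range.1 hp
      omega
  obtain ⟨-, -, -, ⟨S, hS1, hS2, hS3⟩, hx2, hx3, hx4⟩ := hP1 x hx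
  set s := x.size with hs
  set M : ℕ → ℕ := fun p => smoothPart (p.size ^ B) (p - 1) with hM
  set E := (range (x + 1)).filter (fun p => p.Prime ∧ P1 < p ∧ Bad f B (2 * C1) p) with hE
  have hEm : ∀ p ∈ E, p ≤ x ∧ p.Prime ∧ P1 < p ∧ Bad f B (2 * C1) p := by
    intro p hp
    obtain ⟨h1, h2⟩ := mem_filter.1 hp
    exact ⟨by have := mem_range.1 h1; omega, h2⟩
  have hx1 : (1 : ℝ) ≤ x := by
    have : 1 ≤ x := by omega
    exact_mod_cast this
  have hx0 : (0 : ℝ) < x := by linarith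
  -- small primes
  have hsmall : ∑ p ∈ E.filter (fun p => p ^ K ≤ x), (M p : ℝ) ≤ (x : ℝ) ^ (ε / 2) := by
    set m : ℝ := (x : ℝ) ^ (1 / (K : ℝ)) with hm'
    have hm0 : 0 ≤ m := by positivity
    have h1 : ∀ p ∈ E.filter (fun p => p ^ K ≤ x), (p : ℝ) ≤ m := by
      intro p hp
      have h2 : ((p : ℝ)) ^ K ≤ x := by exact_mod_cast (mem_filter.1 hp).2
      calc (p : ℝ) = ((p : ℝ) ^ K) ^ (1 / (K : ℝ)) := by
            rw [← Real.rpow_natCast, ← Real.rpow_mul (by positivity), mul_one_div,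
              div_self hK0.ne', Real.rpow_one]
        _ ≤ m := Real.rpow_le_rpow (by positivity) h2 (by positivity)
    have h2 : ((E.filter (fun p => p ^ K ≤ x)).card : ℝ) ≤ m := by
      have h3 : E.filter (fun p => p ^ K ≤ x) ⊆ Icc 1 ⌊m⌋₊ := by
        intro p hp
        rw [mem_Icc]
        exact ⟨(hEm p (mem_filter.1 hp).1).2.1.one_lt.le, Nat.le_floor (h1 p hp)⟩
      have h4 := card_le_card h3
      rw [Nat.card_Icc, Nat.add_sub_cancel] at h4
      exact le_trans (by exact_mod_cast h4) (Nat.floor_le hm0)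
    calc ∑ p ∈ E.filter (fun p => p ^ K ≤ x), (M p : ℝ)
        ≤ ∑ p ∈ E.filter (fun p => p ^ K ≤ x), m := by
          refine sum_le_sum fun p hp => le_trans ?_ (h1 p hp)
          have h5 := (hEm p (mem_filter.1 hp).1).2.1.two_le
          have h6 := smoothPart_le (p.size ^ B) (show 0 < p - 1 by omega)
          have h7 : M p ≤ p := h6.trans (Nat.sub_le _ _)
          exact_mod_cast h7
      _ = (E.filter (fun p => p ^ K ≤ x)).card * m := by rw [sum_const, nsmul_eq_mul]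
      _ ≤ m * m := by gcongr
      _ = (x : ℝ) ^ (2 * (1 / (K : ℝ))) := by
          rw [hm', ← Real.rpow_add hx0]
          congr 1
          ring
      _ ≤ (x : ℝ) ^ (ε / 2) := Real.rpow_le_rpow_of_exponent_le hx1 hKε
  -- large primes
  set E2 := E.filter (fun p => ¬ p ^ K ≤ x) with hE2
  have hset : ∀ p ∈ E2, ∃ A : Finset (Fin n → ZMod p), A.Nonempty ∧
      A.card * M p ≤ p ^ n ∧ ∀ v ∈ S, redu p v ∈ A := by
    intro p hp
    obtain ⟨h1, h2⟩ := mem_filter.1 hp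
    obtain ⟨h3, h4, h5, h6⟩ := hEm p h1
    obtain ⟨e1, e2, e3, -, -, -, e7⟩ := hP1 p h5.le
    have h7 : s ≤ K * p.size := by
      rw [hs, Nat.size_le]
      push Not at h2
      calc x < p ^ K := h2
        _ ≤ (2 ^ p.size) ^ K := Nat.pow_le_pow_left (Nat.lt_size_self p).le _
        _ = 2 ^ (K * p.size) := by rw [← pow_mul, mul_comm]
    have h8 : (3 * s) ^ C1 ≤ (3 * K * p.size) ^ C1 := Nat.pow_le_pow_left (by
      calc 3 * s ≤ 3 * (K * p.size) := by omega
        _ = 3 * K * p.size := by ring) _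
    refine bad_set hm hd (C := 2 * C1) (C0 := C0) (C1 := C1) (l := 3 * s) h4 e7 (hD p h4 e1) h6
      ?_ ?_ hS3
    · refine lt_of_le_of_lt ?_ e3
      exact Nat.mul_le_mul_left _ (Nat.pow_le_pow_left h8 _)
    · refine h8.trans ?_
      rw [pow_mul]
      refine Nat.pow_le_pow_left ?_ _
      rw [sq]
      exact Nat.mul_le_mul_right _ e2
  choose! A hA1 hA2 hA3 using hset
  set DD : ℕ → ℝ := fun p => (p : ℝ) ^ n / ((A p).card : ℝ) with hDD
  have hEp : ∀ p ∈ E2, p.Prime ∧ p ≤ x ∧ 2 < p := by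
    intro p hp
    obtain ⟨h1, h2⟩ := mem_filter.1 hp
    obtain ⟨h3, h4, h5, h6⟩ := hEm p h1
    exact ⟨h4, h3, (hP1 p h5.le).2.2.2.2.2.2⟩
  have hM2 : ∀ p ∈ E2, 2 ≤ M p := by
    intro p hp
    obtain ⟨h1, h2, h3⟩ := hEp p hp
    apply two_le_smoothPart (by omega)
    · have : 2 ≤ p.size := by
        by_contra hcon
        have h4 : p.size ≤ 1 := by omega
        rw [Nat.size_le] at h4
        omega
      calc 2 ≤ p.size := this
        _ = p.size ^ 1 := (pow_one _).symm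
        _ ≤ p.size ^ B := Nat.pow_le_pow_right (by omega) hB
    · have := h1.eq_two_or_odd
      omega
  have hcardpos : ∀ p ∈ E2, (0 : ℝ) < (A p).card := fun p hp => by
    exact_mod_cast card_pos.2 (hA1 p hp)
  have hMD : ∀ p ∈ E2, (M p : ℝ) ≤ DD p := by
    intro p hp
    simp only [hDD]
    rw [le_div_iff₀ (hcardpos p hp), mul_comm]
    exact_mod_cast hA2 p hp
  have hDD2 : ∀ p ∈ E2, 2 ≤ DD p := fun p hp =>
    le_trans (by exact_mod_cast hM2 p hp) (hMD p hp)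
  set N := 2 ^ (3 * s + 1) + 1 with hN
  have hNle : N ≤ 2 ^ (3 * s + 2) := by
    rw [hN, pow_succ 2 (3 * s + 1)]
    have : 1 ≤ 2 ^ (3 * s + 1) := Nat.one_le_two_pow
    omega
  have hxs : x < 2 ^ s := Nat.lt_size_self x
  have hn1 : (1 : ℝ) ≤ n := by exact_mod_cast hd
  have hs6 : (6 * n + 2 : ℝ) ≤ s := by exact_mod_cast hx2
  have hsieve := sieve hd E2 x N (-(2 ^ (3 * s) : ℤ)) (fun p hp => ⟨(hEp p hp).1, (hEp p hp).2.1⟩)
    (by
      calc x ^ 2 ≤ (2 ^ s) ^ 2 := Nat.pow_le_pow_left hxs.le _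
        _ = 2 ^ (s * 2) := by rw [← pow_mul]
        _ ≤ 2 ^ (3 * s + 1) := Nat.pow_le_pow_right (by norm_num) (by omega)
        _ ≤ N := by omega)
    A DD (fun p hp => ⟨hDD2 p hp, by
      simp only [hDD]
      rw [div_mul_cancel₀ _ (hcardpos p hp).ne']⟩) S
    (by
      intro v hv
      unfold box
      rw [Fintype.mem_piFinset]
      intro i
      have h1 := hS1 v hv i
      rw [abs_le] at h1
      rw [mem_Ico, hN]
      push_cast
      rw [pow_succ]
      constructor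
      · linarith [h1.1]
      · linarith [h1.2])
    (fun v hv p hp => hA3 p hp v hv)
    (by
      refine le_trans ?_ hS2
      have e1 : (n : ℝ) ≤ 2 ^ n := by exact_mod_cast (Nat.lt_two_pow_self (n := n)).le
      have e2 : (N : ℝ) ≤ 2 ^ (3 * s + 2) := by exact_mod_cast hNle
      have e3 : (x : ℝ) ≤ 2 ^ s := by exact_mod_cast hxs.le
      calc (n : ℝ) * 2 ^ (n + 2) * (N : ℝ) ^ (n - 1) * (x : ℝ) ^ 2
          ≤ 2 ^ n * 2 ^ (n + 2) * (2 ^ (3 * s + 2)) ^ (n - 1) * (2 ^ s) ^ 2 := by gcongr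
        _ = 2 ^ (n + (n + 2) + (3 * s + 2) * (n - 1) + s * 2) := by
            rw [← pow_mul, ← pow_mul, ← pow_add, ← pow_add, ← pow_add]
        _ = (2 : ℝ) ^ ((n + (n + 2) + (3 * s + 2) * (n - 1) + s * 2 : ℕ) : ℝ) := by
            rw [Real.rpow_natCast]
        _ ≤ _ := by
            apply Real.rpow_le_rpow_of_exponent_le (by norm_num)
            obtain ⟨m, hm'⟩ : ∃ m, n = m + 1 := ⟨n - 1, by omega⟩
            rw [← hn, hm', Nat.add_sub_cancel]
            rw [hm'] at hs6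
            push_cast at hs6 ⊢
            have e4 : δ * (3 * (s : ℝ) + 1) ≤ 1 / 6 * (3 * (s : ℝ) + 1) := by gcongr
            nlinarith)
  have hlarge : ∑ p ∈ E2, (M p : ℝ) ≤ 2 ^ (2 * n + 4) * (x : ℝ) ^ (ε / 2) := by
    have h1 : ∑ p ∈ E2, (M p : ℝ) ≤ 2 * ∑ p ∈ E2, (DD p - 1) := by
      rw [mul_sum]
      refine sum_le_sum fun p hp => ?_
      have := hMD p hp
      have := hDD2 p hp
      linarith
    have hScard : (0 : ℝ) < S.card := lt_of_lt_of_le (by positivity) hS2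
    have h2 : ∑ p ∈ E2, (DD p - 1) ≤ 2 ^ (2 * n + 3) * (x : ℝ) ^ (ε / 2) := by
      have e2 : (N : ℝ) ≤ 2 ^ (3 * s + 2) := by exact_mod_cast hNle
      have h3 : ∑ p ∈ E2, (DD p - 1) ≤ 2 ^ (n + 1) * (N : ℝ) ^ n / S.card := by
        rw [le_div_iff₀ hScard]
        exact hsieve
      refine h3.trans ?_
      rw [div_le_iff₀ hScard]
      have h4 : (2 : ℝ) ^ (n + 1) * (N : ℝ) ^ n ≤ 2 ^ (2 * n + 2) *
          ((2 : ℝ) ^ (3 * δ * s) * (2 : ℝ) ^ (((n : ℝ) - δ) * (((3 * s : ℕ) : ℝ) + 1))) := by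
        calc (2 : ℝ) ^ (n + 1) * (N : ℝ) ^ n ≤ 2 ^ (n + 1) * (2 ^ (3 * s + 2)) ^ n := by gcongr
          _ = (2 : ℝ) ^ ((n + 1 + (3 * s + 2) * n : ℕ) : ℝ) := by
              rw [Real.rpow_natCast, ← pow_mul, ← pow_add]
          _ ≤ (2 : ℝ) ^ (((2 * n + 2 : ℕ) : ℝ) +
              (3 * δ * s + ((n : ℝ) - δ) * (((3 * s : ℕ) : ℝ) + 1))) := by
              apply Real.rpow_le_rpow_of_exponent_le (by norm_num)
              push_cast
              nlinarith
          _ = _ := by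
              rw [Real.rpow_add (by norm_num), Real.rpow_add (by norm_num), Real.rpow_natCast]
      have h5 : (2 : ℝ) ^ (3 * δ * s) ≤ 2 * (x : ℝ) ^ (ε / 2) := by
        have h6 : (2 : ℝ) ^ s ≤ 2 * x := by
          have h7 : 2 ^ (s - 1) ≤ x := by
            rw [← Nat.lt_size]
            omega
          have h8 : 2 ^ s = 2 * 2 ^ (s - 1) := by
            rw [← pow_succ']
            congr 1
            omega
          have h9 : 2 ^ s ≤ 2 * x := by omega
          exact_mod_cast h9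
        calc (2 : ℝ) ^ (3 * δ * s) = ((2 : ℝ) ^ s) ^ (3 * δ) := by
              rw [← Real.rpow_natCast, ← Real.rpow_mul (by norm_num)]
              congr 1
              ring
          _ ≤ (2 * x : ℝ) ^ (3 * δ) := Real.rpow_le_rpow (by positivity) h6 (by positivity)
          _ = (2 : ℝ) ^ (3 * δ) * (x : ℝ) ^ (3 * δ) := Real.mul_rpow (by norm_num) hx0.le
          _ ≤ (2 : ℝ) ^ (1 : ℝ) * (x : ℝ) ^ (ε / 2) := by
              gcongr
              · norm_num
              · linarith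
              · linarith
          _ = 2 * (x : ℝ) ^ (ε / 2) := by rw [Real.rpow_one]
      calc (2 : ℝ) ^ (n + 1) * (N : ℝ) ^ n ≤ _ := h4
        _ ≤ 2 ^ (2 * n + 2) * ((2 * (x : ℝ) ^ (ε / 2)) * S.card) := by gcongr
        _ = 2 ^ (2 * n + 3) * (x : ℝ) ^ (ε / 2) * S.card := by rw [pow_succ]; ring
    calc ∑ p ∈ E2, (M p : ℝ) ≤ 2 * ∑ p ∈ E2, (DD p - 1) := h1
      _ ≤ 2 * (2 ^ (2 * n + 3) * (x : ℝ) ^ (ε / 2)) := by gcongr
      _ = 2 ^ (2 * n + 4) * (x : ℝ) ^ (ε / 2) := by rw [pow_succ]; ring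
  rw [← sum_filter_add_sum_filter_not E (fun p => p ^ K ≤ x)]
  calc _ ≤ (x : ℝ) ^ (ε / 2) + 2 ^ (2 * n + 4) * (x : ℝ) ^ (ε / 2) := add_le_add hsmall hlarge
    _ = (1 + 2 ^ (2 * n + 4)) * (x : ℝ) ^ (ε / 2) := by ring
    _ ≤ (x : ℝ) ^ (ε / 2) * (x : ℝ) ^ (ε / 2) := by gcongr
    _ = (x : ℝ) ^ ε := by
        rw [← Real.rpow_add hx0]
        congr 1
        ring

end Pool.Agent.Helper303_RF
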