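import Mathlib
import Pool.Agent.Helper303_RF.Mono

/-!
# General polynomials
-/

set_option autoImplicit false

namespace Pool.Agent.Helper303_RF

open Polynomial
open Pool.Agent.H595R2.PR (md pw strip)

theorem monic_factors : ∀ (d : ℕ) (F : ℤ[X]), F.Monic → F.natDegree = d →
    ∃ Hs : List ℤ[X], (∀ h ∈ Hs, Irreducible h ∧ h.Monic ∧ 0 < h.natDegree) ∧ F = Hs.prod := by
  intro d
  induction d using Nat.strong_induction_on with
  | _ d ih =>
    intro F hF hd
    rcases Nat.eq_zero_or_pos d with h0 | h0
    · refine ⟨[], by simp, ?_⟩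
      rw [h0] at hd
      rw [List.prod_nil]
      exact eq_one_of_monic_natDegree_zero hF hd
    · have hnu : ¬ IsUnit F := by
        intro h
        have := natDegree_eq_zero_of_isUnit h
        omega
      obtain ⟨g, hg, k, hk⟩ := WfDvdMonoid.exists_irreducible_factor hnu hF.ne_zero
      have hlc : g.leadingCoeff * k.leadingCoeff = 1 := by
        rw [← leadingCoeff_mul, ← hk]
        exact hF
      have hu : IsUnit g.leadingCoeff := IsUnit.of_mul_eq_one _ hlc
      have hsq : g.leadingCoeff * g.leadingCoeff = 1 := by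
        rcases Int.isUnit_iff.1 hu with h | h <;> rw [h] <;> norm_num
      have hCu : IsUnit (C g.leadingCoeff) := isUnit_C.2 hu
      set g' := C g.leadingCoeff * g with hg'
      set k' := C g.leadingCoeff * k with hk'
      have hgm : g'.Monic := by
        rw [Monic, hg', leadingCoeff_mul, leadingCoeff_C, hsq]
      have hgi : Irreducible g' := (irreducible_isUnit_mul hCu).2 hg
      have hgk : F = g' * k' := by
        rw [hg', hk', hk]
        have : C g.leadingCoeff * C g.leadingCoeff = (1 : ℤ[X]) := by rw [← C_mul, hsq, C_1]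
        linear_combination (-(g * k)) * this
      have hkm : k'.Monic := hgm.of_mul_monic_left (hgk ▸ hF)
      have hgd : 0 < g'.natDegree := by
        by_contra hcon
        have h1 : g' = 1 := eq_one_of_monic_natDegree_zero hgm (by omega)
        exact hgi.not_isUnit (h1 ▸ isUnit_one)
      have hdeg : F.natDegree = g'.natDegree + k'.natDegree := by
        rw [hgk]
        exact hgm.natDegree_mul hkm
      obtain ⟨Hs, h1, h2⟩ := ih k'.natDegree (by omega) k' hkm rfl
      refine ⟨g' :: Hs, ?_, ?_⟩
      · intro h hh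
        rcases List.mem_cons.1 hh with rfl | hh
        · exact ⟨hgi, hgm, hgd⟩
        · exact h1 h hh
      · rw [List.prod_cons, ← h2]
        exact hgk

/-- the finitely many monic irreducible polynomials needed for `f` -/
theorem exists_factors {f : ℤ[X]} (hf : 0 < f.natDegree) :
    ∃ Hs : List ℤ[X], (∀ h ∈ Hs, Irreducible h ∧ h.Monic ∧ 0 < h.natDegree) ∧
      ∀ p : ℕ, p.Prime → ∀ r : ZMod p, f.eval₂ (Int.castRingHom (ZMod p)) r = 0 →
        ∃ h ∈ Hs, h.eval₂ (Int.castRingHom (ZMod p)) ((f.leadingCoeff : ZMod p) * r) = 0 := by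
  have hf0 : f ≠ 0 := by
    rintro rfl
    simp at hf
  obtain ⟨Hs, h1, h2⟩ := monic_factors _ (integralNormalization f) (monic_integralNormalization hf0) rfl
  refine ⟨Hs, h1, fun p hp r hr => ?_⟩
  have := Fact.mk hp
  have h3 := integralNormalization_eval₂_leadingCoeff_mul (p := f) hf
    (Int.castRingHom (ZMod p)) r
  rw [hr, mul_zero, h2, ← coe_eval₂RingHom, map_list_prod] at h3
  obtain ⟨h, hh, h4⟩ := List.mem_map.1 (List.prod_eq_zero_iff.1 h3)
  exact ⟨h, hh, h4⟩

end Pool.Agent.Helper303_RF
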