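import Mathlib
import Pool.Agent.Helper303_RF.AlgPoly
import Pool.Agent.Helper303_RF.Mono

/-!
# The final list of roots
-/

set_option autoImplicit false

namespace Pool.Agent.Helper303_RF

open Pool.Agent.H595R2.PR (md pw strip)

/-- the value modulo `p` at `r` of the polynomial with the given coefficients, by Horner's rule -/
def evf (cs : List ℤ) (p r : ℕ) : ℕ := cs.foldr (fun c acc => md p (rep c p + r * acc)) 0

/-- the candidates for the roots of `f` from the candidates for its monic factors -/
def raw (lc : ℤ) (B : ℕ) (Hs : List (Polynomial ℤ × ℕ)) (p : ℕ) : List ℕ :=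
  Hs.flatMap fun h => (rlist (lowc h.1) p p.size (p.size ^ B) (p.size ^ h.2)).map fun s =>
    md p (s * pw p (rep lc p) (p - 2))

/-- the list of roots -/
def rootList (cs : List ℤ) (lc : ℤ) (B : ℕ) (Hs : List (Polynomial ℤ × ℕ)) (p : ℕ) : List ℕ :=
  ((raw lc B Hs p).filter fun r => decide (evf cs p r = 0)).dedup

/-- the list of roots, with a table for the small numbers -/
def tabled (P : ℕ) (T F : ℕ → List ℕ) (p : ℕ) : List ℕ := if p ≤ P then T p else F p

theorem evf_cast (cs : List ℤ) {p : ℕ} [Fact p.Prime] (r : ℕ) :
    ((evf cs p r : ℕ) : ZMod p) =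
      ∑ k ∈ Finset.range cs.length, ((cs.getD k 0 : ℤ) : ZMod p) * (r : ZMod p) ^ k := by
  induction cs with
  | nil => simp [evf]
  | cons c cs ih =>
    have h1 : evf (c :: cs) p r = md p (rep c p + r * evf cs p r) := rfl
    rw [h1, cast_md (p := p)]
    push_cast
    rw [cast_rep (p := p), ih, List.length_cons, Finset.sum_range_succ']
    simp only [List.getD_cons_zero, List.getD_cons_succ, pow_zero, mul_one]
    rw [Finset.mul_sum, add_comm]
    congr 1
    refine Finset.sum_congr rfl fun k _ => ?_
    rw [pow_succ]
    ring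

theorem evf_lt (cs : List ℤ) {p : ℕ} (hp : 1 < p) (r : ℕ) : evf cs p r < p := by
  cases cs with
  | nil => simp only [evf, List.foldr_nil]; omega
  | cons c cs =>
    have h1 : evf (c :: cs) p r = md p (rep c p + r * evf cs p r) := rfl
    rw [h1]
    unfold md
    rw [max_eq_left hp.le]
    exact Nat.mod_lt _ (by omega)

end Pool.Agent.Helper303_RF

namespace Pool.Agent.NPC.H303

open Pool.Agent.NPC Pool.Agent.NPC.H595POL Pool.Agent.Helper303_RF
open Pool.Agent.H595R2.PR (md pw strip)

variable {α β : Type} [TEnc α] [TEnc β]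

theorem poly_dedup [DecidableEq β] {l : α → List β} (hl : Poly l) :
    Poly (fun a => (l a).dedup) := by
  have h0 : ∀ m : List β, m.foldr (fun x acc => if x ∈ acc then acc else x :: acc) [] = m.dedup := by
    intro m
    induction m with
    | nil => rfl
    | cons x m ih => rw [List.foldr_cons, ih, List.dedup_cons']
  obtain ⟨r, hr⟩ := hl.sz_le
  have h1 : Poly (fun a => (l a).foldr ((fun (_ : α) x acc => if x ∈ acc then acc else x :: acc) a)
      ((fun _ => ([] : List β)) a)) := by
    refine Poly.foldr hl (Poly.const []) ?_ (r * (r + 1) + 1) fun a k _ => ?_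
    · have hx : Poly (fun q : α × β × List β => q.2.1) := Poly.fst (Poly.snd Poly.id)
      have hacc : Poly (fun q : α × β × List β => q.2.2) := Poly.snd (Poly.snd Poly.id)
      exact Poly.ite (Poly.decide_mem hx hacc) hacc (Poly.cons hx hacc)
    · rw [h0]
      have h2 := sz_le_length_mul ((l a).drop k).dedup (sz (l a)) (by
        intro x hx
        exact (sz_le_of_mem (List.mem_of_mem_drop (List.mem_dedup.1 hx))).le)
      refine h2.trans ?_
      simp only [Polynomial.eval_add, Polynomial.eval_mul, Polynomial.eval_one]
      have h3 : ((l a).drop k).dedup.length ≤ r.eval (sz a) := by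
        have e1 : ((l a).drop k).dedup.length ≤ ((l a).drop k).length :=
          (List.dedup_sublist _).length_le
        have e2 : ((l a).drop k).length ≤ (l a).length := by
          rw [List.length_drop]
          omega
        have e3 := length_lt_sz (l a)
        have e4 := hr a
        omega
      exact Nat.add_le_add_right (Nat.mul_le_mul h3 (Nat.add_le_add_right (hr a) 1)) 1
  exact h1.congr fun a => h0 (l a)

theorem poly_tabled (P : ℕ) (T : ℕ → List ℕ) {F : ℕ → List ℕ} (hF : Poly F) :
    Poly (tabled P T F) := by
  induction P with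
  | zero =>
    have h : Poly (fun p : ℕ => if p = 0 then T 0 else F p) :=
      Poly.ite (Poly.decide_eq Poly.id (Poly.const 0)) (Poly.const _) hF
    refine h.congr fun p => ?_
    unfold tabled
    by_cases hp : p = 0
    · subst hp; simp
    · rw [if_neg hp, if_neg (by omega)]
  | succ P ih =>
    have h : Poly (fun p : ℕ => if p = P + 1 then T (P + 1) else tabled P T F p) :=
      Poly.ite (Poly.decide_eq Poly.id (Poly.const _)) (Poly.const _) ih
    refine h.congr fun p => ?_
    unfold tabled
    by_cases hp : p = P + 1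
    · rw [if_pos hp, if_pos (by omega), hp]
    · rw [if_neg hp]
      by_cases hp2 : p ≤ P
      · rw [if_pos hp2, if_pos (by omega)]
      · rw [if_neg hp2, if_neg (by omega)]

theorem poly_evf (cs : List ℤ) {p r : α → ℕ} (hp : Poly p) (hr : Poly r) :
    Poly (fun a => evf cs (p a) (r a)) := by
  induction cs with
  | nil => exact Poly.const 0
  | cons c cs ih =>
    exact poly_md hp (Poly.add (poly_rep c hp) (Poly.mul hr ih))

theorem poly_raw (lc : ℤ) (B : ℕ) (Hs : List (Polynomial ℤ × ℕ)) :
    Poly (fun p : ℕ => raw lc B Hs p) := by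
  induction Hs with
  | nil => exact Poly.const []
  | cons h Hs ih =>
    have h1 : Poly (fun p : ℕ => (rlist (lowc h.1) p p.size (p.size ^ B) (p.size ^ h.2)).map
        fun s => md p (s * pw p (rep lc p) (p - 2))) := by
      refine Poly.map (F := fun p s => md p (s * pw p (rep lc p) (p - 2)))
        (poly_rlist (lowc h.1) Poly.id upoly_size (upoly_sizepow B) (upoly_sizepow h.2)) ?_
      have hp : Poly (fun q : ℕ × ℕ => q.1) := Poly.fst Poly.id
      exact poly_md hp (Poly.mul (Poly.snd Poly.id) (poly_pw hp (poly_rep lc hp)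
        (Poly.sub hp (Poly.const 2))))
    exact Poly.append h1 ih

theorem poly_rootList (cs : List ℤ) (lc : ℤ) (B : ℕ) (Hs : List (Polynomial ℤ × ℕ)) :
    Poly (fun p : ℕ => rootList cs lc B Hs p) := by
  refine poly_dedup (Poly.filter (p := fun p r => decide (evf cs p r = 0)) (poly_raw lc B Hs) ?_)
  exact Poly.decide_eq (poly_evf cs (Poly.fst Poly.id) (Poly.snd Poly.id)) (Poly.const 0)

end Pool.Agent.NPC.H303
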